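import Pool.Agent.WH.Base

/-!
Project WH (MP_a9f751_an): elementary properties of the Schreier type classes `Cls`.
-/

set_option autoImplicit false

open Filter Topology

namespace Pool.Agent.WH

theorem cls_subset {ι : Type} {p : ℕ → ℕ} {pos : ι → ℕ} {a : ℕ} {G G' : Finset ι}
    (h : Cls p pos a G) (hs : G' ⊆ G) : Cls p pos a G' := by
  cases a with
  | zero => exact (Finset.card_le_card hs).trans h
  | succ a =>
    obtain ⟨d, H, h1, h2, h3⟩ := h
    exact ⟨d, H, fun g hg => h1 g (hs hg), h2, fun g hg => h3 g (hs hg)⟩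

theorem cls_spread {ι ι' : Type} {p : ℕ → ℕ} (hp : Monotone p) {pos : ι → ℕ} {pos' : ι' → ℕ}
    {a : ℕ} {G : Finset ι} {G' : Finset ι'} (h : Cls p pos a G) (f : ι' → ι)
    (hf : ∀ x ∈ G', f x ∈ G) (hi : ∀ x ∈ G', ∀ y ∈ G', f x = f y → x = y)
    (hpos : ∀ x ∈ G', pos (f x) ≤ pos' x) : Cls p pos' a G' := by
  classical
  induction a generalizing G G' with
  | zero =>
    have h' : G.card ≤ 1 := h
    have : G'.card ≤ G.card := by
      apply Finset.card_le_card_of_injOn f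
      · intro x hx
        exact hf x hx
      · intro x hx y hy hxy
        exact hi x hx y hy hxy
    exact this.trans h'
  | succ a ih =>
    obtain ⟨d, H, h1, h2, h3⟩ := h
    refine ⟨d, fun i => G'.filter (fun x => f x ∈ H i), ?_, ?_, ?_⟩
    · intro g hg
      exact (h1 (f g) (hf g hg)).trans (hp (hpos g hg))
    · intro i hi'
      refine ih (h2 i hi') ?_ ?_ ?_
      · intro x hx
        exact (Finset.mem_filter.mp hx).2
      · intro x hx y hy hxy
        exact hi x (Finset.mem_filter.mp hx).1 y (Finset.mem_filter.mp hy).1 hxy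
      · intro x hx
        exact hpos x (Finset.mem_filter.mp hx).1
    · intro g hg
      obtain ⟨i, hi', hgi⟩ := h3 (f g) (hf g hg)
      exact ⟨i, hi', Finset.mem_filter.mpr ⟨hg, hgi⟩⟩

theorem cls_cover {ι κ : Type} {p : ℕ → ℕ} {pos : ι → ℕ} {a : ℕ} {G : Finset ι}
    (K : Finset κ) (H : κ → Finset ι) (hK : ∀ g ∈ G, K.card ≤ p (pos g))
    (hH : ∀ i ∈ K, Cls p pos a (H i)) (hG : ∀ g ∈ G, ∃ i ∈ K, g ∈ H i) :
    Cls p pos (a + 1) G := by
  classical
  refine ⟨K.card, fun n => if hn : n < K.card then H (K.equivFin.symm ⟨n, hn⟩) else ∅, hK,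
    ?_, ?_⟩
  · intro i hi
    simp only [hi, dite_true]
    exact hH _ (K.equivFin.symm ⟨i, hi⟩).2
  · intro g hg
    obtain ⟨i, hi, hgi⟩ := hG g hg
    refine ⟨(K.equivFin ⟨i, hi⟩ : ℕ), (K.equivFin ⟨i, hi⟩).2, ?_⟩
    simpa using hgi

theorem cls_succ {ι : Type} {p : ℕ → ℕ} (hp : ∀ k, 1 ≤ p k) {pos : ι → ℕ} {a : ℕ}
    {G : Finset ι} (h : Cls p pos a G) : Cls p pos (a + 1) G :=
  ⟨1, fun _ => G, fun g _ => hp _, fun _ _ => h, fun _ hg => ⟨0, Nat.zero_lt_one, hg⟩⟩

theorem cls_le {ι : Type} {p : ℕ → ℕ} (hp : ∀ k, 1 ≤ p k) {pos : ι → ℕ} {a a' : ℕ}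
    (haa : a ≤ a') {G : Finset ι} (h : Cls p pos a G) : Cls p pos a' G := by
  induction a', haa using Nat.le_induction with
  | base => exact h
  | succ n _ ih => exact cls_succ hp ih

end Pool.Agent.WH
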