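import Pool.Agent.WH.Base

/-!
Project WH (MP_a9f751_an), row WH-07: segments (helper19).
-/

set_option autoImplicit false
set_option maxHeartbeats 400000

open Filter Topology

namespace Pool.Agent.WH

variable {𝕜 : Type} [RCLike 𝕜]

section
variable (D : TD 𝕜)

theorem sg_mono {m : ℕ} {g : ℕ → D.Nd} (hg : ∀ i < m, D.par (g (i + 1)) = some (g i)) :
    ∀ j ≤ m, ∀ i < j, D.b (g i) < D.b (g j) := by
  intro j
  induction j with
  | zero => intro _ i hi; omega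
  | succ j ih =>
    intro hj i hi
    have h1 : D.b (g j) < D.b (g (j + 1)) := D.b_par _ _ (hg j (by omega))
    rcases Nat.lt_succ_iff_lt_or_eq.mp hi with h2 | h2
    · exact (ih (by omega) i h2).trans h1
    · rw [h2]
      exact h1

theorem sg_mono' {m : ℕ} {g : ℕ → D.Nd} (hg : ∀ i < m, D.par (g (i + 1)) = some (g i))
    {i j : ℕ} (hij : i ≤ j) (hj : j ≤ m) : D.b (g i) ≤ D.b (g j) := by
  rcases Nat.lt_or_eq_of_le hij with h | h
  · exact (sg_mono D hg j hj i h).le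
  · rw [h]

theorem sg_inj {m : ℕ} {g : ℕ → D.Nd} (hg : ∀ i < m, D.par (g (i + 1)) = some (g i))
    {i j : ℕ} (hi : i ≤ m) (hj : j ≤ m) (h : D.b (g i) = D.b (g j)) : i = j := by
  rcases Nat.lt_trichotomy i j with h1 | h1 | h1
  · exact absurd h (sg_mono D hg j hj i h1).ne
  · exact h1
  · exact absurd h.symm (sg_mono D hg i hi j h1).ne

/-- a root of a segment is the first node of the enumeration -/
theorem sg_root {S : Finset D.Nd} {m : ℕ} {g : ℕ → D.Nd}
    (hg : ∀ i < m, D.par (g (i + 1)) = some (g i)) (hS : ∀ t, t ∈ S ↔ ∃ i ≤ m, g i = t)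
    {f : D.Nd} (hf : f ∈ S) (hn : ∀ t', D.par f = some t' → t' ∉ S) : f = g 0 := by
  obtain ⟨i, hi, rfl⟩ := (hS f).mp hf
  rcases i with _ | i
  · rfl
  · exact absurd ((hS (g i)).mpr ⟨i, by omega, rfl⟩) (hn _ (hg i (by omega)))

/-- the parent of a member of a segment -/
theorem sg_par {S : Finset D.Nd} {m : ℕ} {g : ℕ → D.Nd}
    (hg : ∀ i < m, D.par (g (i + 1)) = some (g i)) (hS : ∀ t, t ∈ S ↔ ∃ i ≤ m, g i = t)
    {i : ℕ} (hi : i ≤ m) {t' : D.Nd} (hp : D.par (g i) = some t') (ht' : t' ∈ S) :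
    ∃ j, i = j + 1 ∧ t' = g j := by
  rcases i with _ | i
  · obtain ⟨j, hj, rfl⟩ := (hS t').mp ht'
    have h1 := D.b_par _ _ hp
    have h2 := sg_mono' D hg (Nat.zero_le j) hj
    omega
  · refine ⟨i, rfl, ?_⟩
    rw [hg i (by omega)] at hp
    exact (Option.some.inj hp).symm

/-- segments are convex in the parent order -/
theorem sg_convex {S : Finset D.Nd} (h : D.IsSeg S) {m' : ℕ} {g' : ℕ → D.Nd}
    (hg' : ∀ i < m', D.par (g' (i + 1)) = some (g' i)) {a c : ℕ} (hc : c ≤ m')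
    (ha : g' a ∈ S) (hcS : g' c ∈ S) : ∀ n, ∀ j, a ≤ j → j + n = c → g' j ∈ S := by
  obtain ⟨m, g, hg, hS⟩ := h
  intro n
  induction n with
  | zero =>
    intro j _ hj
    rw [Nat.add_zero] at hj
    rw [hj]
    exact hcS
  | succ n ih =>
    intro j haj hj
    have h1 := ih (j + 1) (by omega) (by omega)
    obtain ⟨i, hi, hgi⟩ := (hS _).mp h1
    rcases i with _ | i
    · exfalso
      obtain ⟨l, hl, hla⟩ := (hS _).mp ha
      have h2 : D.b (g' j) < D.b (g' (j + 1)) := D.b_par _ _ (hg' j (by omega))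
      have h3 := sg_mono' D hg' haj (by omega : j ≤ m')
      have h4 := sg_mono' D hg (Nat.zero_le l) hl
      rw [hgi, hla] at h4
      omega
    · have h2 := hg i (by omega)
      rw [hgi, hg' j (by omega)] at h2
      exact (hS _).mpr ⟨i, by omega, (Option.some.inj h2).symm⟩

theorem seg_nonempty {S : Finset D.Nd} (h : D.IsSeg S) : S.Nonempty := by
  obtain ⟨m, g, hg, hS⟩ := h
  exact ⟨g 0, (hS _).mpr ⟨0, Nat.zero_le _, rfl⟩⟩

theorem seg_singleton (t : D.Nd) : D.IsSeg {t} := by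
  refine ⟨0, fun _ => t, fun i hi => absurd hi (Nat.not_lt_zero i), fun t' => ?_⟩
  rw [Finset.mem_singleton]
  constructor
  · intro h
    exact ⟨0, le_rfl, h.symm⟩
  · rintro ⟨i, _, h⟩
    exact h.symm

theorem posS_le {S : Finset D.Nd} {t : D.Nd} (h : t ∈ S) : D.posS S ≤ D.b t :=
  Nat.sInf_le ⟨t, h, rfl⟩

/-- the first node -/
theorem seg_first {S : Finset D.Nd} (h : D.IsSeg S) :
    ∃ f ∈ S, D.b f = D.posS S ∧ (∀ t', D.par f = some t' → t' ∉ S) ∧
      ∀ t ∈ S, t ≠ f → ∃ t' ∈ S, D.par t = some t' := by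
  obtain ⟨m, g, hg, hS⟩ := h
  have h0 : g 0 ∈ S := (hS _).mpr ⟨0, Nat.zero_le _, rfl⟩
  refine ⟨g 0, h0, ?_, ?_, ?_⟩
  · apply le_antisymm _ (posS_le D h0)
    have hne : (D.b '' (S : Set D.Nd)).Nonempty := ⟨_, g 0, h0, rfl⟩
    obtain ⟨t, ht, htb⟩ := Nat.sInf_mem hne
    obtain ⟨i, hi, rfl⟩ := (hS t).mp ht
    have h1 := sg_mono' D hg (Nat.zero_le i) hi
    exact h1.trans htb.le
  · intro t' hp ht'
    obtain ⟨j, hj, rfl⟩ := (hS t').mp ht'
    have h1 := D.b_par _ _ hp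
    have h2 := sg_mono' D hg (Nat.zero_le j) hj
    omega
  · intro t ht hne
    obtain ⟨i, hi, rfl⟩ := (hS t).mp ht
    rcases i with _ | i
    · exact absurd rfl hne
    · exact ⟨g i, (hS _).mpr ⟨i, by omega, rfl⟩, hg i (by omega)⟩

theorem sg_of_local (n : ℕ) : ∀ S : Finset D.Nd, S.card = n + 1 →
    (∀ t₁ ∈ S, ∀ t₂ ∈ S, (∀ t', D.par t₁ = some t' → t' ∉ S) →
      (∀ t', D.par t₂ = some t' → t' ∉ S) → t₁ = t₂) →
    (∀ t₁ ∈ S, ∀ t₂ ∈ S, ∀ t' ∈ S, D.par t₁ = some t' → D.par t₂ = some t' → t₁ = t₂) →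
    D.IsSeg S := by
  classical
  induction n with
  | zero =>
    intro S hS _ _
    obtain ⟨t, rfl⟩ := Finset.card_eq_one.mp hS
    exact seg_singleton D t
  | succ n ih =>
    intro S hcard h1 h2
    have hne : S.Nonempty := by
      rw [← Finset.card_pos]
      omega
    obtain ⟨t, ht, hmax⟩ := Finset.exists_max_image S D.b hne
    have hpar : ∀ x ∈ S, D.par x ≠ some t := by
      intro x hx hp
      have h3 := D.b_par _ _ hp
      have h4 := hmax x hx
      omega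
    have hroot : ∀ x ∈ S.erase t, (∀ t', D.par x = some t' → t' ∉ S.erase t) →
        ∀ t', D.par x = some t' → t' ∉ S := by
      intro x hx hn t' hp ht'
      apply hn t' hp
      refine Finset.mem_erase.mpr ⟨?_, ht'⟩
      rintro rfl
      exact hpar x (Finset.mem_of_mem_erase hx) hp
    obtain ⟨m, g, hg, hS'⟩ := ih (S.erase t) (by rw [Finset.card_erase_of_mem ht]; omega)
      (fun t₁ h₁ t₂ h₂ hn₁ hn₂ => h1 t₁ (Finset.mem_of_mem_erase h₁) t₂
        (Finset.mem_of_mem_erase h₂) (hroot t₁ h₁ hn₁) (hroot t₂ h₂ hn₂))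
      (fun t₁ h₁ t₂ h₂ t' h₃ => h2 t₁ (Finset.mem_of_mem_erase h₁) t₂
        (Finset.mem_of_mem_erase h₂) t' (Finset.mem_of_mem_erase h₃))
    have hmem : ∀ i ≤ m, g i ∈ S ∧ g i ≠ t := by
      intro i hi
      have h3 : g i ∈ S.erase t := (hS' _).mpr ⟨i, hi, rfl⟩
      exact ⟨Finset.mem_of_mem_erase h3, (Finset.mem_erase.mp h3).1⟩
    have hg0 : ∀ t', D.par (g 0) = some t' → t' ∉ S := by
      apply hroot (g 0) ((hS' _).mpr ⟨0, Nat.zero_le _, rfl⟩)
      intro t' hp ht'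
      obtain ⟨j, hj, rfl⟩ := (hS' t').mp ht'
      have h3 := D.b_par _ _ hp
      have h4 := sg_mono' D hg (Nat.zero_le j) hj
      omega
    have hex : ∃ t' ∈ S, D.par t = some t' := by
      by_contra hc
      push Not at hc
      have h3 := h1 t ht (g 0) (hmem 0 (Nat.zero_le _)).1 (fun t' hp ht' => hc t' ht' hp) hg0
      exact (hmem 0 (Nat.zero_le _)).2 h3.symm
    obtain ⟨t', ht', hp⟩ := hex
    have ht'' : t' ∈ S.erase t := by
      refine Finset.mem_erase.mpr ⟨?_, ht'⟩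
      rintro rfl
      exact hpar _ ht hp
    obtain ⟨j, hj, rfl⟩ := (hS' t').mp ht''
    have hjm : j = m := by
      by_contra hne
      have h3 := h2 (g (j + 1)) (hmem (j + 1) (by omega)).1 t ht (g j) ht' (hg j (by omega)) hp
      exact (hmem (j + 1) (by omega)).2 h3
    subst hjm
    refine ⟨j + 1, fun i => if i ≤ j then g i else t, ?_, ?_⟩
    · intro i hi
      rcases Nat.lt_succ_iff_lt_or_eq.mp hi with h3 | h3
      · simp only [if_pos (by omega : i + 1 ≤ j), if_pos (by omega : i ≤ j)]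
        exact hg i h3
      · subst h3
        simp only [if_neg (by omega : ¬ i + 1 ≤ i), if_pos (le_refl i)]
        exact hp
    · intro x
      constructor
      · intro hx
        by_cases hxt : x = t
        · exact ⟨j + 1, le_rfl, by simp only [if_neg (by omega : ¬ j + 1 ≤ j)]; exact hxt.symm⟩
        · obtain ⟨i, hi, hgi⟩ := (hS' x).mp (Finset.mem_erase.mpr ⟨hxt, hx⟩)
          exact ⟨i, by omega, by simp only [if_pos hi]; exact hgi⟩
      · rintro ⟨i, hi, hgi⟩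
        by_cases hij : i ≤ j
        · simp only [if_pos hij] at hgi
          rw [← hgi]
          exact (hmem i hij).1
        · simp only [if_neg hij] at hgi
          rw [← hgi]
          exact ht

theorem seg_of_local {S : Finset D.Nd} (hS : S.Nonempty)
    (h1 : ∀ t₁ ∈ S, ∀ t₂ ∈ S, (∀ t', D.par t₁ = some t' → t' ∉ S) →
      (∀ t', D.par t₂ = some t' → t' ∉ S) → t₁ = t₂)
    (h2 : ∀ t₁ ∈ S, ∀ t₂ ∈ S, ∀ t' ∈ S, D.par t₁ = some t' → D.par t₂ = some t' → t₁ = t₂) :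
    D.IsSeg S := by
  have h3 := Finset.card_pos.mpr hS
  exact sg_of_local D (S.card - 1) S (by omega) h1 h2

/-- in a segment different nodes have different blocks -/
theorem seg_b_inj {S : Finset D.Nd} (h : D.IsSeg S) {t₁ t₂ : D.Nd} (h₁ : t₁ ∈ S) (h₂ : t₂ ∈ S)
    (hb : D.b t₁ = D.b t₂) : t₁ = t₂ := by
  obtain ⟨m, g, hg, hS⟩ := h
  obtain ⟨i, hi, rfl⟩ := (hS _).mp h₁
  obtain ⟨j, hj, rfl⟩ := (hS _).mp h₂
  rw [sg_inj D hg hi hj hb]

theorem seg_child_unique {S : Finset D.Nd} (h : D.IsSeg S) {t₁ t₂ t' : D.Nd} (h₁ : t₁ ∈ S)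
    (h₂ : t₂ ∈ S) (hp₁ : D.par t₁ = some t') (hp₂ : D.par t₂ = some t') : t₁ = t₂ := by
  obtain ⟨m, g, hg, hS⟩ := h
  obtain ⟨i, hi, rfl⟩ := (hS _).mp h₁
  obtain ⟨j, hj, rfl⟩ := (hS _).mp h₂
  rcases i with _ | i
  · rcases j with _ | j
    · rfl
    · rw [hg j (by omega)] at hp₂
      have h3 := D.b_par _ _ hp₁
      have h4 := sg_mono' D hg (Nat.zero_le j) (by omega : j ≤ m)
      rw [Option.some.inj hp₂] at h4
      omega
  · have h5 : g i = t' := by
      rw [hg i (by omega)] at hp₁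
      exact Option.some.inj hp₁
    obtain ⟨j', hj', hgj⟩ := sg_par D hg hS hj hp₂
      (h5 ▸ (hS _).mpr ⟨i, by omega, rfl⟩)
    have h6 : i = j' := sg_inj D hg (by omega) (by omega) (by rw [h5, hgj])
    rw [h6, hj']

/-- at most one node of `S'` leaves `S` -/
theorem seg_exit_unique {S S' : Finset D.Nd} (h : D.IsSeg S) (h' : D.IsSeg S')
    {t₁ t₂ u₁ u₂ : D.Nd} (h₁ : t₁ ∈ S') (h₂ : t₂ ∈ S') (hu₁ : u₁ ∈ S') (hu₂ : u₂ ∈ S')
    (hp₁ : D.par t₁ = some u₁) (hp₂ : D.par t₂ = some u₂) (k₁ : u₁ ∈ S) (k₂ : u₂ ∈ S)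
    (n₁ : t₁ ∉ S) (n₂ : t₂ ∉ S) : t₁ = t₂ := by
  obtain ⟨m, g, hg, hS⟩ := h'
  obtain ⟨i₁, hi₁, rfl⟩ := (hS _).mp h₁
  obtain ⟨i₂, hi₂, rfl⟩ := (hS _).mp h₂
  obtain ⟨j₁, rfl, rfl⟩ := sg_par D hg hS hi₁ hp₁ hu₁
  obtain ⟨j₂, rfl, rfl⟩ := sg_par D hg hS hi₂ hp₂ hu₂
  rcases Nat.lt_trichotomy j₁ j₂ with hlt | heq | hlt
  · exact absurd (sg_convex D h hg (by omega : j₂ ≤ m) k₁ k₂ (j₂ - (j₁ + 1)) (j₁ + 1)
      (by omega) (by omega)) n₁
  · rw [heq]
  · exact absurd (sg_convex D h hg (by omega : j₁ ≤ m) k₂ k₁ (j₁ - (j₂ + 1)) (j₂ + 1)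
      (by omega) (by omega)) n₂

/-- if two segments meet, the first node of one of them is in the other -/
theorem seg_first_mem {S S' : Finset D.Nd} (h : D.IsSeg S) (h' : D.IsSeg S') {t : D.Nd}
    (ht : t ∈ S) (ht' : t ∈ S') {f f' : D.Nd} (hf : f ∈ S) (hf' : f' ∈ S')
    (hn : ∀ t', D.par f = some t' → t' ∉ S) (hn' : ∀ t', D.par f' = some t' → t' ∉ S') :
    f ∈ S' ∨ f' ∈ S := by
  obtain ⟨m, g, hg, hS⟩ := h
  obtain ⟨m', g', hg', hS'⟩ := h'
  have e1 : f = g 0 := sg_root D hg hS hf hn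
  have e2 : f' = g' 0 := sg_root D hg' hS' hf' hn'
  obtain ⟨i, hi, hgi⟩ := (hS _).mp ht
  obtain ⟨j, hj, hgj⟩ := (hS' _).mp ht'
  have key : ∀ n, ∀ i j, i ≤ n → i ≤ m → j ≤ m' → g i = g' j → g 0 ∈ S' ∨ g' 0 ∈ S := by
    intro n
    induction n with
    | zero =>
      intro i j hin him hjm hij
      left
      have : i = 0 := by omega
      subst this
      rw [hij]
      exact (hS' _).mpr ⟨j, hjm, rfl⟩
    | succ n ih =>
      intro i j hin him hjm hij
      rcases i with _ | i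
      · left
        rw [hij]
        exact (hS' _).mpr ⟨j, hjm, rfl⟩
      · rcases j with _ | j
        · right
          rw [← hij]
          exact (hS _).mpr ⟨i + 1, him, rfl⟩
        · apply ih i j (by omega) (by omega) (by omega)
          have h1 := hg i (by omega)
          rw [hij, hg' j (by omega)] at h1
          exact (Option.some.inj h1).symm
  rw [e1, e2]
  exact key i i j le_rfl hi hj (hgi.trans hgj.symm)

theorem seg_ge [DecidableEq D.Nd] {S : Finset D.Nd} (h : D.IsSeg S) (k : ℕ)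
    (hn : (S.filter (fun t => k ≤ D.b t)).Nonempty) :
    D.IsSeg (S.filter (fun t => k ≤ D.b t)) := by
  have hseg := h
  obtain ⟨m, g, hg, hS⟩ := h
  have key : ∀ i j, i < j → j ≤ m → k ≤ D.b (g i) →
      ¬ ∀ t', D.par (g j) = some t' → t' ∉ S.filter (fun t => k ≤ D.b t) := by
    intro i j hij hj hk hroot
    obtain ⟨j', rfl⟩ : ∃ j', j = j' + 1 := ⟨j - 1, by omega⟩
    apply hroot _ (hg j' (by omega))
    rw [Finset.mem_filter]
    exact ⟨(hS _).mpr ⟨j', by omega, rfl⟩,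
      hk.trans (sg_mono' D hg (by omega : i ≤ j') (by omega))⟩
  refine seg_of_local D hn ?_ ?_
  · intro t₁ h₁ t₂ h₂ r₁ r₂
    obtain ⟨a₁, b₁⟩ := Finset.mem_filter.mp h₁
    obtain ⟨a₂, b₂⟩ := Finset.mem_filter.mp h₂
    obtain ⟨i, hi, rfl⟩ := (hS _).mp a₁
    obtain ⟨j, hj, rfl⟩ := (hS _).mp a₂
    rcases Nat.lt_trichotomy i j with hlt | heq | hlt
    · exact absurd r₂ (key i j hlt hj b₁)
    · rw [heq]
    · exact absurd r₁ (key j i hlt hi b₂)
  · intro t₁ h₁ t₂ h₂ t' _ p₁ p₂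
    exact seg_child_unique D hseg (Finset.mem_of_mem_filter _ h₁)
      (Finset.mem_of_mem_filter _ h₂) p₁ p₂

theorem seg_lt [DecidableEq D.Nd] {S : Finset D.Nd} (h : D.IsSeg S) (k : ℕ)
    (hn : (S.filter (fun t => D.b t < k)).Nonempty) :
    D.IsSeg (S.filter (fun t => D.b t < k)) := by
  have hseg := h
  obtain ⟨m, g, hg, hS⟩ := h
  have key : ∀ t ∈ S.filter (fun t => D.b t < k),
      (∀ t', D.par t = some t' → t' ∉ S.filter (fun t => D.b t < k)) → t = g 0 := by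
    intro t ht hroot
    obtain ⟨h1, h2⟩ := Finset.mem_filter.mp ht
    obtain ⟨i, hi, rfl⟩ := (hS _).mp h1
    rcases i with _ | i
    · rfl
    · exfalso
      apply hroot _ (hg i (by omega))
      rw [Finset.mem_filter]
      exact ⟨(hS _).mpr ⟨i, by omega, rfl⟩, (D.b_par _ _ (hg i (by omega))).trans h2⟩
  refine seg_of_local D hn ?_ ?_
  · intro t₁ h₁ t₂ h₂ r₁ r₂
    rw [key t₁ h₁ r₁, key t₂ h₂ r₂]
  · intro t₁ h₁ t₂ h₂ t' _ p₁ p₂
    exact seg_child_unique D hseg (Finset.mem_of_mem_filter _ h₁)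
      (Finset.mem_of_mem_filter _ h₂) p₁ p₂

theorem seg_erase [DecidableEq D.Nd] {S : Finset D.Nd} (h : D.IsSeg S) {f : D.Nd} (hf : f ∈ S)
    (hn : ∀ t', D.par f = some t' → t' ∉ S) (hne : (S.erase f).Nonempty) :
    D.IsSeg (S.erase f) := by
  have hseg := h
  obtain ⟨m, g, hg, hS⟩ := h
  have hf0 : f = g 0 := sg_root D hg hS hf hn
  have key : ∀ t ∈ S.erase f, (∀ t', D.par t = some t' → t' ∉ S.erase f) → t = g 1 := by
    intro t ht hroot
    obtain ⟨h1, h2⟩ := Finset.mem_erase.mp ht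
    obtain ⟨i, hi, rfl⟩ := (hS _).mp h2
    rcases i with _ | _ | i
    · exact absurd hf0.symm h1
    · rfl
    · exfalso
      apply hroot _ (hg (i + 1) (by omega))
      refine Finset.mem_erase.mpr ⟨?_, (hS _).mpr ⟨i + 1, by omega, rfl⟩⟩
      intro heq
      rw [hf0] at heq
      have := sg_inj D hg (by omega : i + 1 ≤ m) (Nat.zero_le m) (by rw [heq])
      omega
  refine seg_of_local D hne ?_ ?_
  · intro t₁ h₁ t₂ h₂ r₁ r₂
    rw [key t₁ h₁ r₁, key t₂ h₂ r₂]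
  · intro t₁ h₁ t₂ h₂ t' _ p₁ p₂
    exact seg_child_unique D hseg (Finset.mem_of_mem_erase h₁)
      (Finset.mem_of_mem_erase h₂) p₁ p₂

end

end Pool.Agent.WH
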