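import Pool.Agent.WH.Base

/-!
Project WH (MP_a9f751_an), row WH-06: Bessel inequality for almost orthogonal unit vectors.
-/

set_option autoImplicit false

open Filter Topology

namespace Pool.Agent.WH

variable {𝕜 : Type} [RCLike 𝕜]

private theorem bessel_aux {E ι : Type} [NormedAddCommGroup E] [InnerProductSpace 𝕜 E]
    (A : Finset ι) (v : ι → E) (μ : ℝ) (hμ : 0 ≤ μ) (h1 : ∀ i ∈ A, ‖v i‖ = 1)
    (h2 : ∀ i ∈ A, ∀ j ∈ A, i ≠ j → ‖(inner 𝕜 (v i) (v j) : 𝕜)‖ ≤ μ) (c : ι → 𝕜) :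
    ‖∑ i ∈ A, c i • v i‖ ^ 2 ≤ (1 + A.card * μ) * ∑ i ∈ A, ‖c i‖ ^ 2 := by
  classical
  have e1 : ‖∑ i ∈ A, c i • v i‖ ^ 2 =
      RCLike.re (inner 𝕜 (∑ i ∈ A, c i • v i) (∑ i ∈ A, c i • v i) : 𝕜) :=
    (inner_self_eq_norm_sq (𝕜 := 𝕜) _).symm
  have e2 : ∀ i ∈ A, RCLike.re (inner 𝕜 (c i • v i) (∑ j ∈ A, c j • v j) : 𝕜) ≤
      ‖c i‖ ^ 2 + μ * ‖c i‖ * ∑ j ∈ A, ‖c j‖ := by
    intro i hi
    rw [inner_sum, map_sum]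
    calc ∑ j ∈ A, RCLike.re (inner 𝕜 (c i • v i) (c j • v j) : 𝕜)
        ≤ ∑ j ∈ A, ((if i = j then ‖c i‖ ^ 2 else 0) + μ * ‖c i‖ * ‖c j‖) := by
          apply Finset.sum_le_sum
          intro j hj
          refine (RCLike.re_le_norm _).trans ?_
          rw [inner_smul_left, inner_smul_right, norm_mul, norm_mul, RCLike.norm_conj]
          split_ifs with hij
          · subst hij
            have h3 : ‖(inner 𝕜 (v i) (v i) : 𝕜)‖ = 1 := by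
              rw [inner_self_eq_norm_sq_to_K, h1 i hi]; simp
            rw [h3]
            have h4 : 0 ≤ μ * ‖c i‖ * ‖c i‖ := by positivity
            nlinarith
          · have h3 := h2 i hi j hj hij
            have h4 : 0 ≤ ‖c i‖ * ‖c j‖ := by positivity
            have h5 := mul_le_mul_of_nonneg_left h3 h4
            nlinarith
      _ = ‖c i‖ ^ 2 + μ * ‖c i‖ * ∑ j ∈ A, ‖c j‖ := by
          rw [Finset.sum_add_distrib, Finset.sum_ite_eq, if_pos hi, Finset.mul_sum]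
  have e3 := sq_sum_le_card_mul_sum_sq (s := A) (f := fun i => ‖c i‖)
  rw [e1, sum_inner, map_sum]
  calc ∑ i ∈ A, RCLike.re (inner 𝕜 (c i • v i) (∑ j ∈ A, c j • v j) : 𝕜)
      ≤ ∑ i ∈ A, (‖c i‖ ^ 2 + μ * ‖c i‖ * ∑ j ∈ A, ‖c j‖) := Finset.sum_le_sum e2
    _ = ∑ i ∈ A, ‖c i‖ ^ 2 + μ * (∑ i ∈ A, ‖c i‖) ^ 2 := by
        rw [Finset.sum_add_distrib, ← Finset.sum_mul, ← Finset.mul_sum]
        ring
    _ ≤ ∑ i ∈ A, ‖c i‖ ^ 2 + μ * (A.card * ∑ i ∈ A, ‖c i‖ ^ 2) := by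
        have := mul_le_mul_of_nonneg_left e3 hμ
        linarith
    _ = (1 + A.card * μ) * ∑ i ∈ A, ‖c i‖ ^ 2 := by ring

theorem bessel {E ι : Type} [NormedAddCommGroup E] [InnerProductSpace 𝕜 E] (A : Finset ι)
    (v : ι → E) (μ : ℝ) (hμ : 0 ≤ μ) (h1 : ∀ i ∈ A, ‖v i‖ = 1)
    (h2 : ∀ i ∈ A, ∀ j ∈ A, i ≠ j → ‖(inner 𝕜 (v i) (v j) : 𝕜)‖ ≤ μ) (x : E) :
    ∑ i ∈ A, ‖(inner 𝕜 (v i) x : 𝕜)‖ ^ 2 ≤ (1 + A.card * μ) * ‖x‖ ^ 2 := by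
  set c : ι → 𝕜 := fun i => inner 𝕜 (v i) x with hc
  set y : E := ∑ i ∈ A, c i • v i with hy
  have h3 : RCLike.re (inner 𝕜 y x : 𝕜) = ∑ i ∈ A, ‖c i‖ ^ 2 := by
    rw [hy, sum_inner, map_sum]
    apply Finset.sum_congr rfl
    intro i _
    rw [inner_smul_left]
    change RCLike.re ((starRingEnd 𝕜) (c i) * c i) = _
    rw [RCLike.conj_mul, ← RCLike.ofReal_pow, RCLike.ofReal_re]
  have h4 : ∑ i ∈ A, ‖c i‖ ^ 2 ≤ ‖y‖ * ‖x‖ := by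
    rw [← h3]
    exact (RCLike.re_le_norm _).trans (norm_inner_le_norm y x)
  have h5 : ‖y‖ ^ 2 ≤ (1 + A.card * μ) * ∑ i ∈ A, ‖c i‖ ^ 2 := bessel_aux A v μ hμ h1 h2 c
  have h6 : 0 ≤ ∑ i ∈ A, ‖c i‖ ^ 2 := Finset.sum_nonneg fun i _ => by positivity
  change ∑ i ∈ A, ‖c i‖ ^ 2 ≤ _
  have h8 : 0 ≤ (1 + (A.card : ℝ) * μ) * ‖x‖ ^ 2 := by positivity
  rcases h6.eq_or_lt with h7 | h7
  · rw [← h7]; exact h8
  · have h9 : (∑ i ∈ A, ‖c i‖ ^ 2) * (∑ i ∈ A, ‖c i‖ ^ 2) ≤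
        ((1 + A.card * μ) * ‖x‖ ^ 2) * ∑ i ∈ A, ‖c i‖ ^ 2 := by
      calc (∑ i ∈ A, ‖c i‖ ^ 2) * (∑ i ∈ A, ‖c i‖ ^ 2) ≤ (‖y‖ * ‖x‖) * (‖y‖ * ‖x‖) :=
            mul_le_mul h4 h4 h6 (by positivity)
        _ = ‖y‖ ^ 2 * ‖x‖ ^ 2 := by ring
        _ ≤ ((1 + A.card * μ) * ∑ i ∈ A, ‖c i‖ ^ 2) * ‖x‖ ^ 2 :=
            mul_le_mul_of_nonneg_right h5 (by positivity)
        _ = _ := by ring
    exact le_of_mul_le_mul_right h9 h7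

theorem coef_sum_le (D : TD 𝕜) (k : ℕ) (A : Finset D.Nd) (hA : ∀ t ∈ A, D.b t = k)
    (hc : A.card ≤ D.nu k + 1) (x : D.V) : ∑ t ∈ A, ‖D.coef t x‖ ^ 2 ≤ 2 * ‖x k‖ ^ 2 := by
  have h1 : ∀ t ∈ A, ‖D.vec t k‖ = 1 := by
    intro t ht
    rw [← hA t ht]
    exact D.norm_vec t
  have h2 : ∀ t ∈ A, ∀ t' ∈ A, t ≠ t' → ‖(inner 𝕜 (D.vec t k) (D.vec t' k) : 𝕜)‖ ≤ D.mu k := by
    intro t ht t' ht' hne
    have h := D.inner_vec t t' hne ((hA t ht).trans (hA t' ht').symm)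
    rw [hA t ht] at h
    exact h
  have h3 := bessel (𝕜 := 𝕜) A (fun t => D.vec t k) (D.mu k) (D.mu_nonneg k) h1 h2 (x k)
  have h4 : ∑ t ∈ A, ‖D.coef t x‖ ^ 2 = ∑ t ∈ A, ‖(inner 𝕜 (D.vec t k) (x k) : 𝕜)‖ ^ 2 := by
    apply Finset.sum_congr rfl
    intro t ht
    have : D.coef t x = inner 𝕜 (D.vec t k) (x k) := by
      unfold TD.coef
      rw [hA t ht]
    rw [this]
  rw [h4]
  refine h3.trans ?_
  have h5 : (A.card : ℝ) * D.mu k ≤ 1 := by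
    have h6 : (A.card : ℝ) ≤ (D.nu k : ℝ) + 1 := by exact_mod_cast hc
    calc (A.card : ℝ) * D.mu k ≤ ((D.nu k : ℝ) + 1) * D.mu k :=
          mul_le_mul_of_nonneg_right h6 (D.mu_nonneg k)
      _ ≤ (1 / 2) ^ k := D.mu_le k
      _ ≤ 1 := pow_le_one₀ (by norm_num) (by norm_num)
  have h6 : 0 ≤ ‖x k‖ ^ 2 := by positivity
  nlinarith

end Pool.Agent.WH
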