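import Pool.Agent.WH.Base

/-!
Project WH (MP_a9f751_an), WH-08: elementary estimates for the forms `qS` and `q`.
-/

set_option autoImplicit false

open Filter Topology

namespace Pool.Agent.WH

variable {𝕜 : Type} [RCLike 𝕜]

section

variable (D : TD 𝕜)

theorem qS_nonneg (S : Finset D.Nd) (x : D.V) : 0 ≤ D.qS S x := by
  unfold TD.qS
  exact div_nonneg (sq_nonneg _) (Finset.sum_nonneg fun t _ => sq_nonneg _)

theorem q_nonneg (B : Finset ℕ) (SS : Finset (Finset D.Nd)) (x : D.V) : 0 ≤ D.q B SS x := by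
  unfold TD.q
  exact add_nonneg (Finset.sum_nonneg fun k _ => sq_nonneg _)
    (Finset.sum_nonneg fun S _ => qS_nonneg D S x)

/-- the weights of a nonempty set are positive -/
private theorem wh08_pos {S : Finset D.Nd} (hS : S.Nonempty) : 0 < ∑ t ∈ S, D.al t ^ 2 :=
  Finset.sum_pos (fun t _ => pow_pos (D.al_pos t) 2) hS

private theorem wh08_empty (x : D.V) : D.qS ∅ x = 0 := by
  simp [TD.qS]

theorem qS_le_sum (S : Finset D.Nd) (x : D.V) : D.qS S x ≤ ∑ t ∈ S, ‖D.coef t x‖ ^ 2 := by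
  have h1 : ‖∑ t ∈ S, (D.al t : 𝕜) * D.coef t x‖ ^ 2 ≤
      (∑ t ∈ S, D.al t * ‖D.coef t x‖) ^ 2 := by
    refine pow_le_pow_left₀ (norm_nonneg _) ?_ 2
    refine (norm_sum_le _ _).trans (le_of_eq (Finset.sum_congr rfl fun t _ => ?_))
    rw [norm_mul, RCLike.norm_ofReal, abs_of_pos (D.al_pos t)]
  have h2 := Finset.sq_sum_div_le_sum_sq_div S (fun t => D.al t * ‖D.coef t x‖)
    (g := fun t => D.al t ^ 2) (fun t _ => pow_pos (D.al_pos t) 2)
  have h3 : ∀ t ∈ S, (D.al t * ‖D.coef t x‖) ^ 2 / D.al t ^ 2 = ‖D.coef t x‖ ^ 2 := by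
    intro t _
    have := (D.al_pos t).ne'
    field_simp
  unfold TD.qS
  refine (div_le_div_of_nonneg_right h1 (Finset.sum_nonneg fun t _ => sq_nonneg _)).trans
    (h2.trans (le_of_eq (Finset.sum_congr rfl h3)))

theorem qS_partition [DecidableEq D.Nd] (S : Finset D.Nd) {κ : Type} (K : Finset κ)
    (R : κ → Finset D.Nd) (hd : ∀ i ∈ K, ∀ j ∈ K, i ≠ j → Disjoint (R i) (R j))
    (hS : S = K.biUnion R) (x : D.V) : D.qS S x ≤ ∑ i ∈ K, D.qS (R i) x := by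
  classical
  set K' := K.filter (fun i => (R i).Nonempty) with hK'
  have hsub : K' ⊆ K := Finset.filter_subset _ _
  have hS' : S = K'.biUnion R := by
    rw [hS]
    ext t
    simp only [Finset.mem_biUnion, hK', Finset.mem_filter]
    constructor
    · rintro ⟨i, hi, ht⟩
      exact ⟨i, ⟨hi, ⟨t, ht⟩⟩, ht⟩
    · rintro ⟨i, ⟨hi, -⟩, ht⟩
      exact ⟨i, hi, ht⟩
  have hd' : (K' : Set κ).PairwiseDisjoint R := fun i hi j hj hij =>
    hd i (hsub hi) j (hsub hj) hij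
  have hnum : ∑ t ∈ S, (D.al t : 𝕜) * D.coef t x =
      ∑ i ∈ K', ∑ t ∈ R i, (D.al t : 𝕜) * D.coef t x := by
    rw [hS', Finset.sum_biUnion hd']
  have hden : ∑ t ∈ S, D.al t ^ 2 = ∑ i ∈ K', ∑ t ∈ R i, D.al t ^ 2 := by
    rw [hS', Finset.sum_biUnion hd']
  have h1 : ‖∑ t ∈ S, (D.al t : 𝕜) * D.coef t x‖ ^ 2 ≤
      (∑ i ∈ K', ‖∑ t ∈ R i, (D.al t : 𝕜) * D.coef t x‖) ^ 2 := by
    rw [hnum]
    exact pow_le_pow_left₀ (norm_nonneg _) (norm_sum_le _ _) 2
  have h2 := Finset.sq_sum_div_le_sum_sq_div K'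
    (fun i => ‖∑ t ∈ R i, (D.al t : 𝕜) * D.coef t x‖) (g := fun i => ∑ t ∈ R i, D.al t ^ 2)
    (fun i hi => wh08_pos D (Finset.mem_filter.1 hi).2)
  calc D.qS S x ≤ (∑ i ∈ K', ‖∑ t ∈ R i, (D.al t : 𝕜) * D.coef t x‖) ^ 2 /
        ∑ t ∈ S, D.al t ^ 2 :=
        div_le_div_of_nonneg_right h1 (Finset.sum_nonneg fun t _ => sq_nonneg _)
    _ ≤ ∑ i ∈ K', D.qS (R i) x := by
        rw [hden]
        exact h2
    _ ≤ ∑ i ∈ K, D.qS (R i) x :=
        Finset.sum_le_sum_of_subset_of_nonneg hsub fun i _ _ => qS_nonneg D (R i) x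

/-- if the coefficients outside `S'` vanish -/
theorem qS_le_of_coef_zero {S S' : Finset D.Nd} (hs : S' ⊆ S) (x : D.V)
    (h0 : ∀ t ∈ S, t ∉ S' → D.coef t x = 0) : D.qS S x ≤ D.qS S' x := by
  have hnum : ∑ t ∈ S, (D.al t : 𝕜) * D.coef t x = ∑ t ∈ S', (D.al t : 𝕜) * D.coef t x := by
    symm
    refine Finset.sum_subset hs fun t ht ht' => ?_
    rw [h0 t ht ht', mul_zero]
  rcases S'.eq_empty_or_nonempty with he | hne
  · have : D.qS S x = 0 := by
      unfold TD.qS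
      rw [hnum, he]
      simp
    rw [this]
    exact qS_nonneg D S' x
  · unfold TD.qS
    rw [hnum]
    exact div_le_div_of_nonneg_left (sq_nonneg _) (wh08_pos D hne)
      (Finset.sum_le_sum_of_subset_of_nonneg hs fun t _ _ => sq_nonneg _)

theorem qS_congr (S : Finset D.Nd) {x y : D.V} (h : ∀ t ∈ S, D.coef t x = D.coef t y) :
    D.qS S x = D.qS S y := by
  unfold TD.qS
  rw [Finset.sum_congr rfl fun t ht => by rw [h t ht]]

end

end Pool.Agent.WH
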