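import Pool.Agent.WH.Base
import Pool.Agent.WH.Bessel
import Pool.Agent.WH.Seg
import Pool.Agent.WH.Refine

/-!
Project WH (MP_a9f751_an), row WH-11: upper bounds for the forms, simple forms.
-/

set_option autoImplicit false

open Filter Topology

namespace Pool.Agent.WH

variable {𝕜 : Type} [RCLike 𝕜]

theorem q_le (D : TD 𝕜) {a : ℕ} {B : Finset ℕ} {SS : Finset (Finset D.Nd)} (h : D.IsFam a B SS)
    (K : Finset ℕ) (x : D.V) (hx : ∀ k, k ∉ K → x k = 0) :
    D.q B SS x ≤ 3 * ∑ k ∈ K, ‖x k‖ ^ 2 := by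
  classical
  have h1 : ∑ k ∈ B, ‖x k‖ ^ 2 ≤ ∑ k ∈ K, ‖x k‖ ^ 2 := by
    calc ∑ k ∈ B, ‖x k‖ ^ 2 = ∑ k ∈ B.filter (fun k => k ∈ K), ‖x k‖ ^ 2 := by
          rw [Finset.sum_filter]
          refine Finset.sum_congr rfl fun k _ => ?_
          by_cases hk : k ∈ K
          · rw [if_pos hk]
          · rw [if_neg hk, hx k hk, norm_zero]
            norm_num
      _ ≤ ∑ k ∈ K, ‖x k‖ ^ 2 := by
          apply Finset.sum_le_sum_of_subset_of_nonneg
          · intro k hk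
            exact (Finset.mem_filter.1 hk).2
          · intro k _ _
            positivity
  set W : Finset D.Nd := SS.biUnion id with hW
  have h2 : ∑ S ∈ SS, D.qS S x ≤ ∑ t ∈ W, ‖D.coef t x‖ ^ 2 := by
    rw [hW, Finset.sum_biUnion]
    · exact Finset.sum_le_sum fun S _ => qS_le_sum D S x
    · intro S hS S' hS' hne
      apply Finset.disjoint_left.2
      intro t ht ht'
      exact hne (h.disj S hS S' hS' t ht ht')
  have h3 : ∑ t ∈ W, ‖D.coef t x‖ ^ 2 =
      ∑ k ∈ K, ∑ t ∈ W.filter (fun t => D.b t = k), ‖D.coef t x‖ ^ 2 := by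
    have e1 : ∑ t ∈ W, ‖D.coef t x‖ ^ 2 =
        ∑ t ∈ W.filter (fun t => D.b t ∈ K), ‖D.coef t x‖ ^ 2 := by
      rw [Finset.sum_filter]
      refine Finset.sum_congr rfl fun t _ => ?_
      by_cases ht : D.b t ∈ K
      · rw [if_pos ht]
      · rw [if_neg ht]
        have : D.coef t x = 0 := by
          unfold TD.coef
          rw [hx _ ht, inner_zero_right]
        rw [this, norm_zero]
        norm_num
    rw [e1, ← Finset.sum_fiberwise_of_maps_to (g := D.b) (t := K)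
      (fun t ht => (Finset.mem_filter.1 ht).2)]
    refine Finset.sum_congr rfl fun k hk => ?_
    congr 1
    ext t
    simp only [Finset.mem_filter]
    constructor
    · rintro ⟨⟨h4, h5⟩, h6⟩
      exact ⟨h4, h6⟩
    · rintro ⟨h4, h6⟩
      exact ⟨⟨h4, by rw [h6]; exact hk⟩, h6⟩
  have h4 : ∀ k ∈ K, ∑ t ∈ W.filter (fun t => D.b t = k), ‖D.coef t x‖ ^ 2 ≤ 2 * ‖x k‖ ^ 2 := by
    intro k _
    apply coef_sum_le D k _ (fun t ht => (Finset.mem_filter.1 ht).2)
    apply h.good k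
    intro t ht
    obtain ⟨h5, h6⟩ := Finset.mem_filter.1 ht
    refine ⟨h6, ?_⟩
    obtain ⟨S, hS, htS⟩ := Finset.mem_biUnion.1 h5
    exact ⟨S, hS, htS⟩
  have h5 : ∑ S ∈ SS, D.qS S x ≤ 2 * ∑ k ∈ K, ‖x k‖ ^ 2 := by
    refine h2.trans ?_
    rw [h3, Finset.mul_sum]
    exact Finset.sum_le_sum h4
  unfold TD.q
  linarith

theorem val_le {D : TD 𝕜} (F : D.Fm) (K : Finset ℕ) (x : D.V) (hx : ∀ k, k ∉ K → x k = 0) :
    F.val x ≤ 30 * ∑ k ∈ K, ‖x k‖ ^ 2 := by
  have h0 : 0 ≤ ∑ k ∈ K, ‖x k‖ ^ 2 := Finset.sum_nonneg fun k _ => by positivity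
  have h1 : F.val x ≤ ∑ a ∈ Finset.range F.A, (9 / 10 : ℝ) ^ a *
      (3 * ∑ k ∈ K, ‖x k‖ ^ 2) := by
    apply Finset.sum_le_sum
    intro a ha
    apply mul_le_mul_of_nonneg_left _ (by positivity)
    exact q_le D (F.fam a (Finset.mem_range.1 ha)) K x hx
  rw [← Finset.sum_mul] at h1
  have h2 : ∑ a ∈ Finset.range F.A, (9 / 10 : ℝ) ^ a ≤ 10 := by
    rw [geom_sum_eq (by norm_num)]
    have h3 : (0 : ℝ) ≤ (9 / 10 : ℝ) ^ F.A := by positivity
    have h4 : ((9 / 10 : ℝ) ^ F.A - 1) / (9 / 10 - 1) = 10 * (1 - (9 / 10 : ℝ) ^ F.A) := by ring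
    rw [h4]
    linarith
  calc F.val x ≤ _ := h1
    _ ≤ 10 * (3 * ∑ k ∈ K, ‖x k‖ ^ 2) := mul_le_mul_of_nonneg_right h2 (by positivity)
    _ = _ := by ring

/-- the form of one block -/
theorem exists_block (D : TD 𝕜) (k : ℕ) : ∃ F : D.Fm, ∀ x, F.val x = ‖x k‖ ^ 2 := by
  refine ⟨⟨1, fun _ => {k}, fun _ => ∅, fun a ha => ?_⟩, fun x => ?_⟩
  · have ha0 : a = 0 := by omega
    subst ha0
    refine ⟨?_, ?_, ?_, ?_, ?_⟩
    · intro S hS; exact absurd hS (Finset.notMem_empty S)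
    · intro S hS; exact absurd hS (Finset.notMem_empty S)
    · intro j A hA
      have : A = ∅ := by
        apply Finset.eq_empty_of_forall_notMem
        intro t ht
        obtain ⟨-, S, hS, -⟩ := hA t ht
        exact absurd hS (Finset.notMem_empty S)
      rw [this, Finset.card_empty]
      exact Nat.zero_le _
    · show ({k} : Finset ℕ).card ≤ 1
      rw [Finset.card_singleton]
    · show (∅ : Finset (Finset D.Nd)).card ≤ 1
      rw [Finset.card_empty]
      exact Nat.zero_le _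
  · simp [TD.Fm.val, TD.q]

/-- the form of one segment -/
theorem exists_seg (D : TD 𝕜) (S : Finset D.Nd) (h : D.IsSeg S) :
    ∃ F : D.Fm, ∀ x, F.val x = D.qS S x := by
  refine ⟨⟨1, fun _ => ∅, fun _ => {S}, fun a ha => ?_⟩, fun x => ?_⟩
  · have ha0 : a = 0 := by omega
    subst ha0
    refine ⟨?_, ?_, ?_, ?_, ?_⟩
    · intro S' hS'
      rw [Finset.mem_singleton.1 hS']
      exact h
    · intro S₁ hS₁ S₂ hS₂ t _ _
      rw [Finset.mem_singleton.1 hS₁, Finset.mem_singleton.1 hS₂]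
    · intro j A hA
      have h1 : A.card ≤ 1 := by
        apply Finset.card_le_one.2
        intro t₁ ht₁ t₂ ht₂
        obtain ⟨hb₁, S₁, hS₁, hm₁⟩ := hA t₁ ht₁
        obtain ⟨hb₂, S₂, hS₂, hm₂⟩ := hA t₂ ht₂
        rw [Finset.mem_singleton.1 hS₁] at hm₁
        rw [Finset.mem_singleton.1 hS₂] at hm₂
        exact seg_b_inj D h hm₁ hm₂ (hb₁.trans hb₂.symm)
      omega
    · show (∅ : Finset ℕ).card ≤ 1
      rw [Finset.card_empty]
      exact Nat.zero_le _
    · show ({S} : Finset (Finset D.Nd)).card ≤ 1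
      rw [Finset.card_singleton]
  · simp [TD.Fm.val, TD.q]

end Pool.Agent.WH
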