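import Pool.Agent.WH.AltDefs
import Pool.Agent.WH.Cls
import Pool.Agent.WH.Seg
import Pool.Agent.WH.Upper

/-!
WH-14 (MP_a9f751_an): the alternating vectors and the bound for their norm.
-/

set_option autoImplicit false

open Filter Topology

namespace Pool.Agent.WH

variable {𝕜 : Type} [RCLike 𝕜]

section branch

variable {D : TD 𝕜} (h : HasChains D) (k e : ℕ → ℕ) (N : ℕ)
  (hk : ∀ i i', i < i' → i' < N → k i < k i') (hek : ∀ i < N, e i ≤ k i) (u : ℕ)

include hk in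
theorem alt_k_inj {i j : ℕ} (hi : i < N) (hj : j < N) (hij : k i = k j) : i = j := by
  rcases lt_trichotomy i j with h1 | h1 | h1
  · exact absurd hij (hk i j h1 hj).ne
  · exact h1
  · exact absurd hij.symm (hk j i h1 hi).ne

theorem alt_lbl_mem (i : ℕ) : ∀ a ∈ lbl k e i, ∃ j ≤ i, a = (k j, e j) := by
  induction i with
  | zero =>
    intro a ha
    simp only [lbl, List.mem_singleton] at ha
    exact ⟨0, le_rfl, ha⟩
  | succ i ih =>
    intro a ha
    simp only [lbl, List.mem_cons] at ha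
    rcases ha with ha | ha
    · exact ⟨i + 1, le_rfl, ha⟩
    · obtain ⟨j, hj, h1⟩ := ih a ha
      exact ⟨j, hj.trans (Nat.le_succ i), h1⟩

include hk hek in
theorem alt_vld (i : ℕ) (hi : i < N) : Vld (lbl k e i) := by
  refine ⟨?_, fun a ha => ?_⟩
  · induction i with
    | zero => simp [lbl]
    | succ i ih =>
      simp only [lbl, List.pairwise_cons]
      refine ⟨fun a ha => ?_, ih (by omega)⟩
      obtain ⟨j, hj, rfl⟩ := alt_lbl_mem k e i a ha
      exact hk j (i + 1) (by omega) hi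
  · obtain ⟨j, hj, rfl⟩ := alt_lbl_mem k e i a ha
    exact hek j (by omega)

theorem alt_lbl_head (i : ℕ) : ∃ s, lbl k e i = (k i, e i) :: s := by
  cases i with
  | zero => exact ⟨[], rfl⟩
  | succ i => exact ⟨lbl k e i, rfl⟩

include hk hek in
theorem alt_b (i : ℕ) (hi : i < N) : D.b (brn h k e u i) = k i := by
  obtain ⟨s, hs⟩ := alt_lbl_head k e i
  have hv := alt_vld k e N hk hek i hi
  unfold brn
  rw [hs] at hv ⊢
  exact h.b_nd _ _ _ _ hv (Nat.mod_lt _ (h.n_pos _))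

include hk hek in
theorem alt_al (i : ℕ) (hi : i < N) : D.al (brn h k e u i) = (1 / 2) ^ e i := by
  obtain ⟨s, hs⟩ := alt_lbl_head k e i
  have hv := alt_vld k e N hk hek i hi
  unfold brn
  rw [hs] at hv ⊢
  exact h.al_nd _ _ _ _ hv (Nat.mod_lt _ (h.n_pos _))

include hk hek in
theorem alt_par (i : ℕ) (hi : i + 1 < N) :
    D.par (brn h k e u (i + 1)) = some (brn h k e u i) := by
  obtain ⟨s, hs⟩ := alt_lbl_head k e i
  have hv := alt_vld k e N hk hek (i + 1) hi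
  have hd : D.n (k i) ∣ D.n (k (i + 1)) := h.n_dvd _ _ (hk i (i + 1) (by omega) hi)
  unfold brn
  have h1 : lbl k e (i + 1) = (k (i + 1), e (i + 1)) :: (k i, e i) :: s := by
    simp only [lbl, hs]
  rw [h1] at hv
  rw [h1, h.par_nd _ _ _ _ _ _ hv (Nat.mod_lt _ (h.n_pos _)), Nat.mod_mod_of_dvd _ hd, hs]

include hk hek in
theorem alt_brn_inj {i j : ℕ} (hi : i < N) (hj : j < N)
    (hij : brn h k e u i = brn h k e u j) : i = j := by
  have h1 := alt_b h k e N hk hek u i hi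
  rw [hij, alt_b h k e N hk hek u j hj] at h1
  exact (alt_k_inj k N hk hj hi h1).symm

include hk in
theorem alt_val (i : ℕ) (hi : i < N) : altv h k e N u (k i) =
    (((-1) ^ i * (1 / 2) ^ e i : ℝ) : 𝕜) • D.vec (brn h k e u i) (k i) := by
  unfold altv
  rw [Finset.sum_eq_single i]
  · rw [if_pos rfl]
  · intro j hj hne
    rw [if_neg]
    intro h1
    exact hne (alt_k_inj k N hk (Finset.mem_range.mp hj) hi h1)
  · intro h1
    exact absurd (Finset.mem_range.mpr hi) h1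

theorem alt_zero (j : ℕ) (hj : ∀ i < N, k i ≠ j) : altv h k e N u j = 0 := by
  unfold altv
  exact Finset.sum_eq_zero fun i hi => if_neg (hj i (Finset.mem_range.mp hi))

include hk hek in
theorem alt_norm (i : ℕ) (hi : i < N) : ‖altv h k e N u (k i)‖ ^ 2 = (1 / 4 : ℝ) ^ e i := by
  have h1 : ‖D.vec (brn h k e u i) (k i)‖ = 1 := by
    have := D.norm_vec (brn h k e u i)
    rwa [alt_b h k e N hk hek u i hi] at this
  rw [alt_val h k e N hk u i hi, norm_smul, h1, mul_one, RCLike.norm_ofReal, sq_abs, mul_pow,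
    ← pow_mul, mul_comm i 2, pow_mul, neg_one_sq, one_pow, one_mul, ← pow_mul, mul_comm (e i) 2,
    pow_mul]
  norm_num

include hk hek in
theorem alt_coef_on (i : ℕ) (hi : i < N) : D.coef (brn h k e u i) (altv h k e N u) =
    (((-1) ^ i * (1 / 2) ^ e i : ℝ) : 𝕜) := by
  have h1 : ‖D.vec (brn h k e u i) (k i)‖ = 1 := by
    have := D.norm_vec (brn h k e u i)
    rwa [alt_b h k e N hk hek u i hi] at this
  unfold TD.coef
  rw [alt_b h k e N hk hek u i hi, alt_val h k e N hk u i hi, inner_smul_right,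
    inner_self_eq_norm_sq_to_K, h1]
  simp

include hk hek in
theorem alt_coef_off (t : D.Nd) (i : ℕ) (hi : i < N) (hb : D.b t = k i)
    (ht : t ≠ brn h k e u i) : ‖D.coef t (altv h k e N u)‖ ≤ D.mu (k i) := by
  have hbi := alt_b h k e N hk hek u i hi
  have h1 := D.inner_vec t (brn h k e u i) ht (hb.trans hbi.symm)
  unfold TD.coef
  rw [hb] at h1 ⊢
  rw [alt_val h k e N hk u i hi, inner_smul_right, norm_mul, RCLike.norm_ofReal, abs_mul,
    abs_pow, abs_neg, abs_one, one_pow, one_mul, abs_of_nonneg (by positivity)]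
  have h2 : ((1 : ℝ) / 2) ^ e i ≤ 1 := pow_le_one₀ (by norm_num) (by norm_num)
  calc (1 / 2 : ℝ) ^ e i * ‖(inner 𝕜 (D.vec t (k i)) (D.vec (brn h k e u i) (k i)) : 𝕜)‖
      ≤ 1 * D.mu (k i) := mul_le_mul h2 h1 (norm_nonneg _) zero_le_one
    _ = D.mu (k i) := one_mul _

theorem alt_coef_zero (t : D.Nd) (hb : ∀ i < N, k i ≠ D.b t) :
    D.coef t (altv h k e N u) = 0 := by
  unfold TD.coef
  rw [alt_zero h k e N u _ hb, inner_zero_right]

include hk hek in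
/-- going up in a segment along the branch -/
theorem alt_up {S : Finset D.Nd} (hS : D.IsSeg S) {i j : ℕ} (hij : i < j) (hj : j < N)
    (h1 : brn h k e u i ∈ S) (h2 : brn h k e u j ∈ S) : brn h k e u (j - 1) ∈ S := by
  obtain ⟨m, g, hg, hmem⟩ := hS
  obtain ⟨a, ha, hga⟩ := (hmem _).mp h1
  obtain ⟨b, hb, hgb⟩ := (hmem _).mp h2
  have hmono : ∀ n, n ≤ m → ∀ l ≤ n, D.b (g l) ≤ D.b (g n) := by
    intro n
    induction n with
    | zero => intro _ l hl; rw [Nat.le_zero.mp hl]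
    | succ n ih =>
      intro hn l hl
      have h3 := D.b_par _ _ (hg n (by omega))
      rcases Nat.lt_or_ge l (n + 1) with h4 | h4
      · exact (ih (by omega) l (by omega)).trans h3.le
      · rw [le_antisymm hl h4]
  have hb0 : b ≠ 0 := by
    rintro rfl
    have h3 := hmono a ha 0 (Nat.zero_le _)
    rw [hga, hgb, alt_b h k e N hk hek u j hj, alt_b h k e N hk hek u i (hij.trans hj)] at h3
    exact absurd (hk i j hij hj) (not_lt.mpr h3)
  obtain ⟨b, rfl⟩ := Nat.exists_eq_succ_of_ne_zero hb0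
  obtain ⟨j, rfl⟩ := Nat.exists_eq_succ_of_ne_zero (by omega : j ≠ 0)
  have h3 := hg b (by omega)
  rw [show b + 1 = b.succ from rfl, hgb, show j.succ = j + 1 from rfl,
    alt_par h k e N hk hek u j hj] at h3
  have h4 : brn h k e u j = g b := Option.some.inj h3
  show brn h k e u (j + 1 - 1) ∈ S
  rw [Nat.add_sub_cancel, h4]
  exact (hmem _).mpr ⟨b, by omega, rfl⟩

include hk hek in
/-- a segment meets the branch in an interval -/
theorem alt_interval {S : Finset D.Nd} (hS : D.IsSeg S) {i j l : ℕ} (hil : i ≤ l) (hlj : l ≤ j)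
    (hj : j < N) (h1 : brn h k e u i ∈ S) (h2 : brn h k e u j ∈ S) :
    brn h k e u l ∈ S := by
  have key : ∀ d, d ≤ j - i → brn h k e u (j - d) ∈ S := by
    intro d
    induction d with
    | zero => intro _; exact h2
    | succ d ih =>
      intro hd
      have h3 := ih (by omega)
      have h4 := alt_up h k e N hk hek u hS (i := i) (j := j - d) (by omega) (by omega) h1 h3
      rwa [show j - d - 1 = j - (d + 1) by omega] at h4
  have h5 := key (j - l) (by omega)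
  rwa [show j - (j - l) = l by omega] at h5

end branch

/-- partial sums of the alternating weights -/
theorem alt_prefix (w : ℕ → ℝ) (r : ℕ) (hw : ∀ l < r, w (2 * l) = w (2 * l + 1)) :
    ∀ l ≤ r, ∑ i ∈ Finset.range (2 * l), (-1 : ℝ) ^ i * w i = 0 := by
  intro l
  induction l with
  | zero => intro _; simp
  | succ l ih =>
    intro hl
    rw [show 2 * (l + 1) = 2 * l + 1 + 1 by ring, Finset.sum_range_succ, Finset.sum_range_succ,
      ih (by omega), ← hw l (by omega), pow_succ, pow_mul]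
    norm_num

/-- alternating sums over intervals -/
theorem alt_interval_sum (w : ℕ → ℝ) (hw0 : ∀ i, 0 ≤ w i) (r : ℕ)
    (hw : ∀ l < r, w (2 * l) = w (2 * l + 1)) (i j : ℕ) (hij : i ≤ j) (hj : j < 2 * r) :
    |∑ l ∈ Finset.Ico i (j + 1), (-1 : ℝ) ^ l * w l| ≤ w i + w j := by
  rw [Finset.sum_Ico_eq_sub _ (by omega : i ≤ j + 1)]
  have hi : ∃ s, 0 ≤ s ∧ s ≤ w i ∧ ∑ l ∈ Finset.range i, (-1 : ℝ) ^ l * w l = s := by
    rcases Nat.even_or_odd' i with ⟨c, rfl | rfl⟩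
    · exact ⟨0, le_rfl, hw0 _, alt_prefix w r hw c (by omega)⟩
    · refine ⟨w (2 * c), hw0 _, (hw c (by omega)).le, ?_⟩
      rw [Finset.sum_range_succ, alt_prefix w r hw c (by omega), pow_mul]
      norm_num
  have hj' : ∃ s, 0 ≤ s ∧ s ≤ w j ∧ ∑ l ∈ Finset.range (j + 1), (-1 : ℝ) ^ l * w l = s := by
    rcases Nat.even_or_odd' j with ⟨c, rfl | rfl⟩
    · refine ⟨w (2 * c), hw0 _, le_rfl, ?_⟩
      rw [Finset.sum_range_succ, alt_prefix w r hw c (by omega), pow_mul]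
      norm_num
    · exact ⟨0, le_rfl, hw0 _, alt_prefix w r hw (c + 1) (by omega)⟩
  obtain ⟨s, hs0, hs1, hs⟩ := hi
  obtain ⟨s', hs0', hs1', hs'⟩ := hj'
  rw [hs, hs', abs_le]
  constructor <;> linarith [hw0 i, hw0 j]

theorem alt_interval_sum_sq (w : ℕ → ℝ) (hw0 : ∀ i, 0 ≤ w i) (r : ℕ)
    (hw : ∀ l < r, w (2 * l) = w (2 * l + 1)) (i j : ℕ) (hij : i ≤ j) (hj : j < 2 * r) :
    (∑ l ∈ Finset.Ico i (j + 1), (-1 : ℝ) ^ l * w l) ^ 2 ≤
      (w i + w j) * ∑ l ∈ Finset.Ico i (j + 1), w l := by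
  have h1 := alt_interval_sum w hw0 r hw i j hij hj
  have h2 : |∑ l ∈ Finset.Ico i (j + 1), (-1 : ℝ) ^ l * w l| ≤
      ∑ l ∈ Finset.Ico i (j + 1), w l := by
    refine (Finset.abs_sum_le_sum_abs _ _).trans (le_of_eq ?_)
    refine Finset.sum_congr rfl fun l _ => ?_
    rw [abs_mul, abs_pow, abs_neg, abs_one, one_pow, one_mul, abs_of_nonneg (hw0 l)]
  rw [← sq_abs, sq]
  exact mul_le_mul h1 h2 (abs_nonneg _) (add_nonneg (hw0 i) (hw0 j))

/-- Cauchy-Schwarz for the coherent functional -/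
theorem alt_cs (D : TD 𝕜) (S : Finset D.Nd) (x : D.V) :
    ‖∑ t ∈ S, (D.al t : 𝕜) * D.coef t x‖ ^ 2 ≤
      (∑ t ∈ S, D.al t ^ 2) * ∑ t ∈ S, ‖D.coef t x‖ ^ 2 := by
  have h1 : ‖∑ t ∈ S, (D.al t : 𝕜) * D.coef t x‖ ≤ ∑ t ∈ S, D.al t * ‖D.coef t x‖ := by
    refine (norm_sum_le _ _).trans (le_of_eq ?_)
    refine Finset.sum_congr rfl fun t _ => ?_
    rw [norm_mul, RCLike.norm_ofReal, abs_of_pos (D.al_pos t)]
  exact (pow_le_pow_left₀ (norm_nonneg _) h1 2).trans (Finset.sum_mul_sq_le_sq_mul_sq _ _ _)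

section seg

variable {D : TD 𝕜} (h : HasChains D) (k e : ℕ → ℕ) (r : ℕ)
  (hk : ∀ i i', i < i' → i' < 2 * r → k i < k i') (hek : ∀ i < 2 * r, e i ≤ k i)
  (hee : ∀ l < r, e (2 * l) = e (2 * l + 1)) (u : ℕ)

open Classical in
include hk hek hee in
/-- the value of one segment at the alternating vector -/
theorem alt_seg {S : Finset D.Nd} (hS : D.IsSeg S) (hne : ∃ i < 2 * r, brn h k e u i ∈ S) :
    ∃ i j, i < 2 * r ∧ j < 2 * r ∧ brn h k e u i ∈ S ∧ brn h k e u j ∈ S ∧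
      D.qS S (altv h k e (2 * r) u) ≤ 2 * ((1 / 4 : ℝ) ^ e i + (1 / 4) ^ e j) +
        2 * ∑ t ∈ S.filter (fun t => ∀ i < 2 * r, brn h k e u i ≠ t),
          ‖D.coef t (altv h k e (2 * r) u)‖ ^ 2 := by
  set x := altv h k e (2 * r) u with hx
  set I := (Finset.range (2 * r)).filter (fun i => brn h k e u i ∈ S) with hI
  have hIne : I.Nonempty := by
    obtain ⟨i, hi, h1⟩ := hne
    exact ⟨i, Finset.mem_filter.mpr ⟨Finset.mem_range.mpr hi, h1⟩⟩
  have hImem : ∀ i, i ∈ I ↔ i < 2 * r ∧ brn h k e u i ∈ S := by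
    intro i
    rw [hI, Finset.mem_filter, Finset.mem_range]
  obtain ⟨hlo, hlo'⟩ := (hImem _).mp (I.min'_mem hIne)
  obtain ⟨hhi, hhi'⟩ := (hImem _).mp (I.max'_mem hIne)
  set i := I.min' hIne with hi
  set j := I.max' hIne with hj
  have hij : i ≤ j := I.min'_le _ (I.max'_mem hIne)
  have hIco : I = Finset.Ico i (j + 1) := by
    ext l
    rw [hImem, Finset.mem_Ico]
    constructor
    · intro hl
      exact ⟨I.min'_le _ ((hImem l).mpr hl), Nat.lt_succ_of_le (I.le_max' _ ((hImem l).mpr hl))⟩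
    · rintro ⟨h1, h2⟩
      exact ⟨by omega, alt_interval h k e (2 * r) hk hek u hS h1 (Nat.lt_succ_iff.mp h2) hhi
        hlo' hhi'⟩
  refine ⟨i, j, hlo, hhi, hlo', hhi', ?_⟩
  set S₂ := S.filter (fun t => ∀ i < 2 * r, brn h k e u i ≠ t) with hS₂
  set S₁ := S.filter (fun t => ¬ ∀ i < 2 * r, brn h k e u i ≠ t) with hS₁
  have hS₁' : S₁ = I.image (fun i => brn h k e u i) := by
    ext t
    rw [hS₁, Finset.mem_filter, Finset.mem_image]
    constructor
    · rintro ⟨h1, h2⟩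
      push Not at h2
      obtain ⟨l, hl, rfl⟩ := h2
      exact ⟨l, (hImem l).mpr ⟨hl, h1⟩, rfl⟩
    · rintro ⟨l, hl, rfl⟩
      obtain ⟨h1, h2⟩ := (hImem l).mp hl
      refine ⟨h2, fun h3 => h3 l h1 rfl⟩
  have hinj : ∀ l ∈ I, ∀ l' ∈ I, brn h k e u l = brn h k e u l' → l = l' := fun l hl l' hl' hll =>
    alt_brn_inj h k e (2 * r) hk hek u ((hImem l).mp hl).1 ((hImem l').mp hl').1 hll
  set w : ℕ → ℝ := fun i => (1 / 4 : ℝ) ^ e i with hw
  have hal1 : ∑ t ∈ S₁, D.al t ^ 2 = ∑ l ∈ I, w l := by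
    rw [hS₁', Finset.sum_image hinj]
    refine Finset.sum_congr rfl fun l hl => ?_
    rw [alt_al h k e (2 * r) hk hek u l ((hImem l).mp hl).1, hw, ← pow_mul, mul_comm (e l) 2,
      pow_mul]
    norm_num
  have hon : ∑ t ∈ S₁, (D.al t : 𝕜) * D.coef t x = ((∑ l ∈ I, (-1 : ℝ) ^ l * w l : ℝ) : 𝕜) := by
    rw [hS₁', Finset.sum_image hinj, RCLike.ofReal_sum]
    refine Finset.sum_congr rfl fun l hl => ?_
    rw [alt_al h k e (2 * r) hk hek u l ((hImem l).mp hl).1, hx,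
      alt_coef_on h k e (2 * r) hk hek u l ((hImem l).mp hl).1, ← RCLike.ofReal_mul]
    congr 1
    have : (1 / 4 : ℝ) ^ e l = (1 / 2) ^ e l * (1 / 2) ^ e l := by
      rw [← mul_pow]; norm_num
    rw [hw]
    simp only [this]
    ring
  have hon2 : ‖∑ t ∈ S₁, (D.al t : 𝕜) * D.coef t x‖ ^ 2 ≤
      (w i + w j) * ∑ t ∈ S₁, D.al t ^ 2 := by
    rw [hon, RCLike.norm_ofReal, sq_abs, hal1, hIco]
    exact alt_interval_sum_sq w (fun i => by positivity) r
      (fun l hl => by simp only [hw, hee l hl]) i j hij hhi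
  have hoff := alt_cs D S₂ x
  have hsplit : ∑ t ∈ S, (D.al t : 𝕜) * D.coef t x = ∑ t ∈ S₂, (D.al t : 𝕜) * D.coef t x +
      ∑ t ∈ S₁, (D.al t : 𝕜) * D.coef t x :=
    (Finset.sum_filter_add_sum_filter_not S _ _).symm
  have hA1 : ∑ t ∈ S₁, D.al t ^ 2 ≤ ∑ t ∈ S, D.al t ^ 2 :=
    Finset.sum_le_sum_of_subset_of_nonneg (Finset.filter_subset _ _) fun _ _ _ => sq_nonneg _
  have hA2 : ∑ t ∈ S₂, D.al t ^ 2 ≤ ∑ t ∈ S, D.al t ^ 2 :=
    Finset.sum_le_sum_of_subset_of_nonneg (Finset.filter_subset _ _) fun _ _ _ => sq_nonneg _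
  have hA0 : 0 ≤ ∑ t ∈ S, D.al t ^ 2 := Finset.sum_nonneg fun _ _ => sq_nonneg _
  have hC0 : 0 ≤ ∑ t ∈ S₂, ‖D.coef t x‖ ^ 2 := Finset.sum_nonneg fun _ _ => sq_nonneg _
  have hw0 : 0 ≤ w i + w j := by positivity
  unfold TD.qS
  refine div_le_of_le_mul₀ hA0 (by positivity) ?_
  rw [hsplit]
  have htri : ‖∑ t ∈ S₂, (D.al t : 𝕜) * D.coef t x + ∑ t ∈ S₁, (D.al t : 𝕜) * D.coef t x‖ ^ 2 ≤
      2 * ‖∑ t ∈ S₂, (D.al t : 𝕜) * D.coef t x‖ ^ 2 +
        2 * ‖∑ t ∈ S₁, (D.al t : 𝕜) * D.coef t x‖ ^ 2 := by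
    have h1 := norm_add_le (∑ t ∈ S₂, (D.al t : 𝕜) * D.coef t x)
      (∑ t ∈ S₁, (D.al t : 𝕜) * D.coef t x)
    have h2 := pow_le_pow_left₀ (norm_nonneg _) h1 2
    nlinarith [sq_nonneg (‖∑ t ∈ S₂, (D.al t : 𝕜) * D.coef t x‖ -
      ‖∑ t ∈ S₁, (D.al t : 𝕜) * D.coef t x‖)]
  have h3 : ‖∑ t ∈ S₂, (D.al t : 𝕜) * D.coef t x‖ ^ 2 ≤
      (∑ t ∈ S, D.al t ^ 2) * ∑ t ∈ S₂, ‖D.coef t x‖ ^ 2 :=
    hoff.trans (mul_le_mul_of_nonneg_right hA2 hC0)
  have h4 : ‖∑ t ∈ S₁, (D.al t : 𝕜) * D.coef t x‖ ^ 2 ≤ (w i + w j) * ∑ t ∈ S, D.al t ^ 2 :=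
    hon2.trans (mul_le_mul_of_nonneg_left hA1 hw0)
  refine htri.trans ?_
  have h5 : w i = (1 / 4 : ℝ) ^ e i := rfl
  have h6 : w j = (1 / 4 : ℝ) ^ e j := rfl
  rw [← h5, ← h6]
  linarith

open Classical in
/-- the value of a segment away from the branch -/
theorem alt_seg_off {S : Finset D.Nd} (hne : ¬ ∃ i < 2 * r, brn h k e u i ∈ S) :
      D.qS S (altv h k e (2 * r) u) ≤
        2 * ∑ t ∈ S.filter (fun t => ∀ i < 2 * r, brn h k e u i ≠ t),
          ‖D.coef t (altv h k e (2 * r) u)‖ ^ 2 := by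
  have h1 : S.filter (fun t => ∀ i < 2 * r, brn h k e u i ≠ t) = S := by
    refine Finset.filter_true_of_mem fun t ht i hi h2 => hne ⟨i, hi, ?_⟩
    rw [h2]; exact ht
  rw [h1]
  have h2 := alt_cs D S (altv h k e (2 * r) u)
  have hA0 : 0 ≤ ∑ t ∈ S, D.al t ^ 2 := Finset.sum_nonneg fun _ _ => sq_nonneg _
  have hC0 : 0 ≤ ∑ t ∈ S, ‖D.coef t (altv h k e (2 * r) u)‖ ^ 2 :=
    Finset.sum_nonneg fun _ _ => sq_nonneg _
  unfold TD.qS
  refine div_le_of_le_mul₀ hA0 (by positivity) (h2.trans ?_)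
  nlinarith [mul_nonneg hA0 hC0]

end seg

theorem alt_mu (D : TD 𝕜) (k : ℕ) : ((D.nu k : ℝ) + 1) * D.mu k ^ 2 ≤ (1 / 4) ^ k := by
  have h1 := D.mu_le k
  have h0 := D.mu_nonneg k
  have h2 : D.mu k ≤ (1 / 2) ^ k := by
    have : (0 : ℝ) ≤ D.nu k := Nat.cast_nonneg _
    nlinarith [mul_nonneg this h0]
  calc ((D.nu k : ℝ) + 1) * D.mu k ^ 2 = (((D.nu k : ℝ) + 1) * D.mu k) * D.mu k := by ring
    _ ≤ (1 / 2) ^ k * (1 / 2) ^ k := mul_le_mul h1 h2 h0 (by positivity)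
    _ = (1 / 4) ^ k := by rw [← mul_pow]; norm_num

theorem alt_geo (k : ℕ → ℕ) (N : ℕ) (hk : ∀ i i', i < i' → i' < N → k i < k i') :
    ∑ i ∈ Finset.range N, (1 / 4 : ℝ) ^ k i ≤ 4 * (1 / 4) ^ k 0 := by
  have h1 : ∀ i < N, k 0 + i ≤ k i := by
    intro i
    induction i with
    | zero => intro _; simp
    | succ i ih =>
      intro hi
      have h2 := ih (by omega)
      have h3 := hk i (i + 1) (by omega) hi
      omega
  have h2 : ∀ n : ℕ, ∑ i ∈ Finset.range n, (1 / 4 : ℝ) ^ i = 4 / 3 - 4 / 3 * (1 / 4) ^ n := by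
    intro n
    induction n with
    | zero => simp
    | succ n ih => rw [Finset.sum_range_succ, ih, pow_succ]; ring
  calc ∑ i ∈ Finset.range N, (1 / 4 : ℝ) ^ k i
      ≤ ∑ i ∈ Finset.range N, (1 / 4 : ℝ) ^ k 0 * (1 / 4) ^ i := by
        refine Finset.sum_le_sum fun i hi => ?_
        rw [← pow_add]
        exact pow_le_pow_of_le_one (by norm_num) (by norm_num) (h1 i (Finset.mem_range.mp hi))
    _ = (1 / 4 : ℝ) ^ k 0 * (4 / 3 - 4 / 3 * (1 / 4) ^ N) := by rw [← Finset.mul_sum, h2]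
    _ ≤ 4 * (1 / 4) ^ k 0 := by
        have h3 : (0 : ℝ) ≤ (1 / 4) ^ k 0 := by positivity
        have h4 : (0 : ℝ) ≤ (1 / 4) ^ N := by positivity
        nlinarith [mul_nonneg h3 h4]

section fam

variable {D : TD 𝕜} (h : HasChains D) (k e : ℕ → ℕ) (r : ℕ)
  (hk : ∀ i i', i < i' → i' < 2 * r → k i < k i') (hek : ∀ i < 2 * r, e i ≤ k i)
  (hee : ∀ l < r, e (2 * l) = e (2 * l + 1)) (u : ℕ)

open Classical in
include hk hek in
/-- the part of the segments off the branch -/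
theorem alt_off {b : ℕ} {B : Finset ℕ} {SS : Finset (Finset D.Nd)} (hF : D.IsFam b B SS) :
    ∑ S ∈ SS, ∑ t ∈ S.filter (fun t => ∀ i < 2 * r, brn h k e u i ≠ t),
      ‖D.coef t (altv h k e (2 * r) u)‖ ^ 2 ≤ 4 * (1 / 4) ^ k 0 := by
  set x := altv h k e (2 * r) u with hx
  set g : Finset D.Nd → Finset D.Nd :=
    fun S => S.filter (fun t => ∀ i < 2 * r, brn h k e u i ≠ t) with hg
  have hdisj : ((SS : Finset (Finset D.Nd)) : Set (Finset D.Nd)).PairwiseDisjoint g := by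
    intro S hS S' hS' hne
    refine Finset.disjoint_left.mpr fun t ht ht' => hne ?_
    exact hF.disj S hS S' hS' t (Finset.mem_filter.mp ht).1 (Finset.mem_filter.mp ht').1
  have h1 : ∑ S ∈ SS, ∑ t ∈ g S, ‖D.coef t x‖ ^ 2 = ∑ t ∈ SS.biUnion g, ‖D.coef t x‖ ^ 2 :=
    (Finset.sum_biUnion hdisj).symm
  show ∑ S ∈ SS, ∑ t ∈ g S, ‖D.coef t x‖ ^ 2 ≤ _
  rw [h1]
  have hU : ∀ t ∈ SS.biUnion g, (∃ S ∈ SS, t ∈ S) ∧ ∀ i < 2 * r, brn h k e u i ≠ t := by
    intro t ht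
    obtain ⟨S, hS, h2⟩ := Finset.mem_biUnion.mp ht
    exact ⟨⟨S, hS, (Finset.mem_filter.mp h2).1⟩, (Finset.mem_filter.mp h2).2⟩
  have h2 : ∀ t ∈ SS.biUnion g, ‖D.coef t x‖ ^ 2 ≤
      ∑ i ∈ Finset.range (2 * r), if D.b t = k i then D.mu (k i) ^ 2 else 0 := by
    intro t ht
    by_cases h3 : ∃ i < 2 * r, D.b t = k i
    · obtain ⟨i, hi, h4⟩ := h3
      have h5 := alt_coef_off h k e (2 * r) hk hek u t i hi h4 ((hU t ht).2 i hi).symm
      have h6 : ‖D.coef t x‖ ^ 2 ≤ D.mu (k i) ^ 2 := pow_le_pow_left₀ (norm_nonneg _) h5 2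
      have h7 := Finset.single_le_sum (s := Finset.range (2 * r))
        (f := fun i => if D.b t = k i then D.mu (k i) ^ 2 else 0)
        (fun j _ => by
          show 0 ≤ if D.b t = k j then D.mu (k j) ^ 2 else 0
          split_ifs
          · exact sq_nonneg _
          · exact le_rfl) (Finset.mem_range.mpr hi)
      simp only [if_pos h4] at h7
      exact h6.trans h7
    · push Not at h3
      rw [hx, alt_coef_zero h k e (2 * r) u t fun i hi => (h3 i hi).symm]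
      rw [norm_zero, zero_pow two_ne_zero]
      refine Finset.sum_nonneg fun j _ => ?_
      split_ifs
      · exact sq_nonneg _
      · exact le_rfl
  refine (Finset.sum_le_sum h2).trans ?_
  rw [Finset.sum_comm]
  refine (Finset.sum_le_sum fun i hi => ?_).trans (alt_geo k (2 * r) hk)
  rw [← Finset.sum_filter, Finset.sum_const, nsmul_eq_mul]
  have h8 := hF.good (k i) ((SS.biUnion g).filter fun t => D.b t = k i) (by
    intro t ht
    obtain ⟨h9, h10⟩ := Finset.mem_filter.mp ht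
    exact ⟨h10, (hU t h9).1⟩)
  have h9 : ((((SS.biUnion g).filter fun t => D.b t = k i).card : ℕ) : ℝ) ≤
      (D.nu (k i) : ℝ) + 1 := by exact_mod_cast h8
  exact (mul_le_mul_of_nonneg_right h9 (sq_nonneg _)).trans (alt_mu D (k i))

theorem alt_p_pos (D : TD 𝕜) (k : ℕ) : 1 ≤ D.p k := by
  refine le_trans ?_ (D.p_large k)
  have : 0 < 25 ^ (4 * ∑ j ∈ Finset.range (k + 1), D.n j) := by positivity
  omega

include hk hek in
/-- sums over chosen points of the segments -/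
theorem alt_pts {a b : ℕ} (hab : b ≤ a) (ε : ℝ)
    (hs : ∀ I : Finset ℕ, (∀ i ∈ I, i < 2 * r) → Cls D.p k a I →
      ∑ i ∈ I, (1 / 4 : ℝ) ^ e i ≤ ε)
    {B : Finset ℕ} {SS : Finset (Finset D.Nd)} (hF : D.IsFam b B SS)
    (SS' : Finset (Finset D.Nd)) (hSS : SS' ⊆ SS) (f : Finset D.Nd → ℕ)
    (hf : ∀ S ∈ SS', f S < 2 * r ∧ brn h k e u (f S) ∈ S) :
    ∑ S ∈ SS', (1 / 4 : ℝ) ^ e (f S) ≤ ε := by
  classical
  have hinj : ∀ S ∈ SS', ∀ S' ∈ SS', f S = f S' → S = S' := by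
    intro S hS S' hS' hSS'
    refine hF.disj S (hSS hS) S' (hSS hS') (brn h k e u (f S)) (hf S hS).2 ?_
    rw [hSS']
    exact (hf S' hS').2
  have h1 : ∑ S ∈ SS', (1 / 4 : ℝ) ^ e (f S) = ∑ i ∈ SS'.image f, (1 / 4 : ℝ) ^ e i := by
    rw [Finset.sum_image hinj]
  rw [h1]
  refine hs _ (fun i hi => ?_) ?_
  · obtain ⟨S, hS, rfl⟩ := Finset.mem_image.mp hi
    exact (hf S hS).1
  · refine cls_le (alt_p_pos D) hab ?_
    have hex : ∀ i ∈ SS'.image f, ∃ S ∈ SS', f S = i := fun i hi => Finset.mem_image.mp hi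
    let g : ℕ → Finset D.Nd := fun i => if hi : i ∈ SS'.image f then (hex i hi).choose else ∅
    have hg : ∀ i ∈ SS'.image f, g i ∈ SS' ∧ f (g i) = i := by
      intro i hi
      have h2 := (hex i hi).choose_spec
      have h3 : g i = (hex i hi).choose := dif_pos hi
      rw [h3]
      exact h2
    refine cls_spread D.p_mono hF.clsS g (fun i hi => hSS (hg i hi).1) (fun i hi j hj hij => ?_)
      (fun i hi => ?_)
    · rw [← (hg i hi).2, ← (hg j hj).2, hij]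
    · obtain ⟨h2, h3⟩ := hg i hi
      obtain ⟨h4, h5⟩ := hf _ h2
      rw [h3] at h4 h5
      have h6 := posS_le D h5
      rwa [alt_b h k e (2 * r) hk hek u i h4] at h6

open Classical in
include hk hek hee in
/-- the form of one family of low class -/
theorem alt_fam {a b : ℕ} (hab : b ≤ a) (ε : ℝ)
    (hs : ∀ I : Finset ℕ, (∀ i ∈ I, i < 2 * r) → Cls D.p k a I →
      ∑ i ∈ I, (1 / 4 : ℝ) ^ e i ≤ ε)
    {B : Finset ℕ} {SS : Finset (Finset D.Nd)} (hF : D.IsFam b B SS) :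
    D.q B SS (altv h k e (2 * r) u) ≤ 5 * ε + 8 * (1 / 4) ^ k 0 := by
  set x := altv h k e (2 * r) u with hx
  -- the blocks
  have hB : ∑ k' ∈ B, ‖x k'‖ ^ 2 ≤ ε := by
    set I := (Finset.range (2 * r)).filter (fun i => k i ∈ B) with hI
    have h1 : ∑ k' ∈ B, ‖x k'‖ ^ 2 = ∑ i ∈ I, (1 / 4 : ℝ) ^ e i := by
      have h2 : ∑ i ∈ I, (1 / 4 : ℝ) ^ e i = ∑ i ∈ I, ‖x (k i)‖ ^ 2 := by
        refine Finset.sum_congr rfl fun i hi => ?_
        rw [hx, alt_norm h k e (2 * r) hk hek u i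
          (Finset.mem_range.mp (Finset.mem_filter.mp hi).1)]
      have h3 : ∑ i ∈ I, ‖x (k i)‖ ^ 2 = ∑ k' ∈ I.image k, ‖x k'‖ ^ 2 := by
        rw [Finset.sum_image]
        intro i hi j hj hij
        exact alt_k_inj k (2 * r) hk (Finset.mem_range.mp (Finset.mem_filter.mp hi).1)
          (Finset.mem_range.mp (Finset.mem_filter.mp hj).1) hij
      rw [h2, h3]
      symm
      refine Finset.sum_subset ?_ ?_
      · intro k' hk'
        obtain ⟨i, hi, rfl⟩ := Finset.mem_image.mp hk'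
        exact (Finset.mem_filter.mp hi).2
      · intro k' hk' hn
        rw [hx, alt_zero h k e (2 * r) u k', norm_zero, zero_pow two_ne_zero]
        rintro i hi rfl
        exact hn (Finset.mem_image.mpr ⟨i, Finset.mem_filter.mpr
          ⟨Finset.mem_range.mpr hi, hk'⟩, rfl⟩)
    rw [h1]
    refine hs I (fun i hi => Finset.mem_range.mp (Finset.mem_filter.mp hi).1) ?_
    refine cls_le (alt_p_pos D) hab ?_
    refine cls_spread D.p_mono hF.clsB k (fun i hi => (Finset.mem_filter.mp hi).2)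
      (fun i hi j hj hij => ?_) (fun i _ => le_rfl)
    exact alt_k_inj k (2 * r) hk (Finset.mem_range.mp (Finset.mem_filter.mp hi).1)
      (Finset.mem_range.mp (Finset.mem_filter.mp hj).1) hij
  -- the segments
  have hex : ∀ S : Finset D.Nd, ∃ ij : ℕ × ℕ, (S ∈ SS ∧ ∃ i < 2 * r, brn h k e u i ∈ S) →
      ij.1 < 2 * r ∧ ij.2 < 2 * r ∧ brn h k e u ij.1 ∈ S ∧ brn h k e u ij.2 ∈ S ∧
      D.qS S x ≤ 2 * ((1 / 4 : ℝ) ^ e ij.1 + (1 / 4) ^ e ij.2) +
        2 * ∑ t ∈ S.filter (fun t => ∀ i < 2 * r, brn h k e u i ≠ t), ‖D.coef t x‖ ^ 2 := by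
    intro S
    by_cases hS : S ∈ SS ∧ ∃ i < 2 * r, brn h k e u i ∈ S
    · obtain ⟨i, j, h1⟩ := alt_seg h k e r hk hek hee u (hF.seg S hS.1) hS.2
      exact ⟨(i, j), fun _ => h1⟩
    · exact ⟨(0, 0), fun h1 => absurd h1 hS⟩
  choose ij hij using hex
  set SS' := SS.filter (fun S => ∃ i < 2 * r, brn h k e u i ∈ S) with hSS'
  have hmem : ∀ S, S ∈ SS' ↔ S ∈ SS ∧ ∃ i < 2 * r, brn h k e u i ∈ S := fun S => by
    rw [hSS', Finset.mem_filter]
  have hp1 := alt_pts h k e r hk hek u hab ε hs hF SS' (Finset.filter_subset _ _)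
    (fun S => (ij S).1) (fun S hS => by
      obtain ⟨h1, -, h2, -⟩ := hij S ((hmem S).mp hS)
      exact ⟨h1, h2⟩)
  have hp2 := alt_pts h k e r hk hek u hab ε hs hF SS' (Finset.filter_subset _ _)
    (fun S => (ij S).2) (fun S hS => by
      obtain ⟨-, h1, -, h2, -⟩ := hij S ((hmem S).mp hS)
      exact ⟨h1, h2⟩)
  have hS : ∑ S ∈ SS, D.qS S x ≤ ∑ S ∈ SS, ((if ∃ i < 2 * r, brn h k e u i ∈ S then
      2 * ((1 / 4 : ℝ) ^ e (ij S).1 + (1 / 4) ^ e (ij S).2) else 0) +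
        2 * ∑ t ∈ S.filter (fun t => ∀ i < 2 * r, brn h k e u i ≠ t), ‖D.coef t x‖ ^ 2) := by
    refine Finset.sum_le_sum fun S hS => ?_
    split_ifs with h1
    · exact (hij S ⟨hS, h1⟩).2.2.2.2
    · rw [zero_add]
      exact alt_seg_off h k e r u h1
  rw [Finset.sum_add_distrib, ← Finset.sum_filter, ← Finset.mul_sum, ← Finset.mul_sum,
    Finset.sum_add_distrib] at hS
  have hoff := alt_off h k e r hk hek u hF
  unfold TD.q
  have h1 : ∑ S ∈ SS with ∃ i < 2 * r, brn h k e u i ∈ S, (1 / 4 : ℝ) ^ e (ij S).1 ≤ ε := hp1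
  have h2 : ∑ S ∈ SS with ∃ i < 2 * r, brn h k e u i ∈ S, (1 / 4 : ℝ) ^ e (ij S).2 ≤ ε := hp2
  linarith

end fam

theorem alt_geo910 (a : ℕ) : ∀ A : ℕ,
    ∑ l ∈ Finset.range A, (if a < l then (9 / 10 : ℝ) ^ l else 0) =
      10 * (9 / 10) ^ (a + 1) - 10 * (9 / 10) ^ (max A (a + 1)) := by
  intro A
  induction A with
  | zero => simp
  | succ A ih =>
    rw [Finset.sum_range_succ, ih]
    split_ifs with h1
    · rw [max_eq_left (by omega : a + 1 ≤ A), max_eq_left (by omega : a + 1 ≤ A + 1),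
        pow_succ _ A]
      ring
    · rw [max_eq_right (by omega : A ≤ a + 1), max_eq_right (by omega : A + 1 ≤ a + 1)]
      ring

theorem alt_geo910' (A : ℕ) : ∑ l ∈ Finset.range A, (9 / 10 : ℝ) ^ l ≤ 10 := by
  have h1 : ∀ n : ℕ, ∑ i ∈ Finset.range n, (9 / 10 : ℝ) ^ i = 10 - 10 * (9 / 10) ^ n := by
    intro n
    induction n with
    | zero => simp
    | succ n ih => rw [Finset.sum_range_succ, ih, pow_succ]; ring
  rw [h1]
  have : (0 : ℝ) ≤ (9 / 10) ^ A := by positivity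
  linarith

theorem altv_le {D : TD 𝕜} (h : HasChains D) (a : ℕ) (ε : ℝ) (hε : 0 ≤ ε) (r : ℕ)
    (k e : ℕ → ℕ) (hk : ∀ i i', i < i' → i' < 2 * r → k i < k i')
    (hek : ∀ i < 2 * r, e i ≤ k i) (hee : ∀ l < r, e (2 * l) = e (2 * l + 1))
    (h1 : ∑ i ∈ Finset.range (2 * r), (1 / 4 : ℝ) ^ e i = 1)
    (hs : ∀ I : Finset ℕ, (∀ i ∈ I, i < 2 * r) → Cls D.p k a I →
      ∑ i ∈ I, (1 / 4 : ℝ) ^ e i ≤ ε) (u : ℕ) (F : D.Fm) :
    F.val (altv h k e (2 * r) u) ≤ 90 * ε + 80 * (1 / 4) ^ k 0 + 30 * (9 / 10) ^ (a + 1) := by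
  classical
  set x := altv h k e (2 * r) u with hx
  set C : ℝ := 5 * ε + 8 * (1 / 4) ^ k 0 with hC
  have hC0 : 0 ≤ C := by positivity
  have hnorm : ∑ k' ∈ (Finset.range (2 * r)).image k, ‖x k'‖ ^ 2 = 1 := by
    rw [Finset.sum_image, ← h1]
    · refine Finset.sum_congr rfl fun i hi => ?_
      rw [hx, alt_norm h k e (2 * r) hk hek u i (Finset.mem_range.mp hi)]
    · intro i hi j hj hij
      exact alt_k_inj k (2 * r) hk (Finset.mem_range.mp hi) (Finset.mem_range.mp hj) hij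
  have hq : ∀ l < F.A, D.q (F.B l) (F.SS l) x ≤ C + if a < l then 3 else 0 := by
    intro l hl
    split_ifs with h2
    · have h3 := q_le D (F.fam l hl) ((Finset.range (2 * r)).image k) x (by
        intro k' hk'
        rw [hx]
        refine alt_zero h k e (2 * r) u k' ?_
        rintro i hi rfl
        exact hk' (Finset.mem_image.mpr ⟨i, Finset.mem_range.mpr hi, rfl⟩))
      rw [hnorm] at h3
      linarith
    · rw [add_zero]
      exact alt_fam h k e r hk hek hee u (not_lt.mp h2) ε hs (F.fam l hl)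
  have h2 : F.val x ≤ ∑ l ∈ Finset.range F.A, ((9 / 10 : ℝ) ^ l * C +
      3 * (if a < l then (9 / 10 : ℝ) ^ l else 0)) := by
    unfold TD.Fm.val
    refine Finset.sum_le_sum fun l hl => ?_
    have h3 := mul_le_mul_of_nonneg_left (hq l (Finset.mem_range.mp hl))
      (by positivity : (0 : ℝ) ≤ (9 / 10) ^ l)
    refine h3.trans (le_of_eq ?_)
    split_ifs <;> ring
  rw [Finset.sum_add_distrib, ← Finset.sum_mul, ← Finset.mul_sum, alt_geo910] at h2
  have h3 := alt_geo910' F.A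
  have h4 : (0 : ℝ) ≤ (9 / 10) ^ (max F.A (a + 1)) := by positivity
  have h5 := mul_le_mul_of_nonneg_right h3 hC0
  have h6 : 10 * C ≤ 90 * ε + 80 * (1 / 4) ^ k 0 := by
    rw [hC]; linarith
  linarith

end Pool.Agent.WH
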