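import Pool.Agent.WH.Base

set_option autoImplicit false

open Filter Topology

namespace Pool.Agent.WH

variable {𝕜 : Type} [RCLike 𝕜]

/-- labels of the branch -/
def lbl (k e : ℕ → ℕ) : ℕ → List (ℕ × ℕ)
  | 0 => [(k 0, e 0)]
  | i + 1 => (k (i + 1), e (i + 1)) :: lbl k e i

/-- nodes of the branch -/
noncomputable def brn {D : TD 𝕜} (h : HasChains D) (k e : ℕ → ℕ) (u i : ℕ) : D.Nd :=
  h.nd (lbl k e i) (u % D.n (k i))

/-- the alternating vector -/
noncomputable def altv {D : TD 𝕜} (h : HasChains D) (k e : ℕ → ℕ) (r u : ℕ) : D.V := fun j =>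
  ∑ i ∈ Finset.range r, if k i = j then
    (((-1) ^ i * (1 / 2) ^ e i : ℝ) : 𝕜) • D.vec (brn h k e u i) j else 0

end Pool.Agent.WH
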