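import Pool.Agent.WH.AltDefs

/-!
Project WH (MP_a9f751_an), row WH-17: the normalised traces and the average over the branches.
-/

set_option autoImplicit false

open Filter Topology

namespace Pool.Agent.WH

variable {𝕜 : Type} [RCLike 𝕜]

/-- normalised trace of the diagonal block `k` -/
noncomputable def phi (D : TD 𝕜) {X : Type} [NormedAddCommGroup X] [NormedSpace 𝕜 X]
    (c : X →ₗ[𝕜] D.V) (ι : (k : ℕ) → EuclideanSpace 𝕜 (Fin (D.n k)) →ₗ[𝕜] X) (k : ℕ)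
    (T : X →L[𝕜] X) : 𝕜 :=
  ((D.n k : 𝕜))⁻¹ * ∑ i : Fin (D.n k), c (T (ι k (EuclideanSpace.single i 1))) k i

/-! ### sums over residues -/

theorem w17_sum_mod {M : Type} [AddCommMonoid M] (f : ℕ → M) (m p : ℕ) :
    ∑ u ∈ Finset.range (m * p), f (u % m) = p • ∑ a ∈ Finset.range m, f a := by
  induction p with
  | zero => simp
  | succ p ih =>
    rw [Nat.mul_succ, Finset.sum_range_add, ih, succ_nsmul]
    congr 1
    refine Finset.sum_congr rfl fun x hx => ?_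
    rw [Nat.mul_add_mod, Nat.mod_eq_of_lt (Finset.mem_range.1 hx)]

theorem w17_sum_grid {M : Type} [AddCommMonoid M] (g : ℕ → M) (m q : ℕ) :
    ∑ b ∈ Finset.range (m * q), g b =
      ∑ a ∈ Finset.range m, ∑ s ∈ Finset.range q, g (a + m * s) := by
  induction q with
  | zero => simp
  | succ q ih =>
    rw [Nat.mul_succ, Finset.sum_range_add, ih, ← Finset.sum_add_distrib]
    refine Finset.sum_congr rfl fun x _ => ?_
    rw [Finset.sum_range_succ, add_comm (m * q) x]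

theorem w17_norm_sum {E : Type} [NormedAddCommGroup E] [InnerProductSpace 𝕜 E] (w : ℕ → E)
    (q : ℕ) (hw : ∀ s < q, ∀ s' < q, (inner 𝕜 (w s) (w s') : 𝕜) = if s = s' then 1 else 0) :
    ‖∑ s ∈ Finset.range q, w s‖ = Real.sqrt q := by
  have h1 : (inner 𝕜 (∑ s ∈ Finset.range q, w s) (∑ s ∈ Finset.range q, w s) : 𝕜) = (q : 𝕜) := by
    rw [sum_inner]
    have : ∀ s ∈ Finset.range q,
        (inner 𝕜 (w s) (∑ s' ∈ Finset.range q, w s') : 𝕜) = 1 := by
      intro s hs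
      rw [inner_sum]
      rw [Finset.sum_eq_single s]
      · rw [hw s (Finset.mem_range.1 hs) s (Finset.mem_range.1 hs), if_pos rfl]
      · intro s' hs' hne
        rw [hw s (Finset.mem_range.1 hs) s' (Finset.mem_range.1 hs'), if_neg (Ne.symm hne)]
      · intro h; exact absurd hs h
    rw [Finset.sum_congr rfl this]
    simp
  have h2 : ‖∑ s ∈ Finset.range q, w s‖ ^ 2 = (q : ℝ) := by
    have h3 := inner_self_eq_norm_sq_to_K (𝕜 := 𝕜) (∑ s ∈ Finset.range q, w s)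
    rw [h1] at h3
    have h4 : ((q : ℝ) : 𝕜) = ((‖∑ s ∈ Finset.range q, w s‖ ^ 2 : ℝ) : 𝕜) := by
      push_cast
      exact h3
    exact (RCLike.ofReal_injective h4).symm
  rw [← h2, Real.sqrt_sq (norm_nonneg _)]

/-- the average of a bilinear expression in which the finer index runs over orthonormal
vectors -/
theorem w17_avg {E : Type} [NormedAddCommGroup E] [InnerProductSpace 𝕜 E] (G : ℕ → E →+ 𝕜)
    (w : ℕ → E) (m q p : ℕ) (C : ℝ) (hG : ∀ a < m, ∀ v, ‖G a v‖ ≤ C * ‖v‖)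
    (hw : ∀ s < m * q, ∀ s' < m * q, (inner 𝕜 (w s) (w s') : 𝕜) = if s = s' then 1 else 0) :
    ‖∑ u ∈ Finset.range (m * q * p), G (u % m) (w (u % (m * q)))‖ ≤
      (p : ℝ) * ((m : ℝ) * (C * Real.sqrt q)) := by
  have h1 : ∑ u ∈ Finset.range (m * q * p), G (u % m) (w (u % (m * q))) =
      p • ∑ b ∈ Finset.range (m * q), G (b % m) (w b) := by
    rw [← w17_sum_mod (fun b => G (b % m) (w b)) (m * q) p]
    refine Finset.sum_congr rfl fun u _ => ?_
    rw [Nat.mod_mul_right_mod]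
  rw [h1, w17_sum_grid, nsmul_eq_mul, norm_mul, RCLike.norm_natCast]
  refine mul_le_mul_of_nonneg_left ?_ (Nat.cast_nonneg p)
  have h2 : ∀ a ∈ Finset.range m,
      ‖∑ s ∈ Finset.range q, G ((a + m * s) % m) (w (a + m * s))‖ ≤ C * Real.sqrt q := by
    intro a ha
    have ha' := Finset.mem_range.1 ha
    have h3 : ∑ s ∈ Finset.range q, G ((a + m * s) % m) (w (a + m * s)) =
        G a (∑ s ∈ Finset.range q, w (a + m * s)) := by
      rw [map_sum]
      refine Finset.sum_congr rfl fun s _ => ?_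
      rw [Nat.add_mul_mod_self_left, Nat.mod_eq_of_lt ha']
    rw [h3]
    refine (hG a ha' _).trans ?_
    rw [w17_norm_sum (𝕜 := 𝕜) (fun s => w (a + m * s)) q ?_]
    intro s hs s' hs'
    have hm : 0 < m := by omega
    have h4 : ∀ s < q, a + m * s < m * q := by
      intro s hs
      calc a + m * s < m + m * s := by omega
        _ = m * (s + 1) := by ring
        _ ≤ m * q := Nat.mul_le_mul_left m hs
    rw [hw _ (h4 s hs) _ (h4 s' hs')]
    congr 1
    simp [hm.ne']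
  refine (norm_sum_le _ _).trans ((Finset.sum_le_sum h2).trans ?_)
  rw [Finset.sum_const, Finset.card_range, nsmul_eq_mul]

/-- the trace in an orthonormal family indexed by `range n` -/
theorem w17_trace {n : ℕ} (A : EuclideanSpace 𝕜 (Fin n) →ₗ[𝕜] EuclideanSpace 𝕜 (Fin n))
    (w : ℕ → EuclideanSpace 𝕜 (Fin n))
    (hw : ∀ s < n, ∀ s' < n, (inner 𝕜 (w s) (w s') : 𝕜) = if s = s' then 1 else 0) :
    ∑ a ∈ Finset.range n, (inner 𝕜 (w a) (A (w a)) : 𝕜) =
      ∑ i : Fin n, A (EuclideanSpace.single i 1) i := by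
  classical
  have ho : Orthonormal 𝕜 (fun i : Fin n => w i) := by
    rw [orthonormal_iff_ite]
    intro i j
    rw [hw i i.2 j j.2]
    simp [Fin.ext_iff]
  have ho' : Orthonormal 𝕜 ((Set.univ : Set (Fin n)).domRestrict (fun i : Fin n => w i)) :=
    ho.comp _ Subtype.val_injective
  obtain ⟨b, hb⟩ := ho'.exists_orthonormalBasis_extension_of_card_eq (by simp)
  have h1 := LinearMap.trace_eq_sum_inner A b
  have h2 := LinearMap.trace_eq_sum_inner A (EuclideanSpace.basisFun (Fin n) 𝕜)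
  rw [h1] at h2
  rw [Finset.sum_range]
  have h3 : ∑ i : Fin n, (inner 𝕜 (b i) (A (b i)) : 𝕜) =
      ∑ i : Fin n, (inner 𝕜 (w i) (A (w i)) : 𝕜) :=
    Finset.sum_congr rfl fun i _ => by rw [hb i (Set.mem_univ i)]
  rw [← h3, h2]
  refine Finset.sum_congr rfl fun i _ => ?_
  rw [EuclideanSpace.basisFun_apply, EuclideanSpace.inner_single_left]
  simp

/-! ### the branch -/

section
variable {k e : ℕ → ℕ} {r : ℕ}

theorem w17_lbl (k e : ℕ → ℕ) (i : ℕ) : ∃ s, lbl k e i = (k i, e i) :: s := by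
  cases i with
  | zero => exact ⟨_, rfl⟩
  | succ i => exact ⟨_, rfl⟩

theorem w17_mem (k e : ℕ → ℕ) (i : ℕ) : ∀ a ∈ lbl k e i, ∃ j ≤ i, a = (k j, e j) := by
  induction i with
  | zero =>
    intro a ha
    rw [lbl, List.mem_singleton] at ha
    exact ⟨0, le_rfl, ha⟩
  | succ i ih =>
    intro a ha
    rw [lbl, List.mem_cons] at ha
    rcases ha with ha | ha
    · exact ⟨i + 1, le_rfl, ha⟩
    · obtain ⟨j, hj, h⟩ := ih a ha
      exact ⟨j, by omega, h⟩

theorem w17_vld (hk : ∀ i i', i < i' → i' < r → k i < k i') (hek : ∀ i < r, e i ≤ k i) (i : ℕ)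
    (hi : i < r) : Vld (lbl k e i) := by
  induction i with
  | zero =>
    refine ⟨?_, ?_⟩
    · rw [lbl]; exact List.pairwise_singleton _ _
    · intro a ha
      rw [lbl, List.mem_singleton] at ha
      rw [ha]; exact hek 0 hi
  | succ i ih =>
    obtain ⟨h1, h2⟩ := ih (by omega)
    refine ⟨?_, ?_⟩
    · rw [lbl, List.pairwise_cons]
      refine ⟨?_, h1⟩
      intro a ha
      obtain ⟨j, hj, h⟩ := w17_mem k e i a ha
      rw [h]
      exact hk j (i + 1) (by omega) hi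
    · intro a ha
      rw [lbl, List.mem_cons] at ha
      rcases ha with ha | ha
      · rw [ha]; exact hek (i + 1) hi
      · exact h2 a ha

variable {D : TD 𝕜} (h : HasChains D)

theorem w17_b (hk : ∀ i i', i < i' → i' < r → k i < k i') (hek : ∀ i < r, e i ≤ k i) (u i : ℕ)
    (hi : i < r) : D.b (brn h k e u i) = k i := by
  obtain ⟨s, hs⟩ := w17_lbl k e i
  have hv := w17_vld hk hek i hi
  rw [hs] at hv
  rw [brn, hs]
  exact h.b_nd _ _ _ _ hv (Nat.mod_lt _ (h.n_pos _))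

theorem w17_al (hk : ∀ i i', i < i' → i' < r → k i < k i') (hek : ∀ i < r, e i ≤ k i) (u i : ℕ)
    (hi : i < r) : D.al (brn h k e u i) = (1 / 2) ^ e i := by
  obtain ⟨s, hs⟩ := w17_lbl k e i
  have hv := w17_vld hk hek i hi
  rw [hs] at hv
  rw [brn, hs]
  exact h.al_nd _ _ _ _ hv (Nat.mod_lt _ (h.n_pos _))

theorem w17_par (hk : ∀ i i', i < i' → i' < r → k i < k i') (hek : ∀ i < r, e i ≤ k i) (u i : ℕ)
    (hi : i + 1 < r) : D.par (brn h k e u (i + 1)) = some (brn h k e u i) := by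
  obtain ⟨s, hs⟩ := w17_lbl k e i
  have hv := w17_vld hk hek (i + 1) hi
  rw [brn, brn, hs]
  rw [lbl, hs] at hv ⊢
  rw [h.par_nd _ _ _ _ _ _ hv (Nat.mod_lt _ (h.n_pos _)),
    Nat.mod_mod_of_dvd _ (h.n_dvd _ _ (hk i (i + 1) (by omega) hi))]

theorem w17_inj (hk : ∀ i i', i < i' → i' < r → k i < k i') (hek : ∀ i < r, e i ≤ k i) (u : ℕ)
    {i j : ℕ} (hi : i < r) (hj : j < r) (hb : D.b (brn h k e u i) = D.b (brn h k e u j)) :
    i = j := by
  rw [w17_b h hk hek u i hi, w17_b h hk hek u j hj] at hb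
  rcases lt_trichotomy i j with h1 | h1 | h1
  · have := hk i j h1 hj; omega
  · exact h1
  · have := hk j i h1 hi; omega

include h in
theorem w17_dvd (hk : ∀ i i', i < i' → i' < r → k i < k i') {i j : ℕ} (hij : i ≤ j)
    (hj : j < r) : D.n (k i) ∣ D.n (k j) := by
  rcases eq_or_lt_of_le hij with h1 | h1
  · rw [h1]
  · exact h.n_dvd _ _ (hk i j h1 hj)

/-- the norm dominates the functional of the branch -/
theorem w17_seg {X : Type} [NormedAddCommGroup X] [NormedSpace 𝕜 X] (c : X →ₗ[𝕜] D.V)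
    (hc : D.IsModel X c) (hr : 0 < r) (hk : ∀ i i', i < i' → i' < r → k i < k i')
    (hek : ∀ i < r, e i ≤ k i) (h1 : ∑ i ∈ Finset.range r, (1 / 4 : ℝ) ^ e i = 1) (u : ℕ)
    (x : X) :
    ‖∑ i ∈ Finset.range r, (((1 / 2) ^ e i : ℝ) : 𝕜) *
      (inner 𝕜 (D.vec (brn h k e u i) (k i)) (c x (k i)) : 𝕜)‖ ≤ ‖x‖ := by
  classical
  set S : Finset D.Nd := (Finset.range r).image (brn h k e u) with hS
  have hinj : Set.InjOn (brn h k e u) (Finset.range r : Set ℕ) := by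
    intro i hi j hj hij
    exact w17_inj h hk hek u (by simpa using hi) (by simpa using hj) (by rw [hij])
  have hmem : ∀ t, t ∈ S ↔ ∃ i < r, brn h k e u i = t := by
    intro t
    rw [hS, Finset.mem_image]
    constructor
    · rintro ⟨i, hi, hh⟩; exact ⟨i, Finset.mem_range.1 hi, hh⟩
    · rintro ⟨i, hi, hh⟩; exact ⟨i, Finset.mem_range.2 hi, hh⟩
  have hfam : D.IsFam 0 ∅ {S} := by
    refine ⟨?_, ?_, ?_, ?_, ?_⟩
    · intro S' hS'
      rw [Finset.mem_singleton] at hS'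
      subst hS'
      refine ⟨r - 1, brn h k e u, fun i hi => w17_par h hk hek u i (by omega), fun t => ?_⟩
      rw [hmem]
      constructor
      · rintro ⟨i, hi, hh⟩; exact ⟨i, by omega, hh⟩
      · rintro ⟨i, hi, hh⟩; exact ⟨i, by omega, hh⟩
    · intro S1 hS1 S2 hS2 t _ _
      rw [Finset.mem_singleton] at hS1 hS2
      rw [hS1, hS2]
    · intro j A hA
      refine le_trans (Finset.card_le_one.2 ?_) (by omega)
      intro t ht t' ht'
      obtain ⟨hb, S1, hS1, h2⟩ := hA t ht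
      obtain ⟨hb', S2, hS2, h2'⟩ := hA t' ht'
      rw [Finset.mem_singleton] at hS1 hS2
      rw [hS1, hmem] at h2
      rw [hS2, hmem] at h2'
      obtain ⟨i, hi, rfl⟩ := h2
      obtain ⟨i', hi', rfl⟩ := h2'
      rw [w17_inj h hk hek u hi hi' (hb.trans hb'.symm)]
    · show (∅ : Finset ℕ).card ≤ 1
      simp
    · show ({S} : Finset (Finset D.Nd)).card ≤ 1
      simp
  let F : D.Fm := ⟨1, fun _ => ∅, fun _ => {S}, fun a ha => by
    have : a = 0 := by omega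
    subst this
    exact hfam⟩
  have hF := hc.le F x
  have hval : F.val (c x) = D.qS S (c x) := by
    show ∑ a ∈ Finset.range 1, (9 / 10 : ℝ) ^ a * D.q ∅ {S} (c x) = _
    rw [Finset.sum_range_one, pow_zero, one_mul, TD.q, Finset.sum_empty, zero_add,
      Finset.sum_singleton]
  have hal : ∑ t ∈ S, D.al t ^ 2 = 1 := by
    rw [hS, Finset.sum_image hinj, ← h1]
    refine Finset.sum_congr rfl fun i hi => ?_
    rw [w17_al h hk hek u i (Finset.mem_range.1 hi), ← pow_mul, mul_comm, pow_mul]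
    norm_num
  have hsum : ∑ t ∈ S, (D.al t : 𝕜) * D.coef t (c x) = ∑ i ∈ Finset.range r,
      (((1 / 2) ^ e i : ℝ) : 𝕜) *
        (inner 𝕜 (D.vec (brn h k e u i) (k i)) (c x (k i)) : 𝕜) := by
    rw [hS, Finset.sum_image hinj]
    refine Finset.sum_congr rfl fun i hi => ?_
    rw [w17_al h hk hek u i (Finset.mem_range.1 hi), TD.coef,
      w17_b h hk hek u i (Finset.mem_range.1 hi)]
  rw [hval, TD.qS, hal, div_one, hsum] at hF
  exact (sq_le_sq₀ (norm_nonneg _) (norm_nonneg _)).1 hF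

/-- the norm dominates the norms of the coordinates -/
theorem w17_blk {X : Type} [NormedAddCommGroup X] [NormedSpace 𝕜 X] (c : X →ₗ[𝕜] D.V)
    (hc : D.IsModel X c) (j : ℕ) (x : X) : ‖c x j‖ ≤ ‖x‖ := by
  have hfam : D.IsFam 0 {j} ∅ := by
    refine ⟨?_, ?_, ?_, ?_, ?_⟩
    · intro S hS; simp at hS
    · intro S hS; simp at hS
    · intro i A hA
      have : A = ∅ := by
        rw [Finset.eq_empty_iff_forall_notMem]
        intro t ht
        obtain ⟨_, S, hS, _⟩ := hA t ht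
        simp at hS
      rw [this]; simp
    · show ({j} : Finset ℕ).card ≤ 1
      simp
    · show (∅ : Finset (Finset D.Nd)).card ≤ 1
      simp
  let F : D.Fm := ⟨1, fun _ => {j}, fun _ => ∅, fun a ha => by
    have : a = 0 := by omega
    subst this
    exact hfam⟩
  have hF := hc.le F x
  have hval : F.val (c x) = ‖c x j‖ ^ 2 := by
    show ∑ a ∈ Finset.range 1, (9 / 10 : ℝ) ^ a * D.q {j} ∅ (c x) = _
    rw [Finset.sum_range_one, pow_zero, one_mul, TD.q, Finset.sum_empty, add_zero,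
      Finset.sum_singleton]
  rw [hval] at hF
  exact (sq_le_sq₀ (norm_nonneg _) (norm_nonneg _)).1 hF


/-- the alternating vector as an element of the space -/
theorem w17_vec {X : Type} [NormedAddCommGroup X] [NormedSpace 𝕜 X] (c : X →ₗ[𝕜] D.V)
    (hc : D.IsModel X c) (ι : (k : ℕ) → EuclideanSpace 𝕜 (Fin (D.n k)) →ₗ[𝕜] X)
    (hι : ∀ k v, c (ι k v) = Pi.single k v) (E : ℝ) (hE : 0 ≤ E) (u : ℕ)
    (hF : ∀ F : D.Fm, F.val (altv h k e r u) ≤ E ^ 2) :
    ‖∑ i ∈ Finset.range r, (((-1) ^ i * (1 / 2) ^ e i : ℝ) : 𝕜) •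
      ι (k i) (D.vec (brn h k e u i) (k i))‖ ≤ E := by
  set x := ∑ i ∈ Finset.range r, (((-1) ^ i * (1 / 2) ^ e i : ℝ) : 𝕜) •
      ι (k i) (D.vec (brn h k e u i) (k i)) with hx
  have hcx : c x = altv h k e r u := by
    funext j
    rw [hx, map_sum, Finset.sum_apply, altv]
    refine Finset.sum_congr rfl fun i _ => ?_
    rw [map_smul, hι, Pi.smul_apply]
    by_cases hj : k i = j
    · subst hj
      rw [if_pos rfl, Pi.single_eq_same]
    · rw [if_neg hj, Pi.single_eq_of_ne (Ne.symm hj), smul_zero]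
  by_contra hcon
  push Not at hcon
  obtain ⟨F, hF1⟩ := hc.ge x (E ^ 2) (by nlinarith)
  rw [hcx] at hF1
  exact absurd (hF F) (not_le.2 hF1)

end

theorem w17_sqrt (q a b : ℕ) (hab : a ≤ b) (hq : 16 ^ b ≤ q) :
    Real.sqrt q ≤ (q : ℝ) * ((1 / 2) ^ a * (1 / 2) ^ b) := by
  have h1 : (4 : ℝ) ^ b ≤ Real.sqrt q := by
    refine Real.le_sqrt_of_sq_le ?_
    rw [← pow_mul, mul_comm, pow_mul]
    norm_num
    exact_mod_cast hq
  have h2 : Real.sqrt q * Real.sqrt q = q := Real.mul_self_sqrt (Nat.cast_nonneg q)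
  have h3 : (1 / 4 : ℝ) ^ b ≤ (1 / 2) ^ a * (1 / 2) ^ b := by
    have : (1 / 4 : ℝ) ^ b = (1 / 2) ^ b * (1 / 2) ^ b := by
      rw [← mul_pow]; norm_num
    rw [this]
    exact mul_le_mul_of_nonneg_right (pow_le_pow_of_le_one (by norm_num) (by norm_num) hab)
      (by positivity)
  have h4 : (1 / 4 : ℝ) ^ b * 4 ^ b = 1 := by
    rw [← mul_pow]; norm_num
  calc Real.sqrt q = Real.sqrt q * ((1 / 4 : ℝ) ^ b * 4 ^ b) := by rw [h4, mul_one]
    _ ≤ Real.sqrt q * ((1 / 4 : ℝ) ^ b * Real.sqrt q) := by gcongr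
    _ = (Real.sqrt q * Real.sqrt q) * (1 / 4 : ℝ) ^ b := by ring
    _ = q * (1 / 4 : ℝ) ^ b := by rw [h2]
    _ ≤ _ := by gcongr

theorem w17_geo {k : ℕ → ℕ} {r : ℕ} (hk : ∀ i i', i < i' → i' < r → k i < k i') :
    ∑ i ∈ Finset.range r, (1 / 2 : ℝ) ^ k i ≤ 2 * (1 / 2) ^ k 0 := by
  have h1 : ∀ i < r, k 0 + i ≤ k i := by
    intro i hi
    induction i with
    | zero => omega
    | succ i ih =>
      have := ih (by omega)
      have := hk i (i + 1) (by omega) hi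
      omega
  have h2 : ∑ i ∈ Finset.range r, (1 / 2 : ℝ) ^ k i ≤
      ∑ i ∈ Finset.range r, (1 / 2 : ℝ) ^ k 0 * (1 / 2) ^ i := by
    refine Finset.sum_le_sum fun i hi => ?_
    rw [← pow_add]
    exact pow_le_pow_of_le_one (by norm_num) (by norm_num) (h1 i (Finset.mem_range.1 hi))
  refine h2.trans ?_
  rw [← Finset.mul_sum, mul_comm]
  have h3 : ∀ r : ℕ, ∑ i ∈ Finset.range r, (1 / 2 : ℝ) ^ i = 2 - 2 * (1 / 2) ^ r := by
    intro r
    induction r with
    | zero => simp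
    | succ r ih => rw [Finset.sum_range_succ, ih, pow_succ]; ring
  rw [h3]
  refine mul_le_mul_of_nonneg_right ?_ (by positivity)
  have : (0 : ℝ) ≤ (1 / 2) ^ r := by positivity
  linarith

theorem average {D : TD 𝕜} (h : HasChains D) {X : Type} [NormedAddCommGroup X]
    [NormedSpace 𝕜 X] (c : X →ₗ[𝕜] D.V) (hc : D.IsModel X c)
    (ι : (k : ℕ) → EuclideanSpace 𝕜 (Fin (D.n k)) →ₗ[𝕜] X)
    (hι : ∀ k v, c (ι k v) = Pi.single k v) (hι' : ∀ k v, ‖ι k v‖ ≤ 6 * ‖v‖)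
    (r : ℕ) (hr : 0 < r) (k e : ℕ → ℕ) (hk : ∀ i i', i < i' → i' < r → k i < k i')
    (hek : ∀ i < r, e i ≤ k i) (h1 : ∑ i ∈ Finset.range r, (1 / 4 : ℝ) ^ e i = 1)
    (E : ℝ) (hE : 0 ≤ E) (hF : ∀ (u : ℕ) (F : D.Fm), F.val (altv h k e r u) ≤ E ^ 2)
    (T : X →L[𝕜] X) :
    ‖∑ i ∈ Finset.range r, (((-1) ^ i * (1 / 4) ^ e i : ℝ) : 𝕜) * phi D c ι (k i) T‖ ≤
      ‖T‖ * (E + 24 * (1 / 2) ^ k 0) := by
  classical
  set N := D.n (k (r - 1)) with hN
  have hNpos : 0 < N := h.n_pos _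
  -- the vectors
  let w : (i : ℕ) → ℕ → EuclideanSpace 𝕜 (Fin (D.n (k i))) := fun i a =>
    D.vec (h.nd (lbl k e i) a) (k i)
  have hw : ∀ i < r, ∀ s < D.n (k i), ∀ s' < D.n (k i),
      (inner 𝕜 (w i s) (w i s') : 𝕜) = if s = s' then 1 else 0 := by
    intro i hi s hs s' hs'
    obtain ⟨t, ht⟩ := w17_lbl k e i
    have hv := w17_vld hk hek i hi
    show (inner 𝕜 (D.vec (h.nd (lbl k e i) s) (k i)) (D.vec (h.nd (lbl k e i) s') (k i)) : 𝕜) = _
    rw [ht] at hv ⊢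
    exact h.ortho _ _ _ _ _ hv hs hs'
  have hw1 : ∀ i < r, ∀ s < D.n (k i), ‖w i s‖ = 1 := by
    intro i hi s hs
    have h2 := inner_self_eq_norm_sq_to_K (𝕜 := 𝕜) (w i s)
    rw [hw i hi s hs s hs, if_pos rfl] at h2
    have h3 : ((1 : ℝ) : 𝕜) = ((‖w i s‖ ^ 2 : ℝ) : 𝕜) := by
      push_cast
      exact h2
    have h4 : (1 : ℝ) = ‖w i s‖ ^ 2 := RCLike.ofReal_injective h3
    nlinarith [norm_nonneg (w i s)]
  -- the blocks of the operator
  let A : (i j : ℕ) → EuclideanSpace 𝕜 (Fin (D.n (k j))) →ₗ[𝕜]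
      EuclideanSpace 𝕜 (Fin (D.n (k i))) := fun i j =>
    (LinearMap.proj (R := 𝕜) (φ := fun l => EuclideanSpace 𝕜 (Fin (D.n l))) (k i)) ∘ₗ c ∘ₗ
      (T : X →ₗ[𝕜] X) ∘ₗ ι (k j)
  have hA0 : ∀ i j v, A i j v = c (T (ι (k j) v)) (k i) := fun i j v => rfl
  have hA : ∀ i j v, ‖A i j v‖ ≤ 6 * ‖T‖ * ‖v‖ := by
    intro i j v
    rw [hA0]
    calc ‖c (T (ι (k j) v)) (k i)‖ ≤ ‖T (ι (k j) v)‖ := w17_blk c hc _ _
      _ ≤ ‖T‖ * ‖ι (k j) v‖ := T.le_opNorm _
      _ ≤ ‖T‖ * (6 * ‖v‖) := mul_le_mul_of_nonneg_left (hι' _ _) (norm_nonneg _)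
      _ = 6 * ‖T‖ * ‖v‖ := by ring
  let S : ℕ → ℕ → 𝕜 := fun i j => ∑ u ∈ Finset.range N,
    (inner 𝕜 (w i (u % D.n (k i))) (A i j (w j (u % D.n (k j)))) : 𝕜)
  have hSd : ∀ i < r, S i i = (N : 𝕜) * phi D c ι (k i) T := by
    intro i hi
    obtain ⟨p, hp⟩ := w17_dvd h hk (i := i) (j := r - 1) (by omega) (by omega)
    have h2 := w17_sum_mod (fun a => (inner 𝕜 (w i a) (A i i (w i a)) : 𝕜)) (D.n (k i)) p
    rw [← hp, ← hN] at h2
    show ∑ u ∈ Finset.range N,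
      (inner 𝕜 (w i (u % D.n (k i))) (A i i (w i (u % D.n (k i)))) : 𝕜) = _
    rw [h2, w17_trace (A i i) (w i) (hw i hi), phi, nsmul_eq_mul]
    have h3 : (N : 𝕜) = (D.n (k i) : 𝕜) * p := by
      rw [hN, hp]; push_cast; ring
    have h4 : (D.n (k i) : 𝕜) ≠ 0 := by
      exact_mod_cast (h.n_pos (k i)).ne'
    rw [h3, ← mul_assoc, mul_comm ((D.n (k i) : 𝕜)) (p : 𝕜), mul_assoc (p : 𝕜),
      mul_inv_cancel₀ h4, mul_one]
    rfl
  have hSo : ∀ i < r, ∀ j < r, i ≠ j →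
      ‖S i j‖ ≤ (N : ℝ) * (6 * ‖T‖) * ((1 / 2) ^ k i * (1 / 2) ^ k j) := by
    intro i hi j hj hij
    rcases lt_or_gt_of_ne hij with hlt | hlt
    · -- `i < j`
      obtain ⟨q, hq⟩ := h.n_dvd _ _ (hk i j hlt hj)
      obtain ⟨p, hp⟩ := w17_dvd h hk (i := j) (j := r - 1) (by omega) (by omega)
      let G : ℕ → EuclideanSpace 𝕜 (Fin (D.n (k j))) →+ 𝕜 := fun a =>
        AddMonoidHom.mk' (fun v => (inner 𝕜 (w i a) (A i j v) : 𝕜)) fun v v' => by
          rw [map_add, inner_add_right]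
      have h2 := w17_avg (𝕜 := 𝕜) G (w j) (D.n (k i)) q p (6 * ‖T‖) ?_ ?_
      · have h3 : S i j = ∑ u ∈ Finset.range (D.n (k i) * q * p),
            G (u % D.n (k i)) (w j (u % (D.n (k i) * q))) := by
          rw [← hq, ← hp]
          rfl
        rw [h3]
        refine h2.trans ?_
        have h4 : 16 ^ k j ≤ q := by
          have h5 := h.n_ratio _ _ (hk i j hlt hj)
          rw [hq] at h5
          have h6 : (0 : ℝ) < D.n (k i) := by exact_mod_cast h.n_pos (k i)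
          push_cast at h5
          have h7 := le_of_mul_le_mul_left h5 h6
          exact_mod_cast h7
        have h5 := w17_sqrt q (k i) (k j) (hk i j hlt hj).le h4
        have h6 : (N : ℝ) = D.n (k i) * q * p := by
          rw [hN, hp, hq]; push_cast; ring
        rw [h6]
        calc (p : ℝ) * ((D.n (k i) : ℝ) * (6 * ‖T‖ * Real.sqrt q))
            ≤ (p : ℝ) * ((D.n (k i) : ℝ) * (6 * ‖T‖ *
              ((q : ℝ) * ((1 / 2) ^ k i * (1 / 2) ^ k j)))) := by gcongr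
          _ = _ := by ring
      · intro a ha v
        show ‖(inner 𝕜 (w i a) (A i j v) : 𝕜)‖ ≤ _
        refine (norm_inner_le_norm _ _).trans ?_
        rw [hw1 i hi a ha, one_mul]
        exact hA i j v
      · rw [← hq]
        exact hw j hj
    · -- `j < i`
      obtain ⟨q, hq⟩ := h.n_dvd _ _ (hk j i hlt hi)
      obtain ⟨p, hp⟩ := w17_dvd h hk (i := i) (j := r - 1) (by omega) (by omega)
      let G : ℕ → EuclideanSpace 𝕜 (Fin (D.n (k i))) →+ 𝕜 := fun a =>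
        AddMonoidHom.mk' (fun v => (inner 𝕜 v (A i j (w j a)) : 𝕜)) fun v v' => by
          rw [inner_add_left]
      have h2 := w17_avg (𝕜 := 𝕜) G (w i) (D.n (k j)) q p (6 * ‖T‖) ?_ ?_
      · have h3 : S i j = ∑ u ∈ Finset.range (D.n (k j) * q * p),
            G (u % D.n (k j)) (w i (u % (D.n (k j) * q))) := by
          rw [← hq, ← hp]
          rfl
        rw [h3]
        refine h2.trans ?_
        have h4 : 16 ^ k i ≤ q := by
          have h5 := h.n_ratio _ _ (hk j i hlt hi)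
          rw [hq] at h5
          have h6 : (0 : ℝ) < D.n (k j) := by exact_mod_cast h.n_pos (k j)
          push_cast at h5
          have h7 := le_of_mul_le_mul_left h5 h6
          exact_mod_cast h7
        have h5 := w17_sqrt q (k j) (k i) (hk j i hlt hi).le h4
        have h6 : (N : ℝ) = D.n (k j) * q * p := by
          rw [hN, hp, hq]; push_cast; ring
        rw [h6]
        calc (p : ℝ) * ((D.n (k j) : ℝ) * (6 * ‖T‖ * Real.sqrt q))
            ≤ (p : ℝ) * ((D.n (k j) : ℝ) * (6 * ‖T‖ *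
              ((q : ℝ) * ((1 / 2) ^ k j * (1 / 2) ^ k i)))) := by gcongr
          _ = _ := by ring
      · intro a ha v
        show ‖(inner 𝕜 v (A i j (w j a)) : 𝕜)‖ ≤ _
        refine (norm_inner_le_norm _ _).trans ?_
        rw [mul_comm]
        refine mul_le_mul_of_nonneg_right ?_ (norm_nonneg _)
        refine (hA i j _).trans ?_
        rw [hw1 j hj a ha, mul_one]
      · rw [← hq]
        exact hw i hi
  -- the alternating vectors
  let x : ℕ → X := fun u => ∑ i ∈ Finset.range r, (((-1) ^ i * (1 / 2) ^ e i : ℝ) : 𝕜) •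
      ι (k i) (D.vec (brn h k e u i) (k i))
  have hx : ∀ u, ‖x u‖ ≤ E := fun u => w17_vec h c hc ι hι E hE u (hF u)
  have hT : ∀ u, ‖∑ i ∈ Finset.range r, (((1 / 2) ^ e i : ℝ) : 𝕜) *
      (inner 𝕜 (D.vec (brn h k e u i) (k i)) (c (T (x u)) (k i)) : 𝕜)‖ ≤ ‖T‖ * E := by
    intro u
    refine (w17_seg h c hc hr hk hek h1 u (T (x u))).trans ?_
    exact (T.le_opNorm _).trans (mul_le_mul_of_nonneg_left (hx u) (norm_nonneg _))
  -- expansion
  have hexp : ∑ u ∈ Finset.range N, ∑ i ∈ Finset.range r, (((1 / 2) ^ e i : ℝ) : 𝕜) *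
      (inner 𝕜 (D.vec (brn h k e u i) (k i)) (c (T (x u)) (k i)) : 𝕜) =
      ∑ i ∈ Finset.range r, ∑ j ∈ Finset.range r, (((1 / 2) ^ e i : ℝ) : 𝕜) *
        ((((-1) ^ j * (1 / 2) ^ e j : ℝ) : 𝕜) * S i j) := by
    rw [Finset.sum_comm]
    refine Finset.sum_congr rfl fun i _ => ?_
    rw [← Finset.mul_sum, ← Finset.mul_sum]
    congr 1
    have h2 : ∀ u, (inner 𝕜 (D.vec (brn h k e u i) (k i)) (c (T (x u)) (k i)) : 𝕜) =
        ∑ j ∈ Finset.range r, (((-1) ^ j * (1 / 2) ^ e j : ℝ) : 𝕜) *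
          (inner 𝕜 (w i (u % D.n (k i))) (A i j (w j (u % D.n (k j)))) : 𝕜) := by
      intro u
      have h3 : c (T (x u)) (k i) = ∑ j ∈ Finset.range r,
          (((-1) ^ j * (1 / 2) ^ e j : ℝ) : 𝕜) • A i j (w j (u % D.n (k j))) := by
        show c (T (∑ i ∈ Finset.range r, (((-1) ^ i * (1 / 2) ^ e i : ℝ) : 𝕜) •
          ι (k i) (D.vec (brn h k e u i) (k i)))) (k i) = _
        rw [map_sum, map_sum, Finset.sum_apply]
        refine Finset.sum_congr rfl fun j _ => ?_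
        rw [map_smul, map_smul, Pi.smul_apply]
        rfl
      rw [h3, inner_sum]
      refine Finset.sum_congr rfl fun j _ => ?_
      rw [inner_smul_right]
      rfl
    rw [Finset.sum_congr rfl fun u _ => h2 u, Finset.sum_comm]
    refine Finset.sum_congr rfl fun j _ => ?_
    rw [← Finset.mul_sum]
  -- the diagonal and the rest
  have hsplit : ∑ i ∈ Finset.range r, ∑ j ∈ Finset.range r, (((1 / 2) ^ e i : ℝ) : 𝕜) *
        ((((-1) ^ j * (1 / 2) ^ e j : ℝ) : 𝕜) * S i j) =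
      (N : 𝕜) * ∑ i ∈ Finset.range r, (((-1) ^ i * (1 / 4) ^ e i : ℝ) : 𝕜) *
        phi D c ι (k i) T +
      ∑ i ∈ Finset.range r, ∑ j ∈ Finset.range r, if i = j then 0 else
        (((1 / 2) ^ e i : ℝ) : 𝕜) * ((((-1) ^ j * (1 / 2) ^ e j : ℝ) : 𝕜) * S i j) := by
    rw [Finset.mul_sum, ← Finset.sum_add_distrib]
    refine Finset.sum_congr rfl fun i hi => ?_
    have h2 : (N : 𝕜) * ((((-1) ^ i * (1 / 4) ^ e i : ℝ) : 𝕜) * phi D c ι (k i) T) =
        (((1 / 2) ^ e i : ℝ) : 𝕜) * ((((-1) ^ i * (1 / 2) ^ e i : ℝ) : 𝕜) * S i i) := by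
      rw [hSd i (Finset.mem_range.1 hi)]
      have h3 : ((-1) ^ i * (1 / 4) ^ e i : ℝ) = (1 / 2) ^ e i * ((-1) ^ i * (1 / 2) ^ e i) := by
        have : (1 / 4 : ℝ) ^ e i = (1 / 2) ^ e i * (1 / 2) ^ e i := by
          rw [← mul_pow]; norm_num
        rw [this]; ring
      rw [h3, RCLike.ofReal_mul]
      ring
    rw [h2, ← Finset.sum_erase_add _ _ hi, add_comm]
    congr 1
    rw [← Finset.sum_erase_add _ _ hi, if_pos rfl, add_zero]
    refine Finset.sum_congr rfl fun j hj => ?_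
    rw [if_neg (Finset.ne_of_mem_erase hj).symm]
  set P := ∑ i ∈ Finset.range r, (((-1) ^ i * (1 / 4) ^ e i : ℝ) : 𝕜) * phi D c ι (k i) T
    with hP
  set R := ∑ i ∈ Finset.range r, ∑ j ∈ Finset.range r, if i = j then (0 : 𝕜) else
        (((1 / 2) ^ e i : ℝ) : 𝕜) * ((((-1) ^ j * (1 / 2) ^ e j : ℝ) : 𝕜) * S i j) with hR
  have hal : ∀ i : ℕ, (0 : ℝ) ≤ (1 / 2) ^ e i ∧ ((1 / 2 : ℝ)) ^ e i ≤ 1 := fun i =>
    ⟨by positivity, pow_le_one₀ (by norm_num) (by norm_num)⟩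
  have hRn : ‖R‖ ≤ (N : ℝ) * (6 * ‖T‖) * (2 * (1 / 2) ^ k 0) ^ 2 := by
    have h2 : ‖R‖ ≤ ∑ i ∈ Finset.range r, ∑ j ∈ Finset.range r,
        (N : ℝ) * (6 * ‖T‖) * ((1 / 2) ^ k i * (1 / 2) ^ k j) := by
      refine (norm_sum_le _ _).trans (Finset.sum_le_sum fun i hi => ?_)
      refine (norm_sum_le _ _).trans (Finset.sum_le_sum fun j hj => ?_)
      by_cases hij : i = j
      · rw [if_pos hij, norm_zero]
        positivity
      · rw [if_neg hij, norm_mul, norm_mul, RCLike.norm_ofReal, RCLike.norm_ofReal]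
        have h3 := hSo i (Finset.mem_range.1 hi) j (Finset.mem_range.1 hj) hij
        have h4 : |(1 / 2 : ℝ) ^ e i| ≤ 1 := by
          rw [abs_of_nonneg (hal i).1]; exact (hal i).2
        have h5 : |(-1 : ℝ) ^ j * (1 / 2) ^ e j| ≤ 1 := by
          rw [abs_mul, abs_pow, abs_neg, abs_one, one_pow, one_mul, abs_of_nonneg (hal j).1]
          exact (hal j).2
        calc |(1 / 2 : ℝ) ^ e i| * (|(-1 : ℝ) ^ j * (1 / 2) ^ e j| * ‖S i j‖)
            ≤ 1 * (1 * ‖S i j‖) := by gcongr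
          _ ≤ _ := by rw [one_mul, one_mul]; exact h3
    refine h2.trans ?_
    have h3 : ∑ i ∈ Finset.range r, ∑ j ∈ Finset.range r,
        (N : ℝ) * (6 * ‖T‖) * ((1 / 2) ^ k i * (1 / 2) ^ k j) =
        (N : ℝ) * (6 * ‖T‖) * (∑ i ∈ Finset.range r, (1 / 2 : ℝ) ^ k i) ^ 2 := by
      rw [sq, Finset.sum_mul_sum, Finset.mul_sum]
      refine Finset.sum_congr rfl fun i _ => ?_
      rw [Finset.mul_sum]
    rw [h3]
    have h4 := w17_geo hk
    have h5 : (0 : ℝ) ≤ ∑ i ∈ Finset.range r, (1 / 2 : ℝ) ^ k i :=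
      Finset.sum_nonneg fun i _ => by positivity
    gcongr
  have htot : ‖∑ u ∈ Finset.range N, ∑ i ∈ Finset.range r, (((1 / 2) ^ e i : ℝ) : 𝕜) *
      (inner 𝕜 (D.vec (brn h k e u i) (k i)) (c (T (x u)) (k i)) : 𝕜)‖ ≤
      (N : ℝ) * (‖T‖ * E) := by
    refine (norm_sum_le _ _).trans ((Finset.sum_le_sum fun u _ => hT u).trans ?_)
    rw [Finset.sum_const, Finset.card_range, nsmul_eq_mul]
  rw [hexp, hsplit] at htot
  have hNr : (0 : ℝ) < N := by exact_mod_cast hNpos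
  have h2 : ‖(N : 𝕜) * P‖ ≤ (N : ℝ) * (‖T‖ * E) + (N : ℝ) * (6 * ‖T‖) *
      (2 * (1 / 2) ^ k 0) ^ 2 := by
    calc ‖(N : 𝕜) * P‖ = ‖((N : 𝕜) * P + R) - R‖ := by rw [add_sub_cancel_right]
      _ ≤ ‖(N : 𝕜) * P + R‖ + ‖R‖ := norm_sub_le _ _
      _ ≤ _ := add_le_add htot hRn
  rw [norm_mul, RCLike.norm_natCast] at h2
  have h3 : (2 * (1 / 2 : ℝ) ^ k 0) ^ 2 ≤ 4 * (1 / 2) ^ k 0 := by
    have h4 : (1 / 2 : ℝ) ^ k 0 ≤ 1 := pow_le_one₀ (by norm_num) (by norm_num)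
    have h5 : (0 : ℝ) ≤ (1 / 2) ^ k 0 := by positivity
    nlinarith
  have h4 : (N : ℝ) * ‖P‖ ≤ (N : ℝ) * (‖T‖ * (E + 24 * (1 / 2) ^ k 0)) := by
    refine h2.trans ?_
    calc (N : ℝ) * (‖T‖ * E) + (N : ℝ) * (6 * ‖T‖) * (2 * (1 / 2) ^ k 0) ^ 2
        ≤ (N : ℝ) * (‖T‖ * E) + (N : ℝ) * (6 * ‖T‖) * (4 * (1 / 2) ^ k 0) := by gcongr
      _ = _ := by ring
  exact le_of_mul_le_mul_left h4 hNr

end Pool.Agent.WH
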