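import Pool.Agent.WH.Defs

/-!
Project WH (MP_a9f751_an): a weak Hilbert space `X` such that `B(X)` is not a Grothendieck space.
The combinatorial data, the quadratic forms and the notion of a model of the space.
-/

set_option autoImplicit false

open Filter Topology

namespace Pool.Agent.WH

/-- Schreier type classes of finite sets with positions. -/
def Cls {ι : Type} (p : ℕ → ℕ) (pos : ι → ℕ) : ℕ → Finset ι → Prop
  | 0, G => G.card ≤ 1
  | a + 1, G => ∃ (d : ℕ) (H : ℕ → Finset ι), (∀ g ∈ G, d ≤ p (pos g)) ∧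
      (∀ i < d, Cls p pos a (H i)) ∧ ∀ g ∈ G, ∃ i < d, g ∈ H i

/-- The data: a forest of nodes with blocks, weights and unit vectors in Hilbert blocks. -/
structure TD (𝕜 : Type) [RCLike 𝕜] where
  /-- nodes -/
  Nd : Type
  /-- block of a node -/
  b : Nd → ℕ
  /-- parent of a node -/
  par : Nd → Option Nd
  /-- dimension of the blocks -/
  n : ℕ → ℕ
  /-- the vector of a node (only the value at the block of the node is used) -/
  vec : Nd → (k : ℕ) → EuclideanSpace 𝕜 (Fin (n k))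
  /-- weight of a node -/
  al : Nd → ℝ
  /-- bound for the number of nodes in the blocks before `k` -/
  nu : ℕ → ℕ
  /-- bound for the inner products of different nodes in a block -/
  mu : ℕ → ℝ
  /-- admissibility -/
  p : ℕ → ℕ
  b_par : ∀ t t', par t = some t' → b t' < b t
  al_pos : ∀ t, 0 < al t
  norm_vec : ∀ t, ‖vec t (b t)‖ = 1
  inner_vec : ∀ t t', t ≠ t' → b t = b t' →
    ‖(inner 𝕜 (vec t (b t)) (vec t' (b t)) : 𝕜)‖ ≤ mu (b t)
  card_lt : ∀ (k : ℕ) (A : Finset Nd), (∀ t ∈ A, b t < k) → A.card ≤ nu k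
  mu_nonneg : ∀ k, 0 ≤ mu k
  mu_le : ∀ k, ((nu k : ℝ) + 1) * mu k ≤ (1 / 2) ^ k
  p_mono : Monotone p
  p_large : ∀ k, 5 * 25 ^ (4 * ∑ j ∈ Finset.range (k + 1), n j) ≤ p k

namespace TD

variable {𝕜 : Type} [RCLike 𝕜] (D : TD 𝕜)

/-- all sequences of vectors of the blocks -/
abbrev V : Type := (k : ℕ) → EuclideanSpace 𝕜 (Fin (D.n k))

/-- coefficient at a node -/
noncomputable def coef (t : D.Nd) (x : D.V) : 𝕜 := inner 𝕜 (D.vec t (D.b t)) (x (D.b t))

/-- the square of the coherent functional of a set of nodes -/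
noncomputable def qS (S : Finset D.Nd) (x : D.V) : ℝ :=
  ‖∑ t ∈ S, (D.al t : 𝕜) * D.coef t x‖ ^ 2 / ∑ t ∈ S, D.al t ^ 2

/-- the form of a family -/
noncomputable def q (B : Finset ℕ) (SS : Finset (Finset D.Nd)) (x : D.V) : ℝ :=
  ∑ k ∈ B, ‖x k‖ ^ 2 + ∑ S ∈ SS, D.qS S x

/-- segments: finite nonempty chains `g 0, ..., g m`, each the parent of the next -/
def IsSeg (S : Finset D.Nd) : Prop :=
  ∃ (m : ℕ) (g : ℕ → D.Nd), (∀ i < m, D.par (g (i + 1)) = some (g i)) ∧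
    ∀ t, t ∈ S ↔ ∃ i ≤ m, g i = t

/-- position of a set of nodes: its first block -/
noncomputable def posS (S : Finset D.Nd) : ℕ := sInf (D.b '' (S : Set D.Nd))

/-- families of class `a` -/
structure IsFam (a : ℕ) (B : Finset ℕ) (SS : Finset (Finset D.Nd)) : Prop where
  seg : ∀ S ∈ SS, D.IsSeg S
  disj : ∀ S ∈ SS, ∀ S' ∈ SS, ∀ t, t ∈ S → t ∈ S' → S = S'
  good : ∀ (k : ℕ) (A : Finset D.Nd), (∀ t ∈ A, D.b t = k ∧ ∃ S ∈ SS, t ∈ S) →
    A.card ≤ D.nu k + 1
  clsB : Cls D.p id a B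
  clsS : Cls D.p D.posS a SS

/-- the forms that define the norm -/
structure Fm where
  /-- number of levels -/
  A : ℕ
  /-- sets of blocks -/
  B : ℕ → Finset ℕ
  /-- sets of segments -/
  SS : ℕ → Finset (Finset D.Nd)
  fam : ∀ a < A, D.IsFam a (B a) (SS a)

/-- the value of a form -/
noncomputable def Fm.val {D : TD 𝕜} (F : D.Fm) (x : D.V) : ℝ :=
  ∑ a ∈ Finset.range F.A, (9 / 10 : ℝ) ^ a * D.q (F.B a) (F.SS a) x

/-- `X` with the coordinate map `c` is a model of the space: all sequences `y` with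
`sup F.val y` finite, with the norm given by `‖x‖ ^ 2 = sup F.val`. -/
structure IsModel (X : Type) [NormedAddCommGroup X] [NormedSpace 𝕜 X] (c : X →ₗ[𝕜] D.V) :
    Prop where
  inj : Function.Injective c
  le : ∀ (F : D.Fm) (x : X), F.val (c x) ≤ ‖x‖ ^ 2
  ge : ∀ (x : X) (r : ℝ), r < ‖x‖ ^ 2 → ∃ F : D.Fm, r < F.val (c x)
  surj : ∀ (y : D.V) (C : ℝ), (∀ F : D.Fm, F.val y ≤ C) → ∃ x : X, c x = y

/-- cut off the blocks from `m` on -/
noncomputable def trunc (m : ℕ) (x : D.V) : D.V := fun k => if k < m then x k else 0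

end TD

/-- valid labels (the last pair is the head) -/
def Vld (s : List (ℕ × ℕ)) : Prop :=
  s.Pairwise (fun a b => b.1 < a.1) ∧ ∀ a ∈ s, a.2 ≤ a.1

/-- the tree of all labels, with an orthonormal basis of the block for each label -/
structure HasChains {𝕜 : Type} [RCLike 𝕜] (D : TD 𝕜) where
  /-- the node with label `s` and index `u` -/
  nd : List (ℕ × ℕ) → ℕ → D.Nd
  b_nd : ∀ (k e : ℕ) (s : List (ℕ × ℕ)) (u : ℕ), Vld ((k, e) :: s) → u < D.n k →
    D.b (nd ((k, e) :: s) u) = k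
  al_nd : ∀ (k e : ℕ) (s : List (ℕ × ℕ)) (u : ℕ), Vld ((k, e) :: s) → u < D.n k →
    D.al (nd ((k, e) :: s) u) = (1 / 2) ^ e
  par_nd : ∀ (k e k' e' : ℕ) (s : List (ℕ × ℕ)) (u : ℕ), Vld ((k, e) :: (k', e') :: s) →
    u < D.n k → D.par (nd ((k, e) :: (k', e') :: s) u) = some (nd ((k', e') :: s) (u % D.n k'))
  ortho : ∀ (k e : ℕ) (s : List (ℕ × ℕ)) (u u' : ℕ), Vld ((k, e) :: s) → u < D.n k →
    u' < D.n k → (inner 𝕜 (D.vec (nd ((k, e) :: s) u) k) (D.vec (nd ((k, e) :: s) u') k) : 𝕜) =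
      if u = u' then 1 else 0
  n_pos : ∀ k, 0 < D.n k
  n_dvd : ∀ j k, j < k → D.n j ∣ D.n k
  n_ratio : ∀ j k, j < k → (D.n j : ℝ) * 16 ^ k ≤ D.n k

end Pool.Agent.WH
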