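import Pool.Agent.WH.Cls
import Pool.Agent.WH.Seg
import Pool.Agent.WH.Refine

/-!
Project WH, row WH-09: cutting families at a block.
-/

set_option autoImplicit false

open Filter Topology

namespace Pool.Agent.WH

variable {𝕜 : Type} [RCLike 𝕜]

section
variable (D : TD 𝕜)

private theorem cut_posS_mono {S S' : Finset D.Nd} (hs : S' ⊆ S) (hn : S'.Nonempty) :
    D.posS S ≤ D.posS S' := by
  obtain ⟨t, ht⟩ := hn
  have hne : (D.b '' (S' : Set D.Nd)).Nonempty := ⟨D.b t, t, ht, rfl⟩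
  obtain ⟨u, hu, hub⟩ := Nat.sInf_mem hne
  unfold TD.posS
  rw [← hub]
  exact Nat.sInf_le ⟨u, hs hu, rfl⟩

open Classical in
/-- the nonempty traces of the segments on a set of nodes -/
private noncomputable def cutFam (SS : Finset (Finset D.Nd)) (P : D.Nd → Prop)
    [DecidablePred P] : Finset (Finset D.Nd) :=
  (SS.filter (fun S => (S.filter P).Nonempty)).image (fun S => S.filter P)

private theorem cut_mem {SS : Finset (Finset D.Nd)} {P : D.Nd → Prop} [DecidablePred P]
    {R : Finset D.Nd} (h : R ∈ cutFam D SS P) :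
    ∃ S ∈ SS, S.filter P = R ∧ R.Nonempty := by
  classical
  unfold cutFam at h
  simp only [Finset.mem_image, Finset.mem_filter] at h
  obtain ⟨S, ⟨hS, hn⟩, hR⟩ := h
  exact ⟨S, hS, hR, hR ▸ hn⟩

private theorem cut_isFam {a : ℕ} {B B' : Finset ℕ} {SS : Finset (Finset D.Nd)}
    (h : D.IsFam a B SS) (hB : B' ⊆ B) (P : D.Nd → Prop) [DecidablePred P]
    (hP : ∀ S : Finset D.Nd, D.IsSeg S → (S.filter P).Nonempty → D.IsSeg (S.filter P)) :
    D.IsFam a B' (cutFam D SS P) := by
  classical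
  refine ⟨?_, ?_, ?_, cls_subset h.clsB hB, ?_⟩
  · intro R hR
    obtain ⟨S, hS, rfl, hn⟩ := cut_mem D hR
    exact hP S (h.seg S hS) hn
  · intro R hR R' hR' t ht ht'
    obtain ⟨S, hS, rfl, -⟩ := cut_mem D hR
    obtain ⟨S', hS', rfl, -⟩ := cut_mem D hR'
    rw [h.disj S hS S' hS' t (Finset.mem_filter.1 ht).1 (Finset.mem_filter.1 ht').1]
  · intro k A hA
    refine h.good k A (fun t ht => ⟨(hA t ht).1, ?_⟩)
    obtain ⟨R, hR, htR⟩ := (hA t ht).2
    obtain ⟨S, hS, rfl, -⟩ := cut_mem D hR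
    exact ⟨S, hS, (Finset.mem_filter.1 htR).1⟩
  · have hch : ∀ R : Finset D.Nd, ∃ S : Finset D.Nd, R ∈ cutFam D SS P →
        S ∈ SS ∧ S.filter P = R ∧ R.Nonempty := by
      intro R
      by_cases hR : R ∈ cutFam D SS P
      · obtain ⟨S, hS, h1, h2⟩ := cut_mem D hR
        exact ⟨S, fun _ => ⟨hS, h1, h2⟩⟩
      · exact ⟨R, fun h' => absurd h' hR⟩
    choose f hf using hch
    refine cls_spread D.p_mono h.clsS f (fun R hR => (hf R hR).1) ?_ ?_
    · intro R hR R' hR' hff
      rw [← (hf R hR).2.1, ← (hf R' hR').2.1, hff]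
    · intro R hR
      have h1 := (hf R hR).2.1
      have h2 := (hf R hR).2.2
      refine cut_posS_mono D (fun t ht => ?_) h2
      rw [← h1] at ht
      exact (Finset.mem_filter.1 ht).1

private theorem cut_sum {a : ℕ} {B : Finset ℕ} {SS : Finset (Finset D.Nd)}
    (h : D.IsFam a B SS) (P : D.Nd → Prop) [DecidablePred P] (x y : D.V)
    (h1 : ∀ S ∈ SS, D.qS S x ≤ D.qS (S.filter P) y) :
    ∑ S ∈ SS, D.qS S x ≤ ∑ R ∈ cutFam D SS P, D.qS R y := by
  classical
  have e1 : ∑ R ∈ cutFam D SS P, D.qS R y =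
      ∑ S ∈ SS.filter (fun S => (S.filter P).Nonempty), D.qS (S.filter P) y := by
    unfold cutFam
    rw [Finset.sum_image]
    intro S hS S' hS' hSS'
    simp only [Finset.coe_filter, Set.mem_ofPred_eq] at hS hS'
    obtain ⟨t, ht⟩ := hS.2
    have ht' : t ∈ S'.filter P := by
      have : S.filter P = S'.filter P := hSS'
      rw [← this]; exact ht
    exact h.disj S hS.1 S' hS'.1 t (Finset.mem_filter.1 ht).1 (Finset.mem_filter.1 ht').1
  rw [e1, Finset.sum_filter]
  refine Finset.sum_le_sum (fun S hS => ?_)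
  split_ifs with hn
  · exact h1 S hS
  · have h2 := h1 S hS
    rw [Finset.not_nonempty_iff_eq_empty] at hn
    rw [hn] at h2
    refine h2.trans (le_of_eq ?_)
    simp [TD.qS]

theorem fam_tail {a : ℕ} {B : Finset ℕ} {SS : Finset (Finset D.Nd)} (h : D.IsFam a B SS)
    (k₀ : ℕ) : ∃ (B' : Finset ℕ) (SS' : Finset (Finset D.Nd)), D.IsFam a B' SS' ∧
      (∀ k ∈ B', k₀ ≤ k) ∧ (∀ S ∈ SS', ∀ t ∈ S, k₀ ≤ D.b t) ∧
      ∀ x : D.V, (∀ j < k₀, x j = 0) → D.q B SS x ≤ D.q B' SS' x := by
  classical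
  refine ⟨B.filter (fun k => k₀ ≤ k), cutFam D SS (fun t => k₀ ≤ D.b t), ?_, ?_, ?_, ?_⟩
  · exact cut_isFam D h (Finset.filter_subset _ _) _ (fun S hS hn => seg_ge D hS k₀ hn)
  · intro k hk
    exact (Finset.mem_filter.1 hk).2
  · intro R hR t ht
    obtain ⟨S, hS, rfl, -⟩ := cut_mem D hR
    exact (Finset.mem_filter.1 ht).2
  · intro x hx
    unfold TD.q
    refine add_le_add (le_of_eq ?_) (cut_sum D h _ x x (fun S hS => ?_))
    · rw [Finset.sum_filter]
      refine Finset.sum_congr rfl (fun k hk => ?_)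
      split_ifs with hk0
      · rfl
      · rw [hx k (not_le.1 hk0)]; simp
    · refine qS_le_of_coef_zero D (Finset.filter_subset _ _) x (fun t ht ht' => ?_)
      have hb : D.b t < k₀ := by
        by_contra hcon
        exact ht' (Finset.mem_filter.2 ⟨ht, not_lt.1 hcon⟩)
      unfold TD.coef
      rw [hx _ hb]
      simp

theorem fam_trunc {a : ℕ} {B : Finset ℕ} {SS : Finset (Finset D.Nd)} (h : D.IsFam a B SS)
    (m : ℕ) : ∃ (B' : Finset ℕ) (SS' : Finset (Finset D.Nd)), D.IsFam a B' SS' ∧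
      ∀ x : D.V, D.q B SS (D.trunc m x) ≤ D.q B' SS' x := by
  classical
  refine ⟨B.filter (fun k => k < m), cutFam D SS (fun t => D.b t < m), ?_, ?_⟩
  · exact cut_isFam D h (Finset.filter_subset _ _) _ (fun S hS hn => seg_lt D hS m hn)
  · intro x
    unfold TD.q
    refine add_le_add (le_of_eq ?_) (cut_sum D h _ _ x (fun S hS => ?_))
    · rw [Finset.sum_filter]
      refine Finset.sum_congr rfl (fun k hk => ?_)
      unfold TD.trunc
      split_ifs with hk0
      · rfl
      · simp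
    · have h1 : D.qS S (D.trunc m x) ≤ D.qS (S.filter (fun t => D.b t < m)) (D.trunc m x) := by
        refine qS_le_of_coef_zero D (Finset.filter_subset _ _) _ (fun t ht ht' => ?_)
        have hb : ¬ D.b t < m := fun hcon => ht' (Finset.mem_filter.2 ⟨ht, hcon⟩)
        unfold TD.coef TD.trunc
        rw [if_neg hb]
        simp
      refine h1.trans (le_of_eq (qS_congr D _ (fun t ht => ?_)))
      unfold TD.coef TD.trunc
      rw [if_pos (Finset.mem_filter.1 ht).2]

end

end Pool.Agent.WH
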