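import Pool.Agent.WH.Base

/-!
Project WH (MP_a9f751_an): real mutually (almost) unbiased bases.
-/

set_option autoImplicit false

open Filter Topology

namespace Pool.Agent.WH

/-- the real additive character of a field of characteristic two -/
private noncomputable def mubChi {K : Type} [Field K] [Algebra (ZMod 2) K] (x : K) : ℝ :=
  if Algebra.trace (ZMod 2) K x = 0 then 1 else -1

section

variable {K : Type} [Field K] [Algebra (ZMod 2) K]

private theorem mubChi_zero : mubChi (0 : K) = 1 := by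
  simp [mubChi]

private theorem mubChi_add (x y : K) : mubChi (x + y) = mubChi x * mubChi y := by
  unfold mubChi
  rw [map_add]
  generalize Algebra.trace (ZMod 2) K x = a
  generalize Algebra.trace (ZMod 2) K y = b
  have h2 : ∀ a : ZMod 2, a = 0 ∨ a = 1 := by decide
  have h3 : (1 : ZMod 2) + 1 = 0 := by decide
  rcases h2 a with rfl | rfl <;> rcases h2 b with rfl | rfl <;> simp [h3]

private theorem mubChi_sq (x : K) : mubChi x * mubChi x = 1 := by
  unfold mubChi
  split_ifs <;> norm_num

private theorem mubChi_abs (x : K) : |mubChi x| = 1 := by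
  unfold mubChi
  split_ifs <;> norm_num

private theorem mub_add_self (x : K) : x + x = 0 := by
  have h : (2 : ZMod 2) = 0 := by decide
  have : algebraMap (ZMod 2) K 2 * x = 0 := by rw [h]; simp
  rw [map_ofNat] at this
  linear_combination this

variable [Fintype K]

private theorem mub_sum {c : K} (hc : c ≠ 0) : ∑ x : K, mubChi (c * x) = 0 := by
  have hfin : Module.Finite (ZMod 2) K := Module.Finite.of_finite
  obtain ⟨x0, hx0⟩ : ∃ x0, Algebra.trace (ZMod 2) K (c * x0) ≠ 0 := by
    by_contra hcon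
    push Not at hcon
    have hnd := traceForm_nondegenerate (ZMod 2) K
    exact hc (hnd.1 c fun y => by simpa [Algebra.traceForm_apply] using hcon y)
  have h1 : mubChi (c * x0) = -1 := by
    unfold mubChi
    rw [if_neg hx0]
  have h2 : ∑ x : K, mubChi (c * (x + x0)) = ∑ x : K, mubChi (c * x) :=
    Fintype.sum_equiv (Equiv.addRight x0) _ _ fun x => rfl
  have h3 : ∑ x : K, mubChi (c * (x + x0)) = -∑ x : K, mubChi (c * x) := by
    rw [← Finset.sum_neg_distrib]
    refine Finset.sum_congr rfl fun x _ => ?_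
    rw [mul_add, mubChi_add, h1]
    ring
  linarith

private theorem mub_sum_ite [DecidableEq K] (c : K) :
    ∑ x : K, mubChi (c * x) = if c = 0 then (Fintype.card K : ℝ) else 0 := by
  split_ifs with h
  · subst h
    simp [mubChi_zero]
  · exact mub_sum h

/-- the vectors -/
private noncomputable def mubXi (a : K) (u z : K × K) : ℝ :=
  mubChi (a * z.1 * z.2 + u.1 * z.1 + u.2 * z.2) / Fintype.card K

private theorem mub_inner (a a' : K) (u u' : K × K) :
    ∑ z : K × K, mubXi a u z * mubXi a' u' z =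
      (∑ x : K, ∑ y : K, mubChi (((a + a') * x + (u.2 + u'.2)) * y) *
        mubChi ((u.1 + u'.1) * x)) / (Fintype.card K : ℝ) ^ 2 := by
  rw [Fintype.sum_prod_type, Finset.sum_div]
  refine Finset.sum_congr rfl fun x _ => ?_
  rw [Finset.sum_div]
  refine Finset.sum_congr rfl fun y _ => ?_
  unfold mubXi
  rw [div_mul_div_comm, ← mubChi_add, ← mubChi_add, sq]
  congr 2
  ring

private theorem mub_same [DecidableEq K] (a : K) (u u' : K × K) :
    ∑ z : K × K, mubXi a u z * mubXi a u' z = if u = u' then 1 else 0 := by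
  have hK : (Fintype.card K : ℝ) ≠ 0 := by
    exact_mod_cast Fintype.card_ne_zero
  have e1 : ∀ s t : K, s + t = 0 ↔ s = t := by
    intro s t
    constructor
    · intro h
      have := mub_add_self t
      exact add_right_cancel (h.trans this.symm)
    · rintro rfl
      exact mub_add_self s
  rw [mub_inner, mub_add_self]
  simp only [zero_mul, zero_add]
  have h2 : ∑ x : K, ∑ y : K, mubChi ((u.2 + u'.2) * y) * mubChi ((u.1 + u'.1) * x) =
      (∑ x : K, mubChi ((u.1 + u'.1) * x)) * ∑ y : K, mubChi ((u.2 + u'.2) * y) := by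
    rw [Finset.sum_mul_sum]
    exact Finset.sum_congr rfl fun x _ => Finset.sum_congr rfl fun y _ => mul_comm _ _
  rw [h2, mub_sum_ite, mub_sum_ite]
  by_cases hu : u = u'
  · subst hu
    rw [if_pos (mub_add_self _), if_pos (mub_add_self _), if_pos rfl]
    field_simp
  · rw [if_neg hu]
    by_cases h1 : u.1 = u'.1
    · have h3 : u.2 ≠ u'.2 := fun h3 => hu (Prod.ext h1 h3)
      rw [if_neg (fun h => h3 ((e1 _ _).1 h))]
      simp
    · rw [if_neg (fun h => h1 ((e1 _ _).1 h))]
      simp

private theorem mub_diff [DecidableEq K] {a a' : K} (ha : a ≠ a') (u u' : K × K) :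
    |∑ z : K × K, mubXi a u z * mubXi a' u' z| ≤ 1 / (Fintype.card K : ℝ) := by
  have hK : (0 : ℝ) < Fintype.card K := by
    exact_mod_cast Fintype.card_pos
  have hc : a + a' ≠ 0 := by
    intro h
    exact ha (add_right_cancel (h.trans (mub_add_self a').symm))
  rw [mub_inner]
  have h1 : ∑ x : K, ∑ y : K, mubChi (((a + a') * x + (u.2 + u'.2)) * y) *
      mubChi ((u.1 + u'.1) * x) = ∑ x : K, if x = (a + a')⁻¹ * (u.2 + u'.2) then
        (Fintype.card K : ℝ) * mubChi ((u.1 + u'.1) * x) else 0 := by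
    refine Finset.sum_congr rfl fun x _ => ?_
    rw [← Finset.sum_mul, mub_sum_ite]
    by_cases hx : x = (a + a')⁻¹ * (u.2 + u'.2)
    · rw [if_pos hx, if_pos]
      rw [hx, mul_inv_cancel_left₀ hc, mub_add_self]
    · rw [if_neg hx, if_neg, zero_mul]
      intro h
      apply hx
      have h2 : (a + a') * x = u.2 + u'.2 :=
        add_right_cancel (h.trans (mub_add_self (u.2 + u'.2)).symm)
      rw [← h2, inv_mul_cancel_left₀ hc]
  rw [h1, Finset.sum_ite_eq' Finset.univ, if_pos (Finset.mem_univ _), abs_div, abs_mul,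
    mubChi_abs, abs_of_pos hK, abs_of_pos (by positivity : (0 : ℝ) < (Fintype.card K : ℝ) ^ 2)]
  rw [mul_one, sq, div_mul_eq_div_div, div_self hK.ne']

end

/-- real mutually unbiased bases -/
theorem exists_mub (h : ℕ) :
    ∃ M : ℕ → ℕ → ℕ → ℝ,
      (∀ a < 2 ^ h, ∀ u < 4 ^ h, ∀ u' < 4 ^ h,
        ∑ i ∈ Finset.range (4 ^ h), M a u i * M a u' i = if u = u' then 1 else 0) ∧
      ∀ a < 2 ^ h, ∀ a' < 2 ^ h, a ≠ a' → ∀ u < 4 ^ h, ∀ u' < 4 ^ h,
        |∑ i ∈ Finset.range (4 ^ h), M a u i * M a' u' i| ≤ (1 / 2) ^ h := by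
  classical
  rcases Nat.eq_zero_or_pos h with rfl | hpos
  · refine ⟨fun _ _ _ => 1, ?_, ?_⟩
    · intro a _ u hu u' hu'
      have h1 : u = 0 := by simpa using hu
      have h2 : u' = 0 := by simpa using hu'
      subst h1; subst h2
      simp
    · intro a ha a' ha' hne
      have h1 : a = 0 := by simpa using ha
      have h2 : a' = 0 := by simpa using ha'
      exact absurd (h1.trans h2.symm) hne
  · let K := GaloisField 2 h
    have : Fintype K := Fintype.ofFinite K
    have hcard : Fintype.card K = 2 ^ h := by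
      rw [← Nat.card_eq_fintype_card]
      exact GaloisField.card 2 h hpos.ne'
    have hcard2 : Fintype.card (K × K) = 4 ^ h := by
      rw [Fintype.card_prod, hcard, ← mul_pow]
      norm_num
    let e : Fin (2 ^ h) ≃ K := (Fintype.equivFinOfCardEq hcard).symm
    let f : Fin (4 ^ h) ≃ K × K := (Fintype.equivFinOfCardEq hcard2).symm
    let M : ℕ → ℕ → ℕ → ℝ := fun a u i =>
      if ha : a < 2 ^ h then if hu : u < 4 ^ h then if hi : i < 4 ^ h then
        mubXi (e ⟨a, ha⟩) (f ⟨u, hu⟩) (f ⟨i, hi⟩) else 0 else 0 else 0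
    have hM : ∀ (a : ℕ) (ha : a < 2 ^ h) (a' : ℕ) (ha' : a' < 2 ^ h) (u : ℕ) (hu : u < 4 ^ h)
        (u' : ℕ) (hu' : u' < 4 ^ h), ∑ i ∈ Finset.range (4 ^ h), M a u i * M a' u' i =
          ∑ z : K × K, mubXi (e ⟨a, ha⟩) (f ⟨u, hu⟩) z * mubXi (e ⟨a', ha'⟩) (f ⟨u', hu'⟩) z := by
      intro a ha a' ha' u hu u' hu'
      rw [Finset.sum_range]
      refine Fintype.sum_equiv f _ _ fun i => ?_
      simp only [M, ha, ha', hu, hu', i.2, dif_pos, Fin.eta]
    refine ⟨M, ?_, ?_⟩
    · intro a ha u hu u' hu'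
      rw [hM a ha a ha u hu u' hu', mub_same]
      congr 1
      rw [f.apply_eq_iff_eq, Fin.mk.injEq]
    · intro a ha a' ha' hne u hu u' hu'
      rw [hM a ha a' ha' u hu u' hu']
      have hne' : e ⟨a, ha⟩ ≠ e ⟨a', ha'⟩ := by
        intro h1
        exact hne (by simpa using e.injective h1)
      refine (mub_diff hne' _ _).trans (le_of_eq ?_)
      rw [hcard]
      push_cast
      rw [one_div, one_div, inv_pow]

end Pool.Agent.WH
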