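import Pool.Agent.WH.Base
import Pool.Agent.WH.MUB

/-!
# The data (row WH-16, MP_a9f751_an)

Nodes are pairs of a label and an index; the vectors of a block come from mutually unbiased bases.
-/

set_option autoImplicit false

open Filter Topology

namespace Pool.Agent.WH

private def dh (k : ℕ) : ℕ := 3 ^ (k + 3)

private theorem dh_succ (k : ℕ) : dh (k + 1) = 3 * dh k := by
  unfold dh
  rw [show k + 1 + 3 = (k + 3) + 1 from rfl, pow_succ]
  ring

private theorem dh_sq (k : ℕ) : (k + 1) ^ 2 + k + 2 ≤ dh k := by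
  induction k with
  | zero => norm_num [dh]
  | succ k ih =>
    rw [dh_succ]
    nlinarith

private theorem dh_mono {j k : ℕ} (h : j ≤ k) : dh j ≤ dh k :=
  Nat.pow_le_pow_right (by norm_num) (by omega)

private theorem dh_step {j k : ℕ} (h : j < k) : dh j + 2 * k ≤ dh k := by
  obtain ⟨m, rfl⟩ := Nat.exists_eq_succ_of_ne_zero (by omega : k ≠ 0)
  have h1 : dh j ≤ dh m := dh_mono (by omega)
  have h2 := dh_sq m
  have h3 := dh_succ m
  have h4 : m + 1 ≤ dh m := by nlinarith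
  show dh j + 2 * (m + 1) ≤ dh (m + 1)
  omega

private def dcode : List (ℕ × ℕ) → ℕ
  | [] => 0
  | a :: s => 2 ^ (a.1 ^ 2 + a.2) + dcode s

private theorem dv_tail {a : ℕ × ℕ} {s : List (ℕ × ℕ)} (h : Vld (a :: s)) : Vld s :=
  ⟨(List.pairwise_cons.1 h.1).2, fun b hb => h.2 b (List.mem_cons_of_mem _ hb)⟩

private theorem dv_lt {a : ℕ × ℕ} {s : List (ℕ × ℕ)} (h : Vld (a :: s)) :
    ∀ b ∈ s, b.1 < a.1 := (List.pairwise_cons.1 h.1).1

private theorem dv_le {a : ℕ × ℕ} {s : List (ℕ × ℕ)} (h : Vld (a :: s)) : a.2 ≤ a.1 :=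
  h.2 a List.mem_cons_self

private theorem dcode_lt (s : List (ℕ × ℕ)) : Vld s → ∀ k, (∀ a ∈ s, a.1 < k) →
    dcode s < 2 ^ (k ^ 2) := by
  induction s with
  | nil => intro _ k _; exact Nat.pos_of_ne_zero (by positivity)
  | cons a s ih =>
    intro h k hk
    have h1 := ih (dv_tail h) a.1 (dv_lt h)
    have h2 := dv_le h
    have h3 : a.1 < k := hk a List.mem_cons_self
    have h4 : 2 ^ (a.1 ^ 2) ≤ 2 ^ (a.1 ^ 2 + a.2) := Nat.pow_le_pow_right (by norm_num) (by omega)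
    have h5 : 2 ^ (a.1 ^ 2 + a.2 + 1) ≤ 2 ^ (k ^ 2) :=
      Nat.pow_le_pow_right (by norm_num) (by nlinarith)
    have h6 : 2 ^ (a.1 ^ 2 + a.2 + 1) = 2 * 2 ^ (a.1 ^ 2 + a.2) := by rw [pow_succ]; ring
    show 2 ^ (a.1 ^ 2 + a.2) + dcode s < 2 ^ (k ^ 2)
    omega

private theorem dcode_cons_lt {a : ℕ × ℕ} {s : List (ℕ × ℕ)} (h : Vld (a :: s)) :
    dcode (a :: s) < 2 ^ (a.1 ^ 2 + a.2 + 1) := by
  have h1 := dcode_lt s (dv_tail h) a.1 (dv_lt h)
  have h4 : 2 ^ (a.1 ^ 2) ≤ 2 ^ (a.1 ^ 2 + a.2) := Nat.pow_le_pow_right (by norm_num) (by omega)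
  have h6 : 2 ^ (a.1 ^ 2 + a.2 + 1) = 2 * 2 ^ (a.1 ^ 2 + a.2) := by rw [pow_succ]; ring
  show 2 ^ (a.1 ^ 2 + a.2) + dcode s < _
  omega

private theorem dcode_head {a a' : ℕ × ℕ} {s s' : List (ℕ × ℕ)} (h : Vld (a :: s))
    (hc : dcode (a :: s) = dcode (a' :: s')) : ¬ a.1 ^ 2 + a.2 < a'.1 ^ 2 + a'.2 := by
  intro hlt
  have h1 := dcode_cons_lt h
  have h2 : 2 ^ (a.1 ^ 2 + a.2 + 1) ≤ 2 ^ (a'.1 ^ 2 + a'.2) :=
    Nat.pow_le_pow_right (by norm_num) hlt
  have h3 : dcode (a' :: s') = 2 ^ (a'.1 ^ 2 + a'.2) + dcode s' := rfl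
  omega

private theorem dpair {a b a' b' : ℕ} (h : b ≤ a) (h' : b' ≤ a')
    (he : a ^ 2 + b = a' ^ 2 + b') : a = a' := by
  rcases lt_trichotomy a a' with hl | hl | hl
  · nlinarith
  · exact hl
  · nlinarith

private theorem dcode_inj (s : List (ℕ × ℕ)) : ∀ s' : List (ℕ × ℕ), Vld s → Vld s' →
    dcode s = dcode s' → s = s' := by
  induction s with
  | nil =>
    intro s' _ _ hc
    cases s' with
    | nil => rfl
    | cons a' s' =>
      exfalso
      have h3 : dcode (a' :: s') = 2 ^ (a'.1 ^ 2 + a'.2) + dcode s' := rfl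
      have h4 : dcode [] = 0 := rfl
      have h5 : 0 < 2 ^ (a'.1 ^ 2 + a'.2) := Nat.pos_of_ne_zero (by positivity)
      omega
  | cons a s ih =>
    intro s' h h' hc
    cases s' with
    | nil =>
      exfalso
      have h3 : dcode (a :: s) = 2 ^ (a.1 ^ 2 + a.2) + dcode s := rfl
      have h4 : dcode [] = 0 := rfl
      have h5 : 0 < 2 ^ (a.1 ^ 2 + a.2) := Nat.pos_of_ne_zero (by positivity)
      omega
    | cons a' s' =>
      have e : a.1 ^ 2 + a.2 = a'.1 ^ 2 + a'.2 := by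
        have h1 := dcode_head h hc
        have h2 := dcode_head h' hc.symm
        omega
      have e1 : a.1 = a'.1 := dpair (dv_le h) (dv_le h') e
      have e2 : a.2 = a'.2 := by rw [e1] at e; omega
      have e3 : a = a' := Prod.ext e1 e2
      subst e3
      have h3 : dcode (a :: s) = 2 ^ (a.1 ^ 2 + a.2) + dcode s := rfl
      have h4 : dcode (a :: s') = 2 ^ (a.1 ^ 2 + a.2) + dcode s' := rfl
      rw [ih s' (dv_tail h) (dv_tail h') (by omega)]

/-- block of a label -/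
private def dblk (s : List (ℕ × ℕ)) : ℕ := (s.headD (0, 0)).1

private theorem dblk_tail {s : List (ℕ × ℕ)} (h : Vld s) (h0 : s.tail ≠ []) :
    dblk s.tail < dblk s := by
  match s, h0, h with
  | [], h0, _ => exact absurd rfl h0
  | [a], h0, _ => exact absurd rfl h0
  | a :: b :: s, _, h2 => exact dv_lt h2 b List.mem_cons_self

private def dn (k : ℕ) : ℕ := 4 ^ dh k

private theorem dcode_blk {s : List (ℕ × ℕ)} (h : Vld s) : dcode s < 2 ^ ((dblk s + 1) ^ 2) := by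
  refine dcode_lt s h _ ?_
  cases s with
  | nil => intro a ha; simp at ha
  | cons a s =>
    intro b hb
    show b.1 < a.1 + 1
    rcases List.mem_cons.1 hb with rfl | hb
    · omega
    · have := dv_lt h b hb
      omega

private theorem dcode_dh {s : List (ℕ × ℕ)} (h : Vld s) : dcode s < 2 ^ dh (dblk s) := by
  have h1 := dcode_blk h
  have h2 := dh_sq (dblk s)
  exact h1.trans_le (Nat.pow_le_pow_right (by norm_num) (by omega))

private abbrev dNd : Type := {t : List (ℕ × ℕ) × ℕ // Vld t.1 ∧ t.1 ≠ [] ∧ t.2 < dn (dblk t.1)}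

private theorem dn_pos (k : ℕ) : 0 < dn k := Nat.pos_of_ne_zero (by unfold dn; positivity)

private noncomputable def dpar (t : dNd) : Option dNd :=
  if h : t.1.1.tail ≠ [] then
    some ⟨(t.1.1.tail, t.1.2 % dn (dblk t.1.1.tail)),
      by
        have h1 := t.2.1
        have h2 := t.2.2.1
        generalize t.1.1 = s at h1 h2
        cases s with
        | nil => exact absurd rfl h2
        | cons a s => exact dv_tail h1,
      h, Nat.mod_lt _ (dn_pos _)⟩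
  else none

private noncomputable def dM (k : ℕ) : ℕ → ℕ → ℕ → ℝ := (exists_mub (dh k)).choose

private theorem dM_ortho (k : ℕ) : ∀ a < 2 ^ dh k, ∀ u < dn k, ∀ u' < dn k,
    ∑ i ∈ Finset.range (dn k), dM k a u i * dM k a u' i = if u = u' then 1 else 0 :=
  (exists_mub (dh k)).choose_spec.1

private theorem dM_unb (k : ℕ) : ∀ a < 2 ^ dh k, ∀ a' < 2 ^ dh k, a ≠ a' → ∀ u < dn k,
    ∀ u' < dn k, |∑ i ∈ Finset.range (dn k), dM k a u i * dM k a' u' i| ≤ (1 / 2) ^ dh k :=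
  (exists_mub (dh k)).choose_spec.2

private noncomputable def dvec (𝕜 : Type) [RCLike 𝕜] (k a u : ℕ) :
    EuclideanSpace 𝕜 (Fin (dn k)) :=
  WithLp.toLp 2 fun i : Fin (dn k) => ((dM k a u i : ℝ) : 𝕜)

private theorem dvec_inner (𝕜 : Type) [RCLike 𝕜] (k a u a' u' : ℕ) :
    (inner 𝕜 (dvec 𝕜 k a u) (dvec 𝕜 k a' u') : 𝕜) =
      ((∑ i ∈ Finset.range (dn k), dM k a u i * dM k a' u' i : ℝ) : 𝕜) := by
  rw [PiLp.inner_apply, Finset.sum_range, RCLike.ofReal_sum]
  refine Finset.sum_congr rfl fun i _ => ?_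
  simp only [dvec, RCLike.inner_apply, RCLike.conj_ofReal, RCLike.ofReal_mul]
  ring

private theorem dvec_ortho (𝕜 : Type) [RCLike 𝕜] (k a u u' : ℕ) (ha : a < 2 ^ dh k)
    (hu : u < dn k) (hu' : u' < dn k) :
    (inner 𝕜 (dvec 𝕜 k a u) (dvec 𝕜 k a u') : 𝕜) = if u = u' then 1 else 0 := by
  rw [dvec_inner, dM_ortho k a ha u hu u' hu']
  split_ifs <;> simp

private theorem dvec_unb (𝕜 : Type) [RCLike 𝕜] (k a a' u u' : ℕ) (ha : a < 2 ^ dh k)
    (ha' : a' < 2 ^ dh k) (hne : a ≠ a') (hu : u < dn k) (hu' : u' < dn k) :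
    ‖(inner 𝕜 (dvec 𝕜 k a u) (dvec 𝕜 k a' u') : 𝕜)‖ ≤ (1 / 2) ^ dh k := by
  rw [dvec_inner, RCLike.norm_ofReal]
  exact dM_unb k a ha a' ha' hne u hu u' hu'

private def dnu (k : ℕ) : ℕ := ∑ j ∈ Finset.range k, 2 ^ ((j + 1) ^ 2) * dn j

private theorem dnu_le (k : ℕ) : (dnu k + 1) * 2 ^ k ≤ 2 ^ dh k := by
  induction k with
  | zero =>
    have : dnu 0 = 0 := rfl
    rw [this]
    simpa using Nat.one_le_two_pow
  | succ k ih =>
    have h1 : dnu (k + 1) = dnu k + 2 ^ ((k + 1) ^ 2) * dn k := Finset.sum_range_succ _ _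
    have h2 : dn k = 2 ^ (2 * dh k) := by
      unfold dn
      rw [pow_mul]
      norm_num
    have h3 := dh_sq k
    have h4 := dh_succ k
    have h5 : dnu k + 1 ≤ 2 ^ dh k := by
      calc dnu k + 1 = (dnu k + 1) * 1 := (mul_one _).symm
        _ ≤ (dnu k + 1) * 2 ^ k := Nat.mul_le_mul_left _ Nat.one_le_two_pow
        _ ≤ _ := ih
    have h6 : 2 ^ dh k ≤ 2 ^ ((k + 1) ^ 2 + 2 * dh k) :=
      Nat.pow_le_pow_right (by norm_num) (by omega)
    have h7 : dnu (k + 1) + 1 ≤ 2 ^ ((k + 1) ^ 2 + 2 * dh k + 1) := by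
      have : 2 ^ ((k + 1) ^ 2 + 2 * dh k + 1) = 2 * 2 ^ ((k + 1) ^ 2 + 2 * dh k) := by
        rw [pow_succ]; ring
      rw [this, h1, h2, ← pow_add]
      omega
    calc (dnu (k + 1) + 1) * 2 ^ (k + 1)
        ≤ 2 ^ ((k + 1) ^ 2 + 2 * dh k + 1) * 2 ^ (k + 1) := Nat.mul_le_mul_right _ h7
      _ = 2 ^ ((k + 1) ^ 2 + 2 * dh k + 1 + (k + 1)) := by rw [← pow_add]
      _ ≤ 2 ^ dh (k + 1) := Nat.pow_le_pow_right (by norm_num) (by omega)

private theorem dcard (k : ℕ) (A : Finset dNd) (hA : ∀ t ∈ A, dblk t.1.1 < k) :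
    A.card ≤ dnu k := by
  have h1 : A.card ≤ ((Finset.range k).sigma fun j =>
      Finset.range (2 ^ ((j + 1) ^ 2)) ×ˢ Finset.range (dn j)).card := by
    refine Finset.card_le_card_of_injOn
      (fun t => (⟨dblk t.1.1, (dcode t.1.1, t.1.2)⟩ : (_ : ℕ) × (ℕ × ℕ))) ?_ ?_
    · intro t ht
      simp only [Finset.coe_sigma, Finset.coe_range, Set.mem_sigma_iff, Set.mem_Iio,
        Finset.coe_product, Set.mem_prod]
      exact ⟨hA t ht, dcode_blk t.2.1, t.2.2.2⟩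
    · intro t _ t' _ h
      simp only [Sigma.mk.injEq, heq_eq_eq, Prod.mk.injEq] at h
      exact Subtype.ext (Prod.ext (dcode_inj _ _ t.2.1 t'.2.1 h.2.1) h.2.2)
  refine h1.trans (le_of_eq ?_)
  rw [Finset.card_sigma]
  exact Finset.sum_congr rfl fun j _ => by
    rw [Finset.card_product, Finset.card_range, Finset.card_range]

private noncomputable def dD (𝕜 : Type) [RCLike 𝕜] : TD 𝕜 where
  Nd := dNd
  b t := dblk t.1.1
  par := dpar
  n := dn
  vec t k := dvec 𝕜 k (dcode t.1.1) t.1.2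
  al t := (1 / 2) ^ (t.1.1.headD (0, 0)).2
  nu := dnu
  mu k := (1 / 2) ^ dh k
  p k := 5 * 25 ^ (4 * ∑ j ∈ Finset.range (k + 1), dn j)
  b_par := by
    intro t t' h
    unfold dpar at h
    split_ifs at h with h0
    have h1 := Option.some.inj h
    rw [← h1]
    exact dblk_tail t.2.1 h0
  al_pos := fun t => by positivity
  norm_vec := by
    intro t
    have h1 := dvec_ortho 𝕜 (dblk t.1.1) (dcode t.1.1) t.1.2 t.1.2 (dcode_dh t.2.1) t.2.2.2
      t.2.2.2
    rw [if_pos rfl, inner_self_eq_norm_sq_to_K] at h1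
    have h2 : ‖dvec 𝕜 (dblk t.1.1) (dcode t.1.1) t.1.2‖ ^ 2 = 1 := by exact_mod_cast h1
    exact (pow_eq_one_iff_of_nonneg (norm_nonneg _) (by norm_num)).1 h2
  inner_vec := by
    intro t t' hne hb
    have h1 := t'.2.2.2
    have h2 := dcode_dh t'.2.1
    rw [← hb] at h1 h2
    by_cases hc : dcode t.1.1 = dcode t'.1.1
    · have hs := dcode_inj _ _ t.2.1 t'.2.1 hc
      have hu : t.1.2 ≠ t'.1.2 := fun hu => hne (Subtype.ext (Prod.ext hs hu))
      rw [← hc, dvec_ortho 𝕜 _ _ _ _ (dcode_dh t.2.1) t.2.2.2 h1, if_neg hu, norm_zero]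
      positivity
    · exact dvec_unb 𝕜 _ _ _ _ _ (dcode_dh t.2.1) h2 hc t.2.2.2 h1
  card_lt := fun k A hA => dcard k A hA
  mu_nonneg := fun k => by positivity
  mu_le := by
    intro k
    have h1 := dnu_le k
    have h2 : ((dnu k : ℝ) + 1) * 2 ^ k ≤ 2 ^ dh k := by exact_mod_cast h1
    have h3 : (0 : ℝ) < 2 ^ dh k := by positivity
    have h4 : (0 : ℝ) < 2 ^ k := by positivity
    rw [one_div, inv_pow, inv_pow, mul_inv_le_iff₀ h3, inv_mul_eq_div, le_div_iff₀ h4]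
    exact h2
  p_mono := by
    intro j k hjk
    have h1 : ∑ i ∈ Finset.range (j + 1), dn i ≤ ∑ i ∈ Finset.range (k + 1), dn i :=
      Finset.sum_le_sum_of_subset (Finset.range_mono (by omega))
    exact Nat.mul_le_mul_left _ (Nat.pow_le_pow_right (by norm_num) (by omega))
  p_large := fun k => le_rfl

private theorem d_junk : Vld [(0, 0)] ∧ [(0, 0)] ≠ ([] : List (ℕ × ℕ)) ∧
    0 < dn (dblk [(0, 0)]) := by
  refine ⟨⟨List.pairwise_singleton _ _, ?_⟩, by simp, dn_pos _⟩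
  intro a ha
  rw [List.mem_singleton.1 ha]

open Classical in
private noncomputable def dnd (s : List (ℕ × ℕ)) (u : ℕ) : dNd :=
  if h : Vld s ∧ s ≠ [] ∧ u < dn (dblk s) then ⟨(s, u), h⟩ else ⟨([(0, 0)], 0), d_junk⟩

private theorem dnd_val {s : List (ℕ × ℕ)} {u : ℕ} (h1 : Vld s) (h2 : s ≠ [])
    (h3 : u < dn (dblk s)) : (dnd s u).1 = (s, u) := by
  unfold dnd
  rw [dif_pos ⟨h1, h2, h3⟩]

private noncomputable def dchains (𝕜 : Type) [RCLike 𝕜] : HasChains (dD 𝕜) where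
  nd := dnd
  b_nd := by
    intro k e s u h hu
    show dblk (dnd ((k, e) :: s) u).1.1 = k
    rw [dnd_val h (by simp) hu]
    rfl
  al_nd := by
    intro k e s u h hu
    show (1 / 2 : ℝ) ^ ((dnd ((k, e) :: s) u).1.1.headD (0, 0)).2 = _
    rw [dnd_val h (by simp) hu]
    rfl
  par_nd := by
    intro k e k' e' s u h hu
    show dpar (dnd ((k, e) :: (k', e') :: s) u) = some (dnd ((k', e') :: s) (u % dn k'))
    have h1 : (dnd ((k, e) :: (k', e') :: s) u).1 = ((k, e) :: (k', e') :: s, u) :=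
      dnd_val h (by simp) hu
    have h2 : (dnd ((k', e') :: s) (u % dn k')).1 = ((k', e') :: s, u % dn k') :=
      dnd_val (dv_tail h) (by simp) (Nat.mod_lt _ (dn_pos _))
    unfold dpar
    rw [dif_pos (by rw [h1]; simp)]
    refine congrArg some (Subtype.ext ?_)
    show ((dnd ((k, e) :: (k', e') :: s) u).1.1.tail,
      (dnd ((k, e) :: (k', e') :: s) u).1.2 %
        dn (dblk (dnd ((k, e) :: (k', e') :: s) u).1.1.tail)) = _
    rw [h1, h2]
    rfl
  ortho := by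
    intro k e s u u' h hu hu'
    show (inner 𝕜 (dvec 𝕜 k (dcode (dnd ((k, e) :: s) u).1.1) (dnd ((k, e) :: s) u).1.2)
      (dvec 𝕜 k (dcode (dnd ((k, e) :: s) u').1.1) (dnd ((k, e) :: s) u').1.2) : 𝕜) = _
    rw [dnd_val h (by simp) hu, dnd_val h (by simp) hu']
    exact dvec_ortho 𝕜 k _ u u' (dcode_dh h) hu hu'
  n_pos := dn_pos
  n_dvd := fun j k h => pow_dvd_pow _ (dh_mono h.le)
  n_ratio := by
    intro j k h
    have h1 := dh_step h
    have h2 : dn j * 16 ^ k ≤ dn k := by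
      have h3 : (16 : ℕ) ^ k = 4 ^ (2 * k) := by
        rw [pow_mul]
        norm_num
      unfold dn
      rw [h3, ← pow_add]
      exact Nat.pow_le_pow_right (by norm_num) h1
    show ((dn j : ℕ) : ℝ) * 16 ^ k ≤ ((dn k : ℕ) : ℝ)
    exact_mod_cast h2

theorem exists_data (𝕜 : Type) [RCLike 𝕜] : ∃ D : TD 𝕜, Nonempty (HasChains D) :=
  ⟨dD 𝕜, ⟨dchains 𝕜⟩⟩

end Pool.Agent.WH
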