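import Mathlib

/-!
MP_a9f751_an (Grothendieck property of B(X) for weak Hilbert spaces): the definitions of the
statement.
-/

set_option autoImplicit false

open Filter Topology

namespace Pool.Agent.WH

/-- Weak Hilbert spaces (Pisier): there are `δ` in `(0, 1]` and `C ≥ 1` such that every finite
dimensional subspace `E` of `X` contains a subspace `F` with `dim F ≥ δ dim E`, with
Banach-Mazur distance from `F` to the Euclidean space of the same dimension at most `C`, and with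
a linear projection of `X` onto `F` of norm at most `C`. -/
def IsWeakHilbert (𝕜 X : Type) [RCLike 𝕜] [NormedAddCommGroup X] [NormedSpace 𝕜 X] : Prop :=
  ∃ δ C : ℝ, 0 < δ ∧ δ ≤ 1 ∧ 1 ≤ C ∧
    ∀ E : Submodule 𝕜 X, FiniteDimensional 𝕜 E →
      ∃ F : Submodule 𝕜 X, F ≤ E ∧
        δ * (Module.finrank 𝕜 E : ℝ) ≤ (Module.finrank 𝕜 F : ℝ) ∧
        (∃ e : F ≃L[𝕜] EuclideanSpace 𝕜 (Fin (Module.finrank 𝕜 F)),
          ‖(e : F →L[𝕜] EuclideanSpace 𝕜 (Fin (Module.finrank 𝕜 F)))‖ *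
            ‖(e.symm : EuclideanSpace 𝕜 (Fin (Module.finrank 𝕜 F)) →L[𝕜] F)‖ ≤ C) ∧
        ∃ P : X →L[𝕜] X, (∀ x, P x ∈ F) ∧ (∀ x ∈ F, P x = x) ∧ ‖P‖ ≤ C

/-- Grothendieck spaces: every weak* convergent sequence in the dual converges weakly. -/
def IsGrothendieck (𝕜 Z : Type) [RCLike 𝕜] [NormedAddCommGroup Z] [NormedSpace 𝕜 Z] : Prop :=
  ∀ (φ : ℕ → StrongDual 𝕜 Z) (ψ : StrongDual 𝕜 Z),
    (∀ z, Tendsto (fun n => φ n z) atTop (𝓝 (ψ z))) →
      ∀ Θ : StrongDual 𝕜 (StrongDual 𝕜 Z), Tendsto (fun n => Θ (φ n)) atTop (𝓝 (Θ ψ))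

end Pool.Agent.WH
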