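import Pool.Agent.WH.Cls
import Pool.Agent.WH.Seg

/-!
Project WH (MP_a9f751_an), row WH-10A: start nodes of the pieces (helper6).
-/

set_option autoImplicit false

open Filter Topology

namespace Pool.Agent.WH

variable {𝕜 : Type} [RCLike 𝕜]

section
variable (D : TD 𝕜) {d : ℕ} (SS : Fin d → Finset (Finset D.Nd))

/-- `t` is a node of one of the segments -/
def InV (t : D.Nd) : Prop := ∃ i, ∃ S ∈ SS i, t ∈ S

/-- `t` is linked to its parent `t'`: they lie in the same segments -/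
def Lnk (t t' : D.Nd) : Prop :=
  D.par t = some t' ∧ InV D SS t ∧ ∀ i, ∀ S ∈ SS i, (t ∈ S ↔ t' ∈ S)

/-- start nodes of the pieces -/
def IsStart (t : D.Nd) : Prop := InV D SS t ∧ ∀ t', ¬ Lnk D SS t t'

/-- `f` is the first node of `S` -/
private def startFst (S : Finset D.Nd) (f : D.Nd) : Prop :=
  f ∈ S ∧ ∀ t', D.par f = some t' → t' ∉ S

private theorem startFst_unique {S : Finset D.Nd} (h : D.IsSeg S) {f g : D.Nd}
    (hf : startFst D S f) (hg : startFst D S g) : f = g := by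
  obtain ⟨w, -, -, -, hw⟩ := seg_first D h
  have key : ∀ t, startFst D S t → t = w := by
    intro t ht
    by_contra hne
    obtain ⟨t', ht', hp⟩ := hw t ht.1 hne
    exact ht.2 t' hp ht'
  rw [key f hf, key g hg]

open Classical in
/-- the member of `SS i` which contains `t` -/
private noncomputable def startSeg (i : Fin d) (t : D.Nd) : Finset D.Nd :=
  if h : ∃ S ∈ SS i, t ∈ S then h.choose else ∅

private theorem startSeg_eq
    (hdisj : ∀ i, ∀ S ∈ SS i, ∀ S' ∈ SS i, ∀ t, t ∈ S → t ∈ S' → S = S')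
    {i : Fin d} {S : Finset D.Nd} (hS : S ∈ SS i) {t : D.Nd} (ht : t ∈ S) :
    startSeg D SS i t = S := by
  have h : ∃ S ∈ SS i, t ∈ S := ⟨S, hS, ht⟩
  rw [startSeg, dif_pos h]
  exact hdisj i _ h.choose_spec.1 S hS t h.choose_spec.2 ht

/-- first nodes of members of `SS i` -/
private def StartA (i : Fin d) (t : D.Nd) : Prop := ∃ S ∈ SS i, startFst D S t

/-- the data of a node which leaves a member of `SS i` inside a member of `SS j` -/
private def StartLeave (j i : Fin d) (t : D.Nd) (S S' : Finset D.Nd) : Prop :=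
  S ∈ SS j ∧ S' ∈ SS i ∧ t ∈ S ∧ t ∉ S' ∧ ∃ t', D.par t = some t' ∧ t' ∈ S ∧ t' ∈ S'

private def StartB (j i : Fin d) (t : D.Nd) : Prop :=
  ∃ S S', StartLeave D SS j i t S S' ∧ ∃ f, startFst D S f ∧ f ∈ S'

private def StartC (j i : Fin d) (t : D.Nd) : Prop :=
  ∃ S S', StartLeave D SS j i t S S' ∧ ∃ f, startFst D S' f ∧ f ∈ S

private theorem start_cover (hseg : ∀ i, ∀ S ∈ SS i, D.IsSeg S) {t : D.Nd}
    (ht : IsStart D SS t) :
    (∃ i, StartA D SS i t) ∨ (∃ j i, StartB D SS j i t) ∨ ∃ j i, StartC D SS j i t := by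
  obtain ⟨⟨j, S, hS, htS⟩, hn⟩ := ht
  by_cases hfst : startFst D S t
  · exact Or.inl ⟨j, S, hS, hfst⟩
  have hfst' : ¬ ∀ t', D.par t = some t' → t' ∉ S := fun h => hfst ⟨htS, h⟩
  push Not at hfst'
  obtain ⟨t', hp, ht'S⟩ := hfst'
  have h1 : ¬ ∀ i, ∀ S ∈ SS i, (t ∈ S ↔ t' ∈ S) := fun h => hn t' ⟨hp, ⟨j, S, hS, htS⟩, h⟩
  push Not at h1
  obtain ⟨i, S', hS', h2⟩ := h1
  rcases h2 with ⟨h3, h4⟩ | ⟨h3, h4⟩
  · refine Or.inl ⟨i, S', hS', h3, ?_⟩
    intro u hu
    rw [hp] at hu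
    cases hu
    exact h4
  · obtain ⟨f, hf, -, hf2, -⟩ := seg_first D (hseg j S hS)
    obtain ⟨f', hf', -, hf2', -⟩ := seg_first D (hseg i S' hS')
    have hL : StartLeave D SS j i t S S' := ⟨hS, hS', htS, h3, t', hp, ht'S, h4⟩
    rcases seg_first_mem D (hseg j S hS) (hseg i S' hS') ht'S h4 hf hf' hf2 hf2' with h | h
    · exact Or.inr (Or.inl ⟨j, i, S, S', hL, f, ⟨hf, hf2⟩, h⟩)
    · exact Or.inr (Or.inr ⟨j, i, S, S', hL, f', ⟨hf', hf2'⟩, h⟩)

private theorem start_leave_unique (hseg : ∀ i, ∀ S ∈ SS i, D.IsSeg S) {j i : Fin d}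
    {t₁ t₂ : D.Nd} {S S' : Finset D.Nd} (h₁ : StartLeave D SS j i t₁ S S')
    (h₂ : StartLeave D SS j i t₂ S S') : t₁ = t₂ := by
  obtain ⟨hS, hS', a₁, n₁, u₁, p₁, b₁, c₁⟩ := h₁
  obtain ⟨-, -, a₂, n₂, u₂, p₂, b₂, c₂⟩ := h₂
  exact seg_exit_unique D (hseg i S' hS') (hseg j S hS) a₁ a₂ b₁ b₂ p₁ p₂ c₁ c₂ n₁ n₂

theorem start_cls (a : ℕ) (hseg : ∀ i, ∀ S ∈ SS i, D.IsSeg S)
    (hdisj : ∀ i, ∀ S ∈ SS i, ∀ S' ∈ SS i, ∀ t, t ∈ S → t ∈ S' → S = S')
    (hC : ∀ i, Cls D.p D.posS a (SS i)) (T : Finset D.Nd) (hT : ∀ t ∈ T, IsStart D SS t) :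
    ∃ H : Fin d ⊕ (Fin d × Fin d) ⊕ (Fin d × Fin d) → Finset D.Nd,
      (∀ i, Cls D.p D.b a (H i)) ∧ ∀ t ∈ T, ∃ i, t ∈ H i := by
  classical
  refine ⟨fun x => match x with
    | .inl i => T.filter (StartA D SS i)
    | .inr (.inl y) => T.filter (StartB D SS y.1 y.2)
    | .inr (.inr y) => T.filter (StartC D SS y.1 y.2), ?_, ?_⟩
  · rintro (i | ⟨j, i⟩ | ⟨j, i⟩)
    · -- first nodes
      have key : ∀ t ∈ T.filter (StartA D SS i), ∃ S ∈ SS i, startFst D S t ∧
          startSeg D SS i t = S := by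
        intro t ht
        obtain ⟨S, hS, h⟩ := (Finset.mem_filter.1 ht).2
        exact ⟨S, hS, h, startSeg_eq D SS hdisj hS h.1⟩
      refine cls_spread D.p_mono (hC i) (startSeg D SS i) ?_ ?_ ?_
      · intro t ht
        obtain ⟨S, hS, -, h⟩ := key t ht
        rw [h]
        exact hS
      · intro t₁ h₁ t₂ h₂ he
        obtain ⟨S₁, hS₁, f₁, e₁⟩ := key t₁ h₁
        obtain ⟨S₂, hS₂, f₂, e₂⟩ := key t₂ h₂
        rw [e₁, e₂] at he
        subst he
        exact startFst_unique D (hseg i S₁ hS₁) f₁ f₂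
      · intro t ht
        obtain ⟨S, hS, h, e⟩ := key t ht
        rw [e]
        exact posS_le D h.1
    · -- nodes which leave, the first node of `S` is in `S'`
      have key : ∀ t ∈ T.filter (StartB D SS j i), ∃ S S', StartLeave D SS j i t S S' ∧
          (∃ f, startFst D S f ∧ f ∈ S') ∧ startSeg D SS j t = S := by
        intro t ht
        obtain ⟨S, S', h, hf⟩ := (Finset.mem_filter.1 ht).2
        exact ⟨S, S', h, hf, startSeg_eq D SS hdisj h.1 h.2.2.1⟩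
      refine cls_spread D.p_mono (hC j) (startSeg D SS j) ?_ ?_ ?_
      · intro t ht
        obtain ⟨S, S', h, -, e⟩ := key t ht
        rw [e]
        exact h.1
      · intro t₁ h₁ t₂ h₂ he
        obtain ⟨S₁, S₁', l₁, ⟨f₁, g₁, m₁⟩, e₁⟩ := key t₁ h₁
        obtain ⟨S₂, S₂', l₂, ⟨f₂, g₂, m₂⟩, e₂⟩ := key t₂ h₂
        rw [e₁, e₂] at he
        subst he
        have hf : f₁ = f₂ := startFst_unique D (hseg j S₁ l₁.1) g₁ g₂
        subst hf
        have hS' : S₁' = S₂' := hdisj i _ l₁.2.1 _ l₂.2.1 f₁ m₁ m₂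
        subst hS'
        exact start_leave_unique D SS hseg l₁ l₂
      · intro t ht
        obtain ⟨S, S', h, -, e⟩ := key t ht
        rw [e]
        exact posS_le D h.2.2.1
    · -- nodes which leave, the first node of `S'` is in `S`
      have key : ∀ t ∈ T.filter (StartC D SS j i), ∃ S S', StartLeave D SS j i t S S' ∧
          (∃ f, startFst D S' f ∧ f ∈ S) ∧
          startSeg D SS i ((D.par t).getD t) = S' ∧ D.posS S' ≤ D.b t := by
        intro t ht
        obtain ⟨S, S', h, hf⟩ := (Finset.mem_filter.1 ht).2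
        obtain ⟨t', hp, h3, h4⟩ := h.2.2.2.2
        refine ⟨S, S', h, hf, ?_, ?_⟩
        · rw [hp]
          exact startSeg_eq D SS hdisj h.2.1 h4
        · exact (posS_le D h4).trans (D.b_par t t' hp).le
      refine cls_spread D.p_mono (hC i) (fun t => startSeg D SS i ((D.par t).getD t)) ?_ ?_ ?_
      · intro t ht
        obtain ⟨S, S', h, -, e, -⟩ := key t ht
        show startSeg D SS i ((D.par t).getD t) ∈ SS i
        rw [e]
        exact h.2.1
      · intro t₁ h₁ t₂ h₂ he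
        obtain ⟨S₁, S₁', l₁, ⟨f₁, g₁, m₁⟩, e₁, -⟩ := key t₁ h₁
        obtain ⟨S₂, S₂', l₂, ⟨f₂, g₂, m₂⟩, e₂, -⟩ := key t₂ h₂
        change startSeg D SS i ((D.par t₁).getD t₁) = startSeg D SS i ((D.par t₂).getD t₂) at he
        rw [e₁, e₂] at he
        subst he
        have hf : f₁ = f₂ := startFst_unique D (hseg i S₁' l₁.2.1) g₁ g₂
        subst hf
        have hS : S₁ = S₂ := hdisj j _ l₁.1 _ l₂.1 f₁ m₁ m₂
        subst hS
        exact start_leave_unique D SS hseg l₁ l₂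
      · intro t ht
        obtain ⟨S, S', h, -, e, hp⟩ := key t ht
        show D.posS (startSeg D SS i ((D.par t).getD t)) ≤ D.b t
        rw [e]
        exact hp
  · intro t ht
    rcases start_cover D SS hseg (hT t ht) with ⟨i, h⟩ | ⟨j, i, h⟩ | ⟨j, i, h⟩
    · exact ⟨.inl i, Finset.mem_filter.2 ⟨ht, h⟩⟩
    · exact ⟨.inr (.inl (j, i)), Finset.mem_filter.2 ⟨ht, h⟩⟩
    · exact ⟨.inr (.inr (j, i)), Finset.mem_filter.2 ⟨ht, h⟩⟩

end

end Pool.Agent.WH
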