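import Pool.Agent.WH.Seg
import Pool.Agent.WH.Start

/-!
Project WH, row WH-10B: the pieces of several families of segments.
-/

set_option autoImplicit false

open Filter Topology

namespace Pool.Agent.WH

variable {𝕜 : Type} [RCLike 𝕜]

section
variable (D : TD 𝕜) {d : ℕ} (SS : Fin d → Finset (Finset D.Nd))

private theorem pc_lnk_unique {t a b : D.Nd} (h : Lnk D SS t a) (h' : Lnk D SS t b) : a = b :=
  Option.some.inj (h.1.symm.trans h'.1)

private theorem pc_lnk_inV {t t' : D.Nd} (h : Lnk D SS t t') : InV D SS t' := by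
  obtain ⟨i, S, hS, ht⟩ := h.2.1
  exact ⟨i, S, hS, (h.2.2 i S hS).1 ht⟩

private theorem pc_not_start {t : D.Nd} (h : InV D SS t) (h' : ¬ IsStart D SS t) :
    ∃ t', Lnk D SS t t' := by
  by_contra hc
  push Not at hc
  exact h' ⟨h, hc⟩

private theorem pc_exists (n : ℕ) : ∀ t : D.Nd, D.b t ≤ n → InV D SS t →
    ∃ r, IsStart D SS r ∧ Relation.ReflTransGen (Lnk D SS) t r := by
  induction n with
  | zero =>
    intro t ht hV
    refine ⟨t, ⟨hV, ?_⟩, Relation.ReflTransGen.refl⟩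
    intro t' h
    have := D.b_par t t' h.1
    omega
  | succ n ih =>
    intro t ht hV
    by_cases hs : IsStart D SS t
    · exact ⟨t, hs, Relation.ReflTransGen.refl⟩
    · obtain ⟨t', h⟩ := pc_not_start D SS hV hs
      have h1 := D.b_par t t' h.1
      obtain ⟨r, hr, h2⟩ := ih t' (by omega) (pc_lnk_inV D SS h)
      exact ⟨r, hr, Relation.ReflTransGen.head h h2⟩

private theorem pc_unique {t r r' : D.Nd} (h : Relation.ReflTransGen (Lnk D SS) t r)
    (h' : Relation.ReflTransGen (Lnk D SS) t r') (hr : IsStart D SS r)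
    (hr' : IsStart D SS r') : r = r' := by
  induction h using Relation.ReflTransGen.head_induction_on with
  | refl =>
    rcases Relation.ReflTransGen.cases_head h' with h1 | ⟨c, hc, -⟩
    · exact h1
    · exact absurd hc (hr.2 c)
  | head hac _ ih =>
    rcases Relation.ReflTransGen.cases_head h' with h1 | ⟨c, hc, hcb⟩
    · subst h1
      exact absurd hac (hr'.2 _)
    · have h2 := pc_lnk_unique D SS hac hc
      subst h2
      exact ih hcb

private theorem pc_mem {t r : D.Nd} (h : Relation.ReflTransGen (Lnk D SS) t r) (i : Fin d)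
    (S : Finset D.Nd) (hS : S ∈ SS i) : t ∈ S ↔ r ∈ S := by
  induction h with
  | refl => exact Iff.rfl
  | tail _ hbc ih => exact ih.trans (hbc.2.2 i S hS)

private theorem pc_b {t r : D.Nd} (h : Relation.ReflTransGen (Lnk D SS) t r) :
    D.b r ≤ D.b t := by
  induction h with
  | refl => exact le_rfl
  | tail _ hbc ih =>
    have := D.b_par _ _ hbc.1
    omega

private theorem pc_step {t r : D.Nd} (h : Relation.ReflTransGen (Lnk D SS) t r) (hne : t ≠ r) :
    ∃ t', Lnk D SS t t' ∧ Relation.ReflTransGen (Lnk D SS) t' r := by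
  rcases Relation.ReflTransGen.cases_head h with h1 | ⟨c, hc, hcb⟩
  · exact absurd h1 hne
  · exact ⟨c, hc, hcb⟩

open Classical in
/-- the nodes of all segments -/
private noncomputable def pcV : Finset D.Nd :=
  Finset.univ.biUnion (fun i => (SS i).biUnion id)

private theorem mem_pcV (t : D.Nd) : t ∈ pcV D SS ↔ InV D SS t := by
  simp only [pcV, Finset.mem_biUnion, Finset.mem_univ, true_and, id, InV]

theorem exists_pieces (hseg : ∀ i, ∀ S ∈ SS i, D.IsSeg S) :
    ∃ R : D.Nd → Finset D.Nd,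
      (∀ r, IsStart D SS r → r ∈ R r ∧ D.IsSeg (R r) ∧ D.posS (R r) = D.b r ∧
        (∀ t', D.par r = some t' → t' ∉ R r) ∧
        ∀ t ∈ R r, InV D SS t ∧ (t ≠ r → ¬ IsStart D SS t)) ∧
      (∀ r r', IsStart D SS r → IsStart D SS r' → r ≠ r' → ∀ t, t ∈ R r → t ∉ R r') ∧
      (∀ i, ∀ S ∈ SS i, ∀ r ∈ S, IsStart D SS r → R r ⊆ S) ∧
      (∀ i, ∀ S ∈ SS i, ∀ t ∈ S, ∃ r ∈ S, IsStart D SS r ∧ t ∈ R r) := by
  classical
  have hmem : ∀ r t, t ∈ (pcV D SS).filter (fun t => Relation.ReflTransGen (Lnk D SS) t r) ↔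
      InV D SS t ∧ Relation.ReflTransGen (Lnk D SS) t r := by
    intro r t
    rw [Finset.mem_filter, mem_pcV]
  refine ⟨fun r => (pcV D SS).filter (fun t => Relation.ReflTransGen (Lnk D SS) t r),
    ?_, ?_, ?_, ?_⟩
  · intro r hr
    have hrr : r ∈ (pcV D SS).filter (fun t => Relation.ReflTransGen (Lnk D SS) t r) :=
      (hmem r r).2 ⟨hr.1, Relation.ReflTransGen.refl⟩
    have hsub : ∃ i, ∃ S ∈ SS i, ∀ t ∈ (pcV D SS).filter
        (fun t => Relation.ReflTransGen (Lnk D SS) t r), t ∈ S := by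
      obtain ⟨i, S, hS, h1⟩ := hr.1
      exact ⟨i, S, hS, fun t ht => (pc_mem D SS ((hmem r t).1 ht).2 i S hS).2 h1⟩
    have hpar : ∀ t ∈ (pcV D SS).filter (fun t => Relation.ReflTransGen (Lnk D SS) t r),
        t ≠ r → ∃ t' ∈ (pcV D SS).filter (fun t => Relation.ReflTransGen (Lnk D SS) t r),
          D.par t = some t' ∧ Lnk D SS t t' := by
      intro t ht hne
      obtain ⟨t', h1, h2⟩ := pc_step D SS ((hmem r t).1 ht).2 hne
      exact ⟨t', (hmem r t').2 ⟨pc_lnk_inV D SS h1, h2⟩, h1.1, h1⟩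
    refine ⟨hrr, ?_, ?_, ?_, ?_⟩
    · refine seg_of_local D ⟨r, hrr⟩ ?_ ?_
      · have key : ∀ t ∈ (pcV D SS).filter (fun t => Relation.ReflTransGen (Lnk D SS) t r),
            (∀ t', D.par t = some t' →
              t' ∉ (pcV D SS).filter (fun t => Relation.ReflTransGen (Lnk D SS) t r)) →
            t = r := by
          intro t ht h
          by_contra hne
          obtain ⟨t', h1, h2, -⟩ := hpar t ht hne
          exact h t' h2 h1
        intro t₁ h₁ t₂ h₂ k₁ k₂
        rw [key t₁ h₁ k₁, key t₂ h₂ k₂]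
      · intro t₁ h₁ t₂ h₂ t' _ k₁ k₂
        obtain ⟨i, S, hS, h⟩ := hsub
        exact seg_child_unique D (hseg i S hS) (h t₁ h₁) (h t₂ h₂) k₁ k₂
    · refine le_antisymm (posS_le D hrr) ?_
      have hne : (D.b '' (((pcV D SS).filter
          (fun t => Relation.ReflTransGen (Lnk D SS) t r) : Finset D.Nd) : Set D.Nd)).Nonempty :=
        ⟨D.b r, r, hrr, rfl⟩
      obtain ⟨t, ht, h1⟩ := Nat.sInf_mem hne
      rw [TD.posS, ← h1]
      exact pc_b D SS ((hmem r t).1 ht).2
    · intro t' h1 h2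
      have h3 := pc_b D SS ((hmem r t').1 h2).2
      have h4 := D.b_par r t' h1
      omega
    · intro t ht
      refine ⟨((hmem r t).1 ht).1, fun hne hs => ?_⟩
      obtain ⟨t', -, -, h⟩ := hpar t ht hne
      exact hs.2 t' h
  · intro r r' hr hr' hne t ht ht'
    exact hne (pc_unique D SS ((hmem r t).1 ht).2 ((hmem r' t).1 ht').2 hr hr')
  · intro i S hS r hrS _ t ht
    exact (pc_mem D SS ((hmem r t).1 ht).2 i S hS).2 hrS
  · intro i S hS t ht
    obtain ⟨r, hr, h⟩ := pc_exists D SS (D.b t) t le_rfl ⟨i, S, hS, ht⟩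
    exact ⟨r, (pc_mem D SS h i S hS).1 ht, hr, (hmem r t).2 ⟨⟨i, S, hS, ht⟩, h⟩⟩

theorem nonstart_card (hseg : ∀ i, ∀ S ∈ SS i, D.IsSeg S) (k : ℕ) (A : Finset D.Nd)
    (hA : ∀ t ∈ A, D.b t = k ∧ InV D SS t ∧ ¬ IsStart D SS t) : A.card ≤ D.nu k := by
  classical
  have h1 : ∀ t, ∃ t', t ∈ A → Lnk D SS t t' := by
    intro t
    by_cases ht : t ∈ A
    · obtain ⟨t', h⟩ := pc_not_start D SS (hA t ht).2.1 (hA t ht).2.2
      exact ⟨t', fun _ => h⟩
    · exact ⟨t, fun h => absurd h ht⟩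
  choose f hf using h1
  have hinj : Set.InjOn f (A : Set D.Nd) := by
    intro t₁ h₁ t₂ h₂ he
    have k₁ := hf t₁ h₁
    have k₂ := hf t₂ h₂
    rw [← he] at k₂
    obtain ⟨i, S, hS, h⟩ := k₁.2.1
    have h' : t₂ ∈ S := (k₂.2.2 i S hS).2 ((k₁.2.2 i S hS).1 h)
    exact seg_child_unique D (hseg i S hS) h h' k₁.1 k₂.1
  rw [← Finset.card_image_of_injOn hinj]
  refine D.card_lt k _ ?_
  intro t' ht'
  obtain ⟨t, ht, rfl⟩ := Finset.mem_image.1 ht'
  have h2 := D.b_par t (f t) (hf t ht).1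
  have h3 := (hA t ht).1
  omega

end

end Pool.Agent.WH
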