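import Pool.Agent.WH.Cls
import Pool.Agent.WH.Bessel
import Pool.Agent.WH.Seg
import Pool.Agent.WH.Refine
import Pool.Agent.WH.Start
import Pool.Agent.WH.Pieces

/-!
Project WH, row 10: the join lemma. Families of one class in the blocks from `k₀` on are
dominated by one family of the next class.
-/

set_option autoImplicit false

open Filter Topology

namespace Pool.Agent.WH

variable {𝕜 : Type} [RCLike 𝕜]

private theorem wh10_qS_empty (D : TD 𝕜) (x : D.V) : D.qS ∅ x = 0 := by
  simp [TD.qS]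

private theorem wh10_seg_nonempty (D : TD 𝕜) {S : Finset D.Nd} (h : D.IsSeg S) :
    S.Nonempty := by
  obtain ⟨m, g, -, h2⟩ := h
  exact ⟨g 0, (h2 _).2 ⟨0, Nat.zero_le _, rfl⟩⟩

/-- position of a nonempty set of nodes -/
private theorem wh10_le_posS (D : TD 𝕜) {S : Finset D.Nd} (hS : S.Nonempty) (k : ℕ)
    (h : ∀ t ∈ S, k ≤ D.b t) : k ≤ D.posS S := by
  obtain ⟨t₀, ht₀⟩ := hS
  have hne : (D.b '' (S : Set D.Nd)).Nonempty := ⟨D.b t₀, t₀, ht₀, rfl⟩
  obtain ⟨t, ht, hb⟩ := Nat.sInf_mem hne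
  have : D.posS S = D.b t := hb.symm
  rw [this]
  exact h t ht

private theorem wh10_cls_empty {ι : Type} (p : ℕ → ℕ) (pos : ι → ℕ) (a : ℕ) :
    Cls p pos a ∅ := by
  cases a with
  | zero => simp [Cls]
  | succ a => exact ⟨0, fun _ => ∅, by simp, by simp, by simp⟩

/-- transport of a cover by classes along a relation -/
private theorem wh10_cls (D : TD 𝕜) {ι κ : Type} (a : ℕ) (pos : ι → ℕ) (G : Finset ι)
    (T : Finset D.Nd) (H : κ → Finset D.Nd) (hH1 : ∀ i, Cls D.p D.b a (H i))
    (hH2 : ∀ t ∈ T, ∃ i, t ∈ H i) (rel : ι → D.Nd → Prop)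
    (h1 : ∀ g ∈ G, ∃ t ∈ T, rel g t)
    (h2 : ∀ g ∈ G, ∀ g' ∈ G, ∀ t, rel g t → rel g' t → g = g')
    (h3 : ∀ g ∈ G, ∀ t, rel g t → D.b t ≤ pos g) :
    ∃ H' : κ → Finset ι, (∀ i, Cls D.p pos a (H' i)) ∧ ∀ g ∈ G, ∃ i, g ∈ H' i := by
  classical
  rcases Finset.eq_empty_or_nonempty G with rfl | ⟨g₀, hg₀⟩
  · exact ⟨fun _ => ∅, fun _ => wh10_cls_empty _ _ _, by simp⟩
  · obtain ⟨t₀, -, -⟩ := h1 g₀ hg₀
    let f : ι → D.Nd := fun g => if hg : g ∈ G then (h1 g hg).choose else t₀
    have hf : ∀ g ∈ G, f g ∈ T ∧ rel g (f g) := by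
      intro g hg
      simp only [f, hg, dif_pos]
      exact (h1 g hg).choose_spec
    refine ⟨fun i => G.filter fun g => f g ∈ H i, fun i => ?_, fun g hg => ?_⟩
    · refine cls_spread D.p_mono (hH1 i) f (fun g hg => (Finset.mem_filter.1 hg).2) ?_ ?_
      · intro g hg g' hg' he
        have hg := (Finset.mem_filter.1 hg).1
        have hg' := (Finset.mem_filter.1 hg').1
        refine h2 g hg g' hg' (f g) (hf g hg).2 ?_
        rw [he]
        exact (hf g' hg').2
      · intro g hg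
        have hg := (Finset.mem_filter.1 hg).1
        exact h3 g hg _ (hf g hg).2
    · obtain ⟨i, hi⟩ := hH2 (f g) (hf g hg).1
      exact ⟨i, Finset.mem_filter.2 ⟨hg, hi⟩⟩

theorem fam_join (D : TD 𝕜) (a d k₀ : ℕ) (hd : 5 * d ^ 2 ≤ D.p k₀) (B : Fin d → Finset ℕ)
    (SS : Fin d → Finset (Finset D.Nd)) (h : ∀ i, D.IsFam a (B i) (SS i))
    (hB : ∀ i, ∀ k ∈ B i, k₀ ≤ k) (hS : ∀ i, ∀ S ∈ SS i, ∀ t ∈ S, k₀ ≤ D.b t) :
    ∃ (B' : Finset ℕ) (SS' : Finset (Finset D.Nd)), D.IsFam (a + 1) B' SS' ∧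
      ∀ i x, D.q (B i) (SS i) x ≤ 3 * D.q B' SS' x := by
  classical
  have hseg : ∀ i, ∀ S ∈ SS i, D.IsSeg S := fun i => (h i).seg
  have hdisj : ∀ i, ∀ S ∈ SS i, ∀ S' ∈ SS i, ∀ t, t ∈ S → t ∈ S' → S = S' :=
    fun i => (h i).disj
  obtain ⟨R, hR1, hR2, hR3, hR4⟩ := exists_pieces D SS hseg
  -- the start nodes
  let V : Finset D.Nd := (Finset.univ : Finset (Fin d)).biUnion fun i => (SS i).biUnion id
  have hV : ∀ t, t ∈ V ↔ InV D SS t := by
    intro t
    simp only [V, Finset.mem_biUnion, Finset.mem_univ, true_and, id, InV]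
  let T : Finset D.Nd := V.filter fun t => IsStart D SS t
  have hT : ∀ t, t ∈ T ↔ IsStart D SS t := by
    intro t
    simp only [T, Finset.mem_filter, hV]
    exact ⟨fun h => h.2, fun h => ⟨h.1, h⟩⟩
  -- blocks with two start nodes
  let Bb : Finset ℕ := (T.image D.b).filter fun k => 2 ≤ (T.filter fun t => D.b t = k).card
  have hBb : ∀ k, k ∈ Bb → ∃ t ∈ T, D.b t = k := by
    intro k hk
    have := (Finset.mem_filter.1 hk).1
    obtain ⟨t, ht, hb⟩ := Finset.mem_image.1 this
    exact ⟨t, ht, hb⟩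
  have hnBb : ∀ k, k ∉ Bb → ∀ t ∈ T, ∀ t' ∈ T, D.b t = k → D.b t' = k → t = t' := by
    intro k hk t ht t' ht' hb hb'
    by_contra hne
    apply hk
    refine Finset.mem_filter.2 ⟨Finset.mem_image.2 ⟨t, ht, hb⟩, ?_⟩
    exact Finset.one_lt_card.2 ⟨t, Finset.mem_filter.2 ⟨ht, hb⟩, t',
      Finset.mem_filter.2 ⟨ht', hb'⟩, hne⟩
  -- the pieces
  let P : D.Nd → Finset D.Nd := fun r => if D.b r ∈ Bb then (R r).erase r else R r
  have hPR : ∀ r, P r ⊆ R r := by
    intro r
    by_cases hr : D.b r ∈ Bb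
    · simp only [P, hr, if_true]; exact Finset.erase_subset _ _
    · simp only [P, hr, if_false]; exact subset_rfl
  have hPseg : ∀ r ∈ T, (P r).Nonempty → D.IsSeg (P r) := by
    intro r hr hne
    have hs := (hT r).1 hr
    obtain ⟨h1, h2, h3, h4, h5⟩ := hR1 r hs
    by_cases hb : D.b r ∈ Bb
    · simp only [P, hb, if_true] at hne ⊢
      exact seg_erase D h2 h1 h4 hne
    · simp only [P, hb, if_false]
      exact h2
  let SS' : Finset (Finset D.Nd) := (T.image P).filter fun S => S.Nonempty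
  have hSS' : ∀ S, S ∈ SS' ↔ S.Nonempty ∧ ∃ r ∈ T, P r = S := by
    intro S
    simp only [SS', Finset.mem_filter, Finset.mem_image]
    tauto
  let B' : Finset ℕ := ((Finset.univ : Finset (Fin d)).biUnion B) ∪ Bb
  -- positions of the start nodes
  have hposT : ∀ r ∈ T, k₀ ≤ D.b r := by
    intro r hr
    obtain ⟨⟨i, S, hSi, hrS⟩, -⟩ := (hT r).1 hr
    exact hS i S hSi r hrS
  have hposP : ∀ r ∈ T, (P r).Nonempty → D.b r ≤ D.posS (P r) := by
    intro r hr hne
    obtain ⟨h1, h2, h3, h4, h5⟩ := hR1 r ((hT r).1 hr)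
    refine wh10_le_posS D hne _ fun t ht => ?_
    rw [← h3]
    exact posS_le D (hPR r ht)
  -- the classes
  obtain ⟨H, hH1, hH2⟩ := start_cls D SS a hseg hdisj (fun i => (h i).clsS) T
    (fun t ht => (hT t).1 ht)
  have hd0 : ∀ i : Fin d, 1 ≤ d := fun i => Nat.one_le_of_lt i.2
  have hpk : ∀ k, k₀ ≤ k → 5 * d ^ 2 ≤ D.p k := fun k hk => hd.trans (D.p_mono hk)
  have hclsS : Cls D.p D.posS (a + 1) SS' := by
    obtain ⟨H', hH1', hH2'⟩ := wh10_cls D a D.posS SS' T H hH1 hH2
      (fun S r => r ∈ T ∧ P r = S)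
      (by
        intro S hS
        obtain ⟨-, r, hr, hP⟩ := (hSS' S).1 hS
        exact ⟨r, hr, hr, hP⟩)
      (by
        rintro S - S' - r ⟨-, h1⟩ ⟨-, h2⟩
        rw [← h1, ← h2])
      (by
        rintro S hS r ⟨hr, h1⟩
        have hne := ((hSS' S).1 hS).1
        rw [← h1] at hne ⊢
        exact hposP r hr hne)
    refine cls_cover (Finset.univ : Finset (Fin d ⊕ (Fin d × Fin d) ⊕ (Fin d × Fin d))) H' ?_
      (fun i _ => hH1' i) ?_
    · intro S hS
      obtain ⟨hne, r, hr, hP⟩ := (hSS' S).1 hS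
      have h1 : k₀ ≤ D.posS S := by
        rw [← hP] at hne ⊢
        exact (hposT r hr).trans (hposP r hr hne)
      refine le_trans ?_ (hpk _ h1)
      simp only [Finset.card_univ, Fintype.card_sum, Fintype.card_prod, Fintype.card_fin]
      nlinarith [Nat.zero_le d, Nat.le_self_pow (n := 2) (by norm_num) d]
    · intro S hS
      obtain ⟨i, hi⟩ := hH2' S hS
      exact ⟨i, Finset.mem_univ _, hi⟩
  have hclsB : Cls D.p id (a + 1) B' := by
    obtain ⟨H', hH1', hH2'⟩ := wh10_cls D a id Bb T H hH1 hH2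
      (fun k r => D.b r = k)
      (by
        intro k hk
        obtain ⟨r, hr, hb⟩ := hBb k hk
        exact ⟨r, hr, hb⟩)
      (by
        rintro k - k' - r h1 h2
        rw [← h1, ← h2])
      (by
        rintro k - r h1
        exact h1.le)
    refine cls_cover (Finset.univ : Finset (Fin d ⊕ (Fin d ⊕ (Fin d × Fin d) ⊕
      (Fin d × Fin d)))) (fun i => Sum.elim B H' i) ?_ ?_ ?_
    · intro k hk
      have h1 : k₀ ≤ k := by
        rcases Finset.mem_union.1 hk with hk | hk
        · obtain ⟨i, -, hi⟩ := Finset.mem_biUnion.1 hk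
          exact hB i k hi
        · obtain ⟨r, hr, hb⟩ := hBb k hk
          rw [← hb]
          exact hposT r hr
      refine le_trans ?_ (hpk _ h1)
      simp only [Finset.card_univ, Fintype.card_sum, Fintype.card_prod, Fintype.card_fin]
      nlinarith [Nat.zero_le d, Nat.le_self_pow (n := 2) (by norm_num) d]
    · rintro (i | i) -
      · exact (h i).clsB
      · exact hH1' i
    · intro k hk
      rcases Finset.mem_union.1 hk with hk | hk
      · obtain ⟨i, -, hi⟩ := Finset.mem_biUnion.1 hk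
        exact ⟨Sum.inl i, Finset.mem_univ _, hi⟩
      · obtain ⟨i, hi⟩ := hH2' k hk
        exact ⟨Sum.inr i, Finset.mem_univ _, hi⟩
  have hfam : D.IsFam (a + 1) B' SS' := by
    refine ⟨?_, ?_, ?_, hclsB, hclsS⟩
    · intro S hS
      obtain ⟨hne, r, hr, hP⟩ := (hSS' S).1 hS
      rw [← hP] at hne ⊢
      exact hPseg r hr hne
    · intro S hS S' hS' t ht ht'
      obtain ⟨-, r, hr, hP⟩ := (hSS' S).1 hS
      obtain ⟨-, r', hr', hP'⟩ := (hSS' S').1 hS'
      rw [← hP] at ht ⊢
      rw [← hP'] at ht' ⊢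
      have : r = r' := by
        by_contra hne
        exact hR2 r r' ((hT r).1 hr) ((hT r').1 hr') hne t (hPR r ht) (hPR r' ht')
      rw [this]
    · intro k A hA
      -- start nodes in `A`
      have h1 : (A.filter fun t => IsStart D SS t).card ≤ 1 := by
        refine Finset.card_le_one.2 fun t ht t' ht' => ?_
        obtain ⟨htA, hts⟩ := Finset.mem_filter.1 ht
        obtain ⟨htA', hts'⟩ := Finset.mem_filter.1 ht'
        have key : ∀ t ∈ A, IsStart D SS t → k ∉ Bb := by
          intro t htA hts hk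
          obtain ⟨hb, S, hS, htS⟩ := hA t htA
          obtain ⟨-, r, hr, hP⟩ := (hSS' S).1 hS
          obtain ⟨-, -, -, -, h5⟩ := hR1 r ((hT r).1 hr)
          rw [← hP] at htS
          have htr : t = r := by
            by_contra hne
            exact (h5 t (hPR r htS)).2 hne hts
          subst htr
          have hbb : D.b t ∈ Bb := by rw [hb]; exact hk
          simp only [P, hbb, if_true] at htS
          exact (Finset.notMem_erase t (R t)) htS
        exact hnBb k (key t htA hts) t ((hT t).2 hts) t' ((hT t').2 hts') (hA t htA).1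
          (hA t' htA').1
      have h2 : (A.filter fun t => ¬ IsStart D SS t).card ≤ D.nu k := by
        refine nonstart_card D SS hseg k _ fun t ht => ?_
        obtain ⟨htA, hts⟩ := Finset.mem_filter.1 ht
        obtain ⟨hb, S, hS, htS⟩ := hA t htA
        obtain ⟨-, r, hr, hP⟩ := (hSS' S).1 hS
        obtain ⟨-, -, -, -, h5⟩ := hR1 r ((hT r).1 hr)
        rw [← hP] at htS
        exact ⟨hb, (h5 t (hPR r htS)).1, hts⟩
      have h3 := Finset.card_filter_add_card_filter_not (s := A) (fun t => IsStart D SS t)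
      omega
  refine ⟨B', SS', hfam, fun i x => ?_⟩
  -- the start nodes of the family `i`
  let Ti : Finset D.Nd := T.filter fun t => ∃ S ∈ SS i, t ∈ S
  have hpart : ∀ S ∈ SS i, D.qS S x ≤ ∑ r ∈ S.filter (fun t => IsStart D SS t), D.qS (R r) x := by
    intro S hSi
    refine qS_partition D S _ R ?_ ?_ x
    · intro r hr r' hr' hne
      have hr := (Finset.mem_filter.1 hr).2
      have hr' := (Finset.mem_filter.1 hr').2
      exact Finset.disjoint_left.2 fun t ht ht' => hR2 r r' hr hr' hne t ht ht'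
    · ext t
      simp only [Finset.mem_biUnion, Finset.mem_filter]
      constructor
      · intro ht
        obtain ⟨r, hrS, hrs, htr⟩ := hR4 i S hSi t ht
        exact ⟨r, ⟨hrS, hrs⟩, htr⟩
      · rintro ⟨r, ⟨hrS, hrs⟩, htr⟩
        exact hR3 i S hSi r hrS hrs htr
  have hsum1 : ∑ S ∈ SS i, D.qS S x ≤ ∑ r ∈ Ti, D.qS (R r) x := by
    calc ∑ S ∈ SS i, D.qS S x
        ≤ ∑ S ∈ SS i, ∑ r ∈ S.filter (fun t => IsStart D SS t), D.qS (R r) x :=
          Finset.sum_le_sum hpart
      _ = ∑ r ∈ (SS i).biUnion (fun S => S.filter fun t => IsStart D SS t),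
            D.qS (R r) x := by
          rw [Finset.sum_biUnion]
          intro S hSi S' hSi' hne
          refine Finset.disjoint_left.2 fun t ht ht' => hne ?_
          exact hdisj i S hSi S' hSi' t (Finset.mem_filter.1 ht).1 (Finset.mem_filter.1 ht').1
      _ = ∑ r ∈ Ti, D.qS (R r) x := by
          refine Finset.sum_congr ?_ fun _ _ => rfl
          ext t
          simp only [Finset.mem_biUnion, Finset.mem_filter, Ti, hT]
          constructor
          · rintro ⟨S, hSi, htS, hts⟩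
            exact ⟨hts, S, hSi, htS⟩
          · rintro ⟨hts, S, hSi, htS⟩
            exact ⟨S, hSi, htS, hts⟩
  have hpiece : ∀ r ∈ Ti, D.qS (R r) x ≤ D.qS (P r) x +
      if D.b r ∈ Bb then ‖D.coef r x‖ ^ 2 else 0 := by
    intro r hr
    have hrT := (Finset.mem_filter.1 hr).1
    obtain ⟨h1, -⟩ := hR1 r ((hT r).1 hrT)
    by_cases hb : D.b r ∈ Bb
    · simp only [P, hb, if_true]
      have h2 := qS_partition D (R r) (Finset.univ : Finset Bool)
        (fun c => if c then {r} else (R r).erase r) (by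
          intro c _ c' _ hne
          cases c <;> cases c' <;> simp_all) (by
          ext t
          simp only [Finset.mem_biUnion, Finset.mem_univ, true_and, Bool.exists_bool,
            if_true, Finset.mem_singleton]
          simp only [Bool.false_eq_true, if_false, Finset.mem_erase]
          by_cases htr : t = r
          · simp [htr, h1]
          · simp [htr]) x
      simp only [Fintype.sum_bool, if_true, Bool.false_eq_true, if_false] at h2
      have h3 := qS_le_sum D {r} x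
      simp only [Finset.sum_singleton] at h3
      linarith
    · simp only [P, hb, if_false, add_zero]
      exact le_refl _
  have hsum2 : ∑ r ∈ Ti, D.qS (P r) x ≤ ∑ S ∈ SS', D.qS S x := by
    calc ∑ r ∈ Ti, D.qS (P r) x
        = ∑ r ∈ Ti.filter (fun r => (P r).Nonempty), D.qS (P r) x := by
          refine (Finset.sum_filter_of_ne fun r _ hne => ?_).symm
          by_contra he
          rw [Finset.not_nonempty_iff_eq_empty] at he
          rw [he, wh10_qS_empty] at hne
          exact hne rfl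
      _ = ∑ S ∈ (Ti.filter (fun r => (P r).Nonempty)).image P, D.qS S x := by
          rw [Finset.sum_image]
          intro r hr r' hr' he
          have hr1 := Finset.mem_filter.1 hr
          have hr1' := Finset.mem_filter.1 hr'
          obtain ⟨t, ht⟩ := hr1.2
          by_contra hne
          refine hR2 r r' ((hT r).1 (Finset.mem_filter.1 hr1.1).1)
            ((hT r').1 (Finset.mem_filter.1 hr1'.1).1) hne t (hPR r ht) (hPR r' ?_)
          rw [← he]
          exact ht
      _ ≤ ∑ S ∈ SS', D.qS S x := by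
          refine Finset.sum_le_sum_of_subset_of_nonneg ?_ fun S _ _ => qS_nonneg D S x
          intro S hS
          obtain ⟨r, hr, hP⟩ := Finset.mem_image.1 hS
          have hr1 := Finset.mem_filter.1 hr
          refine (hSS' S).2 ⟨?_, r, (Finset.mem_filter.1 hr1.1).1, hP⟩
          rw [← hP]
          exact hr1.2
  have hsum3 : ∑ r ∈ Ti, (if D.b r ∈ Bb then ‖D.coef r x‖ ^ 2 else 0) ≤
      ∑ k ∈ Bb, 2 * ‖x k‖ ^ 2 := by
    rw [← Finset.sum_filter]
    have hmaps : ∀ r ∈ Ti.filter (fun r => D.b r ∈ Bb), D.b r ∈ Bb := fun r hr =>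
      (Finset.mem_filter.1 hr).2
    rw [← Finset.sum_fiberwise_of_maps_to hmaps]
    refine Finset.sum_le_sum fun k _ => ?_
    refine coef_sum_le D k _ (fun t ht => (Finset.mem_filter.1 ht).2) ?_ x
    refine (h i).good k _ fun t ht => ⟨(Finset.mem_filter.1 ht).2, ?_⟩
    exact (Finset.mem_filter.1 (Finset.mem_filter.1 (Finset.mem_filter.1 ht).1).1).2
  have hsum4 : ∑ r ∈ Ti, D.qS (R r) x ≤ ∑ r ∈ Ti, D.qS (P r) x +
      ∑ r ∈ Ti, (if D.b r ∈ Bb then ‖D.coef r x‖ ^ 2 else 0) := by
    rw [← Finset.sum_add_distrib]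
    exact Finset.sum_le_sum hpiece
  have hB1 : ∑ k ∈ B i, ‖x k‖ ^ 2 ≤ ∑ k ∈ B', ‖x k‖ ^ 2 := by
    refine Finset.sum_le_sum_of_subset_of_nonneg ?_ fun k _ _ => by positivity
    intro k hk
    exact Finset.mem_union_left _ (Finset.mem_biUnion.2 ⟨i, Finset.mem_univ _, hk⟩)
  have hB2 : ∑ k ∈ Bb, ‖x k‖ ^ 2 ≤ ∑ k ∈ B', ‖x k‖ ^ 2 :=
    Finset.sum_le_sum_of_subset_of_nonneg Finset.subset_union_right fun k _ _ => by positivity
  have hq : 0 ≤ ∑ S ∈ SS', D.qS S x := Finset.sum_nonneg fun S _ => qS_nonneg D S x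
  rw [← Finset.mul_sum] at hsum3
  simp only [TD.q]
  linarith

end Pool.Agent.WH
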