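import Pool.Agent.WH.Base

/-!
Project WH (MP_a9f751_an), WH-18: a weak* convergent sequence of functionals, all of whose convex
combinations stay at distance at least one from the limit, does not converge weakly.
-/

set_option autoImplicit false

open Filter Topology

namespace Pool.Agent.WH

variable {𝕜 : Type} [RCLike 𝕜]

private theorem notgro_hull {Z : Type} [NormedAddCommGroup Z] [NormedSpace 𝕜 Z]
    (φ : ℕ → StrongDual 𝕜 Z) (T : ℕ → Z) (h1 : ∀ k n, k < n → φ k (T n) = 1)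
    (g : StrongDual 𝕜 Z) (hg : g ∈ convexHull ℝ (Set.range φ)) :
    ∃ N : ℕ, ∀ n, N ≤ n → g (T n) = 1 := by
  have hsub : convexHull ℝ (Set.range φ) ⊆
      {g : StrongDual 𝕜 Z | ∃ N : ℕ, ∀ n, N ≤ n → g (T n) = 1} := by
    refine convexHull_min ?_ ?_
    · rintro _ ⟨k, rfl⟩
      exact ⟨k + 1, fun n hn => h1 k n hn⟩
    · rintro x ⟨N, hN⟩ y ⟨M, hM⟩ a b _ _ hab
      refine ⟨max N M, fun n hn => ?_⟩
      rw [ContinuousLinearMap.add_apply, ContinuousLinearMap.smul_apply,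
        ContinuousLinearMap.smul_apply, hN n ((le_max_left _ _).trans hn),
        hM n ((le_max_right _ _).trans hn), ← add_smul, hab, one_smul]
  exact hsub hg

theorem not_grothendieck {Z : Type} [NormedAddCommGroup Z] [NormedSpace 𝕜 Z]
    (φ : ℕ → StrongDual 𝕜 Z) (ψ : StrongDual 𝕜 Z)
    (hw : ∀ z, Tendsto (fun n => φ n z) atTop (𝓝 (ψ z))) (T : ℕ → Z) (hT : ∀ n, ‖T n‖ ≤ 1)
    (h1 : ∀ k n, k < n → φ k (T n) = 1) (h0 : ∀ n, ψ (T n) = 0) : ¬ IsGrothendieck 𝕜 Z := by
  intro hG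
  have hlim := hG φ ψ hw
  have hfar : ∀ g ∈ convexHull ℝ (Set.range φ), (1 : ℝ) ≤ dist g ψ := by
    intro g hg
    obtain ⟨N, hN⟩ := notgro_hull φ T h1 g hg
    have h2 : (g - ψ) (T N) = 1 := by
      rw [ContinuousLinearMap.sub_apply, hN N le_rfl, h0, sub_zero]
    have h3 := (g - ψ).le_opNorm (T N)
    rw [h2, norm_one] at h3
    rw [dist_eq_norm]
    refine h3.trans ?_
    have h4 := mul_le_mul_of_nonneg_left (hT N) (norm_nonneg (g - ψ))
    rwa [mul_one] at h4
  have hnot : ψ ∉ closure (convexHull ℝ (Set.range φ)) := by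
    intro hmem
    rw [Metric.mem_closure_iff] at hmem
    obtain ⟨g, hg, hd⟩ := hmem 1 one_pos
    have h5 := hfar g hg
    rw [dist_comm] at hd
    exact absurd hd (not_lt.mpr h5)
  obtain ⟨Θ, s, hs, hψ⟩ := RCLike.geometric_hahn_banach_closed_point (𝕜 := 𝕜)
    (convex_convexHull ℝ (Set.range φ)).closure isClosed_closure hnot
  have h6 : Tendsto (fun n => RCLike.re (Θ (φ n))) atTop (𝓝 (RCLike.re (Θ ψ))) :=
    (RCLike.continuous_re.tendsto _).comp (hlim Θ)
  have h7 : RCLike.re (Θ ψ) ≤ s := by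
    refine le_of_tendsto h6 (Eventually.of_forall fun n => ?_)
    exact (hs _ (subset_closure (subset_convexHull ℝ _ ⟨n, rfl⟩))).le
  exact absurd hψ (not_lt.mpr h7)

end Pool.Agent.WH
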