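import Pool.Agent.WH.Cls

/-!
Project WH (MP_a9f751_an): weights of total mass one which are small on all sets of a given
class.
-/

set_option autoImplicit false

open Filter Topology

namespace Pool.Agent.WH

/-- a strictly increasing sequence alternating between two infinite sets -/
theorem exists_alt (M₀ M₁ : Set ℕ) (h₀ : M₀.Infinite) (h₁ : M₁.Infinite) (K : ℕ) :
    ∃ k : ℕ → ℕ, StrictMono k ∧ (∀ i, K ≤ k i) ∧ ∀ l, k (2 * l) ∈ M₀ ∧ k (2 * l + 1) ∈ M₁ := by
  have hn : ∀ (i x : ℕ), ∃ y, x < y ∧ (i % 2 = 0 → y ∈ M₀) ∧ (i % 2 = 1 → y ∈ M₁) := by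
    intro i x
    rcases Nat.mod_two_eq_zero_or_one i with hi | hi
    · obtain ⟨y, hy, hxy⟩ := h₀.exists_gt x
      exact ⟨y, hxy, fun _ => hy, fun h => by omega⟩
    · obtain ⟨y, hy, hxy⟩ := h₁.exists_gt x
      exact ⟨y, hxy, fun h => by omega, fun _ => hy⟩
  choose f hf using hn
  let k : ℕ → ℕ := fun i => Nat.rec (f 0 K) (fun n x => f (n + 1) x) i
  have hk0 : k 0 = f 0 K := rfl
  have hks : ∀ n, k (n + 1) = f (n + 1) (k n) := fun n => rfl
  have hmono : StrictMono k := by
    apply strictMono_nat_of_lt_succ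
    intro n
    rw [hks]
    exact (hf (n + 1) (k n)).1
  have hmem : ∀ i, (i % 2 = 0 → k i ∈ M₀) ∧ (i % 2 = 1 → k i ∈ M₁) := by
    intro i
    cases i with
    | zero => exact (hf 0 K).2
    | succ n => exact (hf (n + 1) (k n)).2
  refine ⟨k, hmono, ?_, ?_⟩
  · intro i
    have h1 : k 0 ≤ k i := hmono.monotone (Nat.zero_le i)
    have h2 : K < k 0 := (hf 0 K).1
    omega
  · intro l
    exact ⟨(hmem (2 * l)).1 (by omega), (hmem (2 * l + 1)).2 (by omega)⟩

theorem small_step (p : ℕ → ℕ) (hp : Monotone p) (a : ℕ) (M₀ M₁ : Set ℕ)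
    (ih : ∀ j m K : ℕ, ∃ (r : ℕ) (k e : ℕ → ℕ), 0 < r ∧
      (∀ i i', i < i' → i' < 2 * r → k i < k i') ∧
      (∀ i < 2 * r, K ≤ k i) ∧ (∀ l < r, k (2 * l) ∈ M₀ ∧ k (2 * l + 1) ∈ M₁) ∧
      (∀ l < r, e (2 * l) = e (2 * l + 1)) ∧ (∀ i < 2 * r, e i + m ≤ k i) ∧
      ∑ i ∈ Finset.range (2 * r), (1 / 4 : ℝ) ^ e i = 1 ∧
      ∀ I : Finset ℕ, (∀ i ∈ I, i < 2 * r) → Cls p k a I →
        ∑ i ∈ I, (1 / 4 : ℝ) ^ e i ≤ (1 / 4) ^ j) (c m K N : ℕ) :
    ∃ (r : ℕ) (k e : ℕ → ℕ),
      (∀ i i', i < i' → i' < 2 * r → k i < k i') ∧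
      (∀ i < 2 * r, K ≤ k i) ∧ (∀ l < r, k (2 * l) ∈ M₀ ∧ k (2 * l + 1) ∈ M₁) ∧
      (∀ l < r, e (2 * l) = e (2 * l + 1)) ∧ (∀ i < 2 * r, e i + m ≤ k i) ∧
      ∑ i ∈ Finset.range (2 * r), (1 / 4 : ℝ) ^ e i = N * (1 / 4) ^ c ∧
      ∀ I : Finset ℕ, (∀ i ∈ I, i < 2 * r) → Cls p k (a + 1) I →
        ∑ i ∈ I, (1 / 4 : ℝ) ^ e i ≤ (1 / 4) ^ c * (1 + N * (1 / 4) ^ c) := by
  induction N with
  | zero =>
    refine ⟨0, id, id, ?_, ?_, ?_, ?_, ?_, ?_, ?_⟩
    · intro i i' h h'; omega
    · intro i h; omega
    · intro l h; omega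
    · intro l h; omega
    · intro i h; omega
    · simp
    · intro I hI _
      have : I = ∅ := by
        apply Finset.eq_empty_of_forall_notMem
        intro i hi
        have := hI i hi
        omega
      subst this
      simp
  | succ N ihN =>
    obtain ⟨r, k, e, k1, k2, k3, k4, k5, k6, k7⟩ := ihN
    obtain ⟨r', k', e', hr', q1, q2, q3, q4, q5, q6, q7⟩ :=
      ih (c + p (k (2 * r - 1))) (m + c) (max K (k (2 * r - 1) + 1))
    have hlast : ∀ i < 2 * r, k i ≤ k (2 * r - 1) := by
      intro i hi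
      rcases Nat.lt_or_ge i (2 * r - 1) with h | h
      · exact (k1 i (2 * r - 1) h (by omega)).le
      · have : i = 2 * r - 1 := by omega
        rw [this]
    have hk' : ∀ i < 2 * r', K ≤ k' i ∧ k (2 * r - 1) < k' i := by
      intro i hi
      have h1 := q2 i hi
      have h2 := le_max_left K (k (2 * r - 1) + 1)
      have h3 := le_max_right K (k (2 * r - 1) + 1)
      constructor <;> omega
    let kk : ℕ → ℕ := fun i => if i < 2 * r then k i else k' (i - 2 * r)
    let ee : ℕ → ℕ := fun i => if i < 2 * r then e i else e' (i - 2 * r) + c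
    have kk1 : ∀ i, i < 2 * r → kk i = k i := fun i hi => if_pos hi
    have kk2 : ∀ i, ¬ i < 2 * r → kk i = k' (i - 2 * r) := fun i hi => if_neg hi
    have ee1 : ∀ i, i < 2 * r → ee i = e i := fun i hi => if_pos hi
    have ee2 : ∀ i, ¬ i < 2 * r → ee i = e' (i - 2 * r) + c := fun i hi => if_neg hi
    have kk3 : ∀ i, kk (i + 2 * r) = k' i := by
      intro i
      rw [kk2 _ (by omega), Nat.add_sub_cancel]
    have ee3 : ∀ i, ee (i + 2 * r) = e' i + c := by
      intro i
      rw [ee2 _ (by omega), Nat.add_sub_cancel]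
    refine ⟨r + r', kk, ee, ?_, ?_, ?_, ?_, ?_, ?_, ?_⟩
    · intro i i' h h'
      by_cases hi' : i' < 2 * r
      · rw [kk1 i' hi', kk1 i (by omega)]
        exact k1 i i' h hi'
      · by_cases hi : i < 2 * r
        · rw [kk1 i hi, kk2 i' hi']
          have h1 := hlast i hi
          have h2 := (hk' (i' - 2 * r) (by omega)).2
          omega
        · rw [kk2 i hi, kk2 i' hi']
          exact q1 _ _ (by omega) (by omega)
    · intro i h
      by_cases hi : i < 2 * r
      · rw [kk1 i hi]; exact k2 i hi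
      · rw [kk2 i hi]; exact (hk' _ (by omega)).1
    · intro l h
      by_cases hl : l < r
      · rw [kk1 _ (by omega), kk1 _ (by omega)]; exact k3 l hl
      · rw [kk2 _ (by omega), kk2 _ (by omega)]
        have e1 : 2 * l - 2 * r = 2 * (l - r) := by omega
        have e2 : 2 * l + 1 - 2 * r = 2 * (l - r) + 1 := by omega
        rw [e1, e2]
        exact q3 (l - r) (by omega)
    · intro l h
      by_cases hl : l < r
      · rw [ee1 _ (by omega), ee1 _ (by omega)]; exact k4 l hl
      · rw [ee2 _ (by omega), ee2 _ (by omega)]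
        have e1 : 2 * l - 2 * r = 2 * (l - r) := by omega
        have e2 : 2 * l + 1 - 2 * r = 2 * (l - r) + 1 := by omega
        rw [e1, e2, q4 (l - r) (by omega)]
    · intro i h
      by_cases hi : i < 2 * r
      · rw [kk1 i hi, ee1 i hi]; exact k5 i hi
      · rw [kk2 i hi, ee2 i hi]
        have := q5 (i - 2 * r) (by omega)
        omega
    · have e0 : 2 * (r + r') = 2 * r + 2 * r' := by ring
      rw [e0, Finset.sum_range_add]
      have s1 : ∑ x ∈ Finset.range (2 * r), (1 / 4 : ℝ) ^ ee x = N * (1 / 4) ^ c := by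
        rw [← k6]
        apply Finset.sum_congr rfl
        intro x hx
        rw [ee1 x (Finset.mem_range.mp hx)]
      have s2 : ∑ x ∈ Finset.range (2 * r'), (1 / 4 : ℝ) ^ ee (2 * r + x) = (1 / 4) ^ c := by
        have : ∀ x ∈ Finset.range (2 * r'), (1 / 4 : ℝ) ^ ee (2 * r + x) =
            (1 / 4) ^ e' x * (1 / 4) ^ c := by
          intro x _
          rw [Nat.add_comm, ee3, pow_add]
        rw [Finset.sum_congr rfl this, ← Finset.sum_mul, q6, one_mul]
      rw [s1, s2]
      push_cast
      ring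
    · intro I hI hC
      have hcpos : (0 : ℝ) < (1 / 4) ^ c := by positivity
      have hsplit : ∑ i ∈ I, (1 / 4 : ℝ) ^ ee i =
          ∑ i ∈ I.filter (fun i => i < 2 * r), (1 / 4 : ℝ) ^ ee i +
          ∑ i ∈ I.filter (fun i => ¬ i < 2 * r), (1 / 4 : ℝ) ^ ee i :=
        (Finset.sum_filter_add_sum_filter_not I (fun i => i < 2 * r) _).symm
      rw [hsplit]
      have hb1 : ∑ i ∈ I.filter (fun i => i < 2 * r), (1 / 4 : ℝ) ^ ee i ≤
          (1 / 4) ^ c * (1 + N * (1 / 4) ^ c) := by
        have h1 : ∑ i ∈ I.filter (fun i => i < 2 * r), (1 / 4 : ℝ) ^ ee i =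
            ∑ i ∈ I.filter (fun i => i < 2 * r), (1 / 4 : ℝ) ^ e i := by
          apply Finset.sum_congr rfl
          intro x hx
          rw [ee1 x (Finset.mem_filter.mp hx).2]
        rw [h1]
        apply k7
        · intro i hi
          exact (Finset.mem_filter.mp hi).2
        · refine cls_spread hp hC id ?_ ?_ ?_
          · intro x hx
            exact (Finset.mem_filter.mp hx).1
          · intro x _ y _ h
            exact h
          · intro x hx
            have := kk1 x (Finset.mem_filter.mp hx).2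
            simp only [id]
            omega
      obtain ⟨d, H, c1, c2, c3⟩ := hC
      by_cases hne : (I.filter (fun i => i < 2 * r)).Nonempty
      · have hd : d ≤ p (k (2 * r - 1)) := by
          obtain ⟨x, hx⟩ := hne
          rw [Finset.mem_filter] at hx
          have h1 := c1 x hx.1
          rw [kk1 x hx.2] at h1
          exact h1.trans (hp (hlast x hx.2))
        have hb2 : ∑ i ∈ I.filter (fun i => ¬ i < 2 * r), (1 / 4 : ℝ) ^ ee i ≤
            (d : ℝ) * ((1 / 4) ^ c * (1 / 4) ^ (c + p (k (2 * r - 1)))) := by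
          have hA : ∑ i ∈ I.filter (fun i => ¬ i < 2 * r), (1 / 4 : ℝ) ^ ee i ≤
              ∑ i ∈ I.filter (fun i => ¬ i < 2 * r), ∑ s ∈ Finset.range d,
                if i ∈ H s then (1 / 4 : ℝ) ^ ee i else 0 := by
            apply Finset.sum_le_sum
            intro i hi
            obtain ⟨s, hs, his⟩ := c3 i (Finset.mem_filter.mp hi).1
            have h1 : (1 / 4 : ℝ) ^ ee i = if i ∈ H s then (1 / 4 : ℝ) ^ ee i else 0 := by
              rw [if_pos his]
            have h2 := Finset.single_le_sum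
              (f := fun s => if i ∈ H s then (1 / 4 : ℝ) ^ ee i else 0)
              (s := Finset.range d) (fun t _ => by
                show (0 : ℝ) ≤ if i ∈ H t then (1 / 4 : ℝ) ^ ee i else 0
                split_ifs
                · positivity
                · exact le_refl _) (Finset.mem_range.mpr hs)
            exact h1.le.trans h2
          refine hA.trans ?_
          rw [Finset.sum_comm]
          have hB : ∀ s ∈ Finset.range d,
              (∑ i ∈ I.filter (fun i => ¬ i < 2 * r),
                if i ∈ H s then (1 / 4 : ℝ) ^ ee i else 0) ≤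
              (1 / 4) ^ c * (1 / 4) ^ (c + p (k (2 * r - 1))) := by
            intro s hs
            rw [← Finset.sum_filter]
            have hJ : ∑ i ∈ (I.filter (fun i => ¬ i < 2 * r)).filter (fun i => i ∈ H s),
                (1 / 4 : ℝ) ^ ee i =
                ∑ y ∈ (Finset.range (2 * r')).filter
                  (fun y => y + 2 * r ∈ I ∧ y + 2 * r ∈ H s), (1 / 4 : ℝ) ^ e' y * (1 / 4) ^ c := by
              refine Finset.sum_nbij' (fun x => x - 2 * r) (fun y => y + 2 * r) ?_ ?_ ?_ ?_ ?_
              · intro x hx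
                simp only [Finset.mem_filter, Finset.mem_range] at hx ⊢
                have h1 : x - 2 * r + 2 * r = x := by omega
                have h2 := hI x hx.1.1
                rw [h1]
                exact ⟨by omega, hx.1.1, hx.2⟩
              · intro y hy
                simp only [Finset.mem_filter, Finset.mem_range] at hy ⊢
                exact ⟨⟨hy.2.1, by omega⟩, hy.2.2⟩
              · intro x hx
                simp only [Finset.mem_filter] at hx
                omega
              · intro y _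
                simp only [Nat.add_sub_cancel]
              · intro x hx
                simp only [Finset.mem_filter] at hx
                rw [ee2 x hx.1.2, pow_add]
            rw [hJ, ← Finset.sum_mul, mul_comm]
            apply mul_le_mul_of_nonneg_left _ hcpos.le
            apply q7
            · intro i hi
              simp only [Finset.mem_filter, Finset.mem_range] at hi
              exact hi.1
            · refine cls_spread hp (c2 s (Finset.mem_range.mp hs)) (fun y => y + 2 * r) ?_ ?_ ?_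
              · intro x hx
                simp only [Finset.mem_filter] at hx
                exact hx.2.2
              · intro x _ y _ h
                simp only [Nat.add_right_cancel_iff] at h
                exact h
              · intro x _
                exact (kk3 x).le
          refine (Finset.sum_le_sum hB).trans ?_
          rw [Finset.sum_const, Finset.card_range, nsmul_eq_mul]
        have hb3 : (d : ℝ) * ((1 / 4) ^ c * (1 / 4) ^ (c + p (k (2 * r - 1)))) ≤
            (1 / 4) ^ c * (1 / 4) ^ c := by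
          have h1 : (d : ℝ) ≤ 4 ^ p (k (2 * r - 1)) := by
            have h2 : d ≤ 4 ^ p (k (2 * r - 1)) :=
              hd.trans (Nat.lt_pow_self (by norm_num)).le
            exact_mod_cast h2
          have h3 : (4 : ℝ) ^ p (k (2 * r - 1)) * (1 / 4) ^ p (k (2 * r - 1)) = 1 := by
            rw [← mul_pow]; norm_num
          calc (d : ℝ) * ((1 / 4) ^ c * (1 / 4) ^ (c + p (k (2 * r - 1))))
              ≤ 4 ^ p (k (2 * r - 1)) * ((1 / 4) ^ c * (1 / 4) ^ (c + p (k (2 * r - 1)))) :=
                mul_le_mul_of_nonneg_right h1 (by positivity)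
            _ = (1 / 4) ^ c * (1 / 4) ^ c *
                (4 ^ p (k (2 * r - 1)) * (1 / 4) ^ p (k (2 * r - 1))) := by
                rw [pow_add]; ring
            _ = (1 / 4) ^ c * (1 / 4) ^ c := by rw [h3, mul_one]
        have hfin : (1 / 4 : ℝ) ^ c * (1 + ((N + 1 : ℕ) : ℝ) * (1 / 4) ^ c) =
            (1 / 4) ^ c * (1 + N * (1 / 4) ^ c) + (1 / 4) ^ c * (1 / 4) ^ c := by
          push_cast
          ring
        rw [hfin]
        exact add_le_add hb1 (hb2.trans hb3)
      · rw [Finset.not_nonempty_iff_eq_empty] at hne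
        rw [hne, Finset.sum_empty, zero_add]
        have hb4 : ∑ i ∈ I.filter (fun i => ¬ i < 2 * r), (1 / 4 : ℝ) ^ ee i ≤
            ∑ i ∈ (Finset.range (2 * r')).image (fun y => y + 2 * r), (1 / 4 : ℝ) ^ ee i := by
          apply Finset.sum_le_sum_of_subset_of_nonneg
          · intro x hx
            rw [Finset.mem_filter] at hx
            rw [Finset.mem_image]
            refine ⟨x - 2 * r, ?_, by omega⟩
            have := hI x hx.1
            rw [Finset.mem_range]
            omega
          · intro x _ _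
            positivity
        refine hb4.trans ?_
        rw [Finset.sum_image (by
          intro x _ y _ h
          simp only [Nat.add_right_cancel_iff] at h
          exact h)]
        have : ∀ x ∈ Finset.range (2 * r'), (1 / 4 : ℝ) ^ ee (x + 2 * r) =
            (1 / 4) ^ e' x * (1 / 4) ^ c := by
          intro x _
          rw [ee3, pow_add]
        rw [Finset.sum_congr rfl this, ← Finset.sum_mul, q6, one_mul]
        have h0 : (0 : ℝ) ≤ ((N + 1 : ℕ) : ℝ) * (1 / 4) ^ c := by positivity
        nlinarith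

theorem small_weights (p : ℕ → ℕ) (hp : Monotone p) (a j m : ℕ) (K : ℕ) (M₀ M₁ : Set ℕ)
    (h₀ : M₀.Infinite) (h₁ : M₁.Infinite) :
    ∃ (r : ℕ) (k e : ℕ → ℕ), 0 < r ∧ (∀ i i', i < i' → i' < 2 * r → k i < k i') ∧
      (∀ i < 2 * r, K ≤ k i) ∧ (∀ l < r, k (2 * l) ∈ M₀ ∧ k (2 * l + 1) ∈ M₁) ∧
      (∀ l < r, e (2 * l) = e (2 * l + 1)) ∧ (∀ i < 2 * r, e i + m ≤ k i) ∧
      ∑ i ∈ Finset.range (2 * r), (1 / 4 : ℝ) ^ e i = 1 ∧
      ∀ I : Finset ℕ, (∀ i ∈ I, i < 2 * r) → Cls p k a I →
        ∑ i ∈ I, (1 / 4 : ℝ) ^ e i ≤ (1 / 4) ^ j := by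
  induction a generalizing j m K with
  | zero =>
    obtain ⟨k, hk, hK, hM⟩ := exists_alt M₀ M₁ h₀ h₁ (max K (j + 1 + m))
    have hr : 2 * (2 * 4 ^ j) = 4 ^ (j + 1) := by rw [pow_succ]; ring
    refine ⟨2 * 4 ^ j, k, fun _ => j + 1, by positivity, fun i i' h _ => hk h, ?_, fun l _ => hM l,
      fun _ _ => rfl, ?_, ?_, ?_⟩
    · intro i _
      exact (le_max_left _ _).trans (hK i)
    · intro i _
      exact (le_max_right _ _).trans (hK i)
    · rw [Finset.sum_const, Finset.card_range, nsmul_eq_mul, hr]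
      push_cast
      rw [← mul_pow]
      norm_num
    · intro I _ hC
      have hC' : I.card ≤ 1 := hC
      rw [Finset.sum_const, nsmul_eq_mul]
      have h1 : (I.card : ℝ) ≤ 1 := by exact_mod_cast hC'
      have h2 : (0 : ℝ) < (1 / 4) ^ j := by positivity
      have h3 : (0 : ℝ) < (1 / 4) ^ (j + 1) := by positivity
      calc (I.card : ℝ) * (1 / 4) ^ (j + 1) ≤ 1 * (1 / 4) ^ (j + 1) :=
            mul_le_mul_of_nonneg_right h1 h3.le
        _ ≤ (1 / 4) ^ j := by
            rw [one_mul, pow_succ]
            nlinarith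
  | succ a ih =>
    obtain ⟨r, k, e, k1, k2, k3, k4, k5, k6, k7⟩ :=
      small_step p hp a M₀ M₁ ih (j + 1) m K (4 ^ (j + 1))
    have h4 : ((4 ^ (j + 1) : ℕ) : ℝ) * (1 / 4) ^ (j + 1) = 1 := by
      push_cast
      rw [← mul_pow]
      norm_num
    rw [h4] at k6
    refine ⟨r, k, e, ?_, k1, k2, k3, k4, k5, k6, ?_⟩
    · rcases Nat.eq_zero_or_pos r with h | h
      · subst h
        simp at k6
      · exact h
    · intro I hI hC
      have h5 := k7 I hI hC
      rw [h4] at h5
      refine h5.trans ?_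
      have h2 : (0 : ℝ) < (1 / 4) ^ j := by positivity
      rw [pow_succ]
      nlinarith

end Pool.Agent.WH
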