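import Pool.Agent.WH.Base
import Pool.Agent.WH.Cut
import Pool.Agent.WH.Upper
import Pool.Agent.WH.Average

/-!
Project WH (MP_a9f751_an), WH-19: maps of a model.
-/

set_option autoImplicit false

open Filter Topology

namespace Pool.Agent.WH

variable {𝕜 : Type} [RCLike 𝕜]

theorem tools_norm_sq_le {D : TD 𝕜} {X : Type} [NormedAddCommGroup X] [NormedSpace 𝕜 X]
    {c : X →ₗ[𝕜] D.V} (hc : D.IsModel X c) {x : X} {r : ℝ}
    (h : ∀ F : D.Fm, F.val (c x) ≤ r) : ‖x‖ ^ 2 ≤ r := by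
  by_contra hcon
  push Not at hcon
  obtain ⟨F, hF⟩ := hc.ge x r hcon
  exact absurd (h F) (not_le.mpr hF)

theorem exists_iota {D : TD 𝕜} {X : Type} [NormedAddCommGroup X] [NormedSpace 𝕜 X]
    (c : X →ₗ[𝕜] D.V) (hc : D.IsModel X c) :
    ∃ ι : (k : ℕ) → EuclideanSpace 𝕜 (Fin (D.n k)) →ₗ[𝕜] X,
      (∀ k v, c (ι k v) = Pi.single k v) ∧ ∀ k v, ‖ι k v‖ ≤ 6 * ‖v‖ := by
  classical
  have hval : ∀ (k : ℕ) (v : EuclideanSpace 𝕜 (Fin (D.n k))) (F : D.Fm),
      F.val (Pi.single k v : D.V) ≤ 30 * ‖v‖ ^ 2 := by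
    intro k v F
    have h1 := val_le F {k} (Pi.single k v : D.V) (by
      intro j hj
      rw [Finset.mem_singleton] at hj
      exact Pi.single_eq_of_ne hj _)
    rwa [Finset.sum_singleton, Pi.single_eq_same] at h1
  have hex : ∀ (k : ℕ) (v : EuclideanSpace 𝕜 (Fin (D.n k))), ∃ x : X,
      c x = (Pi.single k v : D.V) := fun k v => hc.surj _ _ (hval k v)
  choose f hf using hex
  refine ⟨fun k => { toFun := f k, map_add' := ?_, map_smul' := ?_ }, hf, ?_⟩
  · intro v w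
    apply hc.inj
    rw [map_add, hf, hf, hf]
    funext j
    by_cases hj : j = k
    · subst hj
      rw [Pi.add_apply, Pi.single_eq_same, Pi.single_eq_same, Pi.single_eq_same]
    · rw [Pi.add_apply, Pi.single_eq_of_ne hj, Pi.single_eq_of_ne hj, Pi.single_eq_of_ne hj,
        add_zero]
  · intro a v
    apply hc.inj
    rw [RingHom.id_apply, map_smul, hf, hf]
    funext j
    by_cases hj : j = k
    · subst hj
      rw [Pi.smul_apply, Pi.single_eq_same, Pi.single_eq_same]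
    · rw [Pi.smul_apply, Pi.single_eq_of_ne hj, Pi.single_eq_of_ne hj, smul_zero]
  · intro k v
    have h1 : ‖f k v‖ ^ 2 ≤ 30 * ‖v‖ ^ 2 := tools_norm_sq_le hc fun F => by
      rw [hf]
      exact hval k v F
    show ‖f k v‖ ≤ 6 * ‖v‖
    have h2 : (0 : ℝ) ≤ 6 * ‖v‖ := by positivity
    refine abs_le_of_sq_le_sq' ?_ h2 |>.2
    nlinarith [sq_nonneg ‖v‖]

theorem exists_trunc {D : TD 𝕜} {X : Type} [NormedAddCommGroup X] [NormedSpace 𝕜 X]
    (c : X →ₗ[𝕜] D.V) (hc : D.IsModel X c) (m : ℕ) :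
    ∃ P : X →L[𝕜] X, ‖P‖ ≤ 1 ∧ ∀ x, c (P x) = D.trunc m (c x) := by
  classical
  have hval : ∀ (x : X) (F : D.Fm), F.val (D.trunc m (c x)) ≤ ‖x‖ ^ 2 := by
    intro x F
    have h1 : ∀ a, ∃ (B' : Finset ℕ) (SS' : Finset (Finset D.Nd)), (a < F.A → D.IsFam a B' SS') ∧
        (a < F.A → ∀ x : D.V, D.q (F.B a) (F.SS a) (D.trunc m x) ≤ D.q B' SS' x) := by
      intro a
      by_cases ha : a < F.A
      · obtain ⟨B', SS', h2, h3⟩ := fam_trunc D (F.fam a ha) m
        exact ⟨B', SS', fun _ => h2, fun _ => h3⟩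
      · exact ⟨∅, ∅, fun h => absurd h ha, fun h => absurd h ha⟩
    choose B' SS' h2 h3 using h1
    let F' : D.Fm := ⟨F.A, B', SS', h2⟩
    refine le_trans ?_ (hc.le F' x)
    unfold TD.Fm.val
    refine Finset.sum_le_sum fun a ha => ?_
    exact mul_le_mul_of_nonneg_left (h3 a (Finset.mem_range.1 ha) (c x)) (by positivity)
  have hex : ∀ x : X, ∃ y : X, c y = D.trunc m (c x) := fun x => hc.surj _ _ (hval x)
  choose f hf using hex
  let P0 : X →ₗ[𝕜] X :=
    { toFun := f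
      map_add' := by
        intro x y
        apply hc.inj
        rw [map_add, hf, hf, hf, map_add]
        funext k
        simp only [TD.trunc, Pi.add_apply]
        split_ifs <;> simp
      map_smul' := by
        intro a x
        apply hc.inj
        rw [RingHom.id_apply, map_smul, hf, hf, map_smul]
        funext k
        simp only [TD.trunc, Pi.smul_apply]
        split_ifs <;> simp }
  refine ⟨P0.mkContinuous 1 ?_, LinearMap.mkContinuous_norm_le _ zero_le_one _, fun x => hf x⟩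
  intro x
  have h1 : ‖f x‖ ^ 2 ≤ ‖x‖ ^ 2 := tools_norm_sq_le hc fun F => by
    rw [hf]
    exact hval x F
  rw [one_mul]
  exact abs_le_of_sq_le_sq' h1 (norm_nonneg x) |>.2

theorem tools_coord_le {D : TD 𝕜} {X : Type} [NormedAddCommGroup X] [NormedSpace 𝕜 X]
    {c : X →ₗ[𝕜] D.V} (hc : D.IsModel X c) (x : X) (k : ℕ) : ‖c x k‖ ≤ ‖x‖ := by
  obtain ⟨F, hF⟩ := exists_block D k
  have h1 := hc.le F x
  rw [hF] at h1
  exact abs_le_of_sq_le_sq' h1 (norm_nonneg x) |>.2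

/-- the normalised trace as a bounded functional -/
theorem exists_phi {D : TD 𝕜} {X : Type} [NormedAddCommGroup X] [NormedSpace 𝕜 X]
    (c : X →ₗ[𝕜] D.V) (hc : D.IsModel X c)
    (ι : (k : ℕ) → EuclideanSpace 𝕜 (Fin (D.n k)) →ₗ[𝕜] X)
    (hι : ∀ k v, c (ι k v) = Pi.single k v) (hι' : ∀ k v, ‖ι k v‖ ≤ 6 * ‖v‖) (k : ℕ) :
    ∃ φ : StrongDual 𝕜 (X →L[𝕜] X), ‖φ‖ ≤ 6 ∧ ∀ T, φ T = phi D c ι k T := by
  classical
  let φ0 : (X →L[𝕜] X) →ₗ[𝕜] 𝕜 :=
    { toFun := fun T => phi D c ι k T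
      map_add' := by
        intro T S
        simp only [phi, _root_.add_apply, map_add, Pi.add_apply, PiLp.add_apply,
          Finset.sum_add_distrib, mul_add]
      map_smul' := by
        intro a T
        simp only [phi, _root_.smul_apply, map_smul, Pi.smul_apply, PiLp.smul_apply,
          RingHom.id_apply, smul_eq_mul, ← Finset.mul_sum]
        ring }
  refine ⟨φ0.mkContinuous 6 ?_, LinearMap.mkContinuous_norm_le _ (by norm_num) _, fun T => rfl⟩
  intro T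
  show ‖phi D c ι k T‖ ≤ 6 * ‖T‖
  have h1 : ∀ i : Fin (D.n k), ‖(c (T (ι k (EuclideanSpace.single i 1))) k i : 𝕜)‖ ≤
      6 * ‖T‖ := by
    intro i
    have h2 : ‖(c (T (ι k (EuclideanSpace.single i 1))) k i : 𝕜)‖ ≤
        ‖c (T (ι k (EuclideanSpace.single i 1))) k‖ := PiLp.norm_apply_le _ i
    have h3 := tools_coord_le hc (T (ι k (EuclideanSpace.single i 1))) k
    have h4 := T.le_opNorm (ι k (EuclideanSpace.single i 1))
    have h5 := hι' k (EuclideanSpace.single i 1)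
    rw [PiLp.norm_single, norm_one, mul_one] at h5
    have h6 : ‖T‖ * ‖ι k (EuclideanSpace.single i 1)‖ ≤ ‖T‖ * 6 :=
      mul_le_mul_of_nonneg_left h5 (norm_nonneg T)
    linarith
  unfold phi
  rw [norm_mul, norm_inv, RCLike.norm_natCast]
  have h7 : ‖∑ i : Fin (D.n k), (c (T (ι k (EuclideanSpace.single i 1))) k i : 𝕜)‖ ≤
      (D.n k : ℝ) * (6 * ‖T‖) := by
    refine (norm_sum_le _ _).trans ((Finset.sum_le_sum fun i _ => h1 i).trans ?_)
    rw [Finset.sum_const, Finset.card_univ, Fintype.card_fin, nsmul_eq_mul]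
  rcases Nat.eq_zero_or_pos (D.n k) with h0 | h0
  · have h9 : (D.n k : ℝ)⁻¹ = 0 := by rw [h0, Nat.cast_zero, inv_zero]
    rw [h9, zero_mul]
    positivity
  · have h8 : (0 : ℝ) < D.n k := by exact_mod_cast h0
    calc (D.n k : ℝ)⁻¹ * ‖∑ i : Fin (D.n k), (c (T (ι k (EuclideanSpace.single i 1))) k i : 𝕜)‖
        ≤ (D.n k : ℝ)⁻¹ * ((D.n k : ℝ) * (6 * ‖T‖)) :=
          mul_le_mul_of_nonneg_left h7 (by positivity)
      _ = 6 * ‖T‖ := by
          field_simp

end Pool.Agent.WH
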