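import Mathlib

/-! WH-04: nets of the unit sphere of a finite dimensional subspace. -/

set_option autoImplicit false

open Filter Topology

namespace Pool.Agent.WH

variable {𝕜 : Type} [RCLike 𝕜]

private theorem net_finrank_le_two : Module.finrank ℝ 𝕜 ≤ 2 := by
  have hf : Function.Surjective
      ((LinearMap.toSpanSingleton ℝ 𝕜 1).coprod (LinearMap.toSpanSingleton ℝ 𝕜 RCLike.I)) := by
    intro z
    refine ⟨(RCLike.re z, RCLike.im z), ?_⟩
    rw [LinearMap.coprod_apply, LinearMap.toSpanSingleton_apply, LinearMap.toSpanSingleton_apply]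
    rw [RCLike.real_smul_eq_coe_mul, RCLike.real_smul_eq_coe_mul, mul_one]
    exact RCLike.re_add_im z
  have h := LinearMap.finrank_le_finrank_of_surjective hf
  simpa using h

private theorem net_exists {E : Type} [NormedAddCommGroup E] [NormedSpace ℝ E]
    [FiniteDimensional ℝ E] :
    ∃ t : Finset E, (∀ y ∈ t, ‖y‖ = 1) ∧ t.card ≤ 5 ^ Module.finrank ℝ E ∧
      ∀ x : E, ‖x‖ = 1 → ∃ y ∈ t, ‖x - y‖ ≤ 1 / 2 := by
  classical
  let P : Finset E → Prop := fun t => (∀ y ∈ t, ‖y‖ = 1) ∧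
    ∀ y ∈ t, ∀ z ∈ t, y ≠ z → 1 / 2 < ‖y - z‖
  have hcard : ∀ t, P t → t.card ≤ 5 ^ Module.finrank ℝ E := by
    intro t ht
    have hinj : Function.Injective (fun y : E => (2 : ℝ) • y) := fun y z h =>
      smul_right_injective E (two_ne_zero' ℝ) h
    rw [← Finset.card_image_of_injective t hinj]
    refine Besicovitch.card_le_of_separated _ ?_ ?_
    · intro c hc
      obtain ⟨y, hy, rfl⟩ := Finset.mem_image.1 hc
      rw [norm_smul, ht.1 y hy]
      norm_num
    · intro c hc d hd hcd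
      obtain ⟨y, hy, rfl⟩ := Finset.mem_image.1 hc
      obtain ⟨z, hz, rfl⟩ := Finset.mem_image.1 hd
      have h1 : y ≠ z := fun h => hcd (by rw [h])
      have h2 := ht.2 y hy z hz h1
      show 1 ≤ ‖(2 : ℝ) • y - (2 : ℝ) • z‖
      rw [← smul_sub, norm_smul, Real.norm_eq_abs, abs_of_pos (by norm_num : (0 : ℝ) < 2)]
      linarith
  have hmax : ∃ t, P t ∧ ∀ t', P t' → t'.card ≤ t.card := by
    let Q : ℕ → Prop := fun n => ∃ t, P t ∧ t.card = n
    have h0 : Q 0 := ⟨∅, ⟨by simp, by simp⟩, rfl⟩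
    have hb : ∀ n, Q n → n ≤ 5 ^ Module.finrank ℝ E := by
      rintro n ⟨t, ht, rfl⟩
      exact hcard t ht
    obtain ⟨t, ht, htc⟩ := Nat.findGreatest_spec (P := Q) (Nat.zero_le _) h0
      (n := 5 ^ Module.finrank ℝ E)
    refine ⟨t, ht, fun t' ht' => ?_⟩
    rw [htc]
    exact Nat.le_findGreatest (hcard t' ht') ⟨t', ht', rfl⟩
  obtain ⟨t, ht, hm⟩ := hmax
  refine ⟨t, ht.1, hcard t ht, fun x hx => ?_⟩
  by_contra hcon
  push Not at hcon
  have hxt : x ∉ t := by
    intro h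
    have := hcon x h
    rw [sub_self, norm_zero] at this
    norm_num at this
  have hP : P (insert x t) := by
    refine ⟨?_, ?_⟩
    · intro y hy
      rcases Finset.mem_insert.1 hy with rfl | hy
      · exact hx
      · exact ht.1 y hy
    · intro y hy z hz hyz
      rcases Finset.mem_insert.1 hy with hy | hy
      · rcases Finset.mem_insert.1 hz with hz | hz
        · exact absurd (hy.trans hz.symm) hyz
        · rw [hy]
          exact hcon z hz
      · rcases Finset.mem_insert.1 hz with hz | hz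
        · rw [norm_sub_rev, hz]
          exact hcon y hy
        · exact ht.2 y hy z hz hyz
  have := hm _ hP
  rw [Finset.card_insert_of_notMem hxt] at this
  omega

theorem half_net {X : Type} [NormedAddCommGroup X] [NormedSpace 𝕜 X] (F : Submodule 𝕜 X)
    (hF : FiniteDimensional 𝕜 F) :
    ∃ s : Finset X, (∀ y ∈ s, y ∈ F ∧ ‖y‖ = 1) ∧ s.card ≤ 25 ^ Module.finrank 𝕜 F ∧
      ∀ x ∈ F, ‖x‖ = 1 → ∃ y ∈ s, ‖x - y‖ ≤ 1 / 2 := by
  classical
  let _ : NormedSpace ℝ F := NormedSpace.restrictScalars ℝ 𝕜 F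
  have : IsScalarTower ℝ 𝕜 F := RestrictScalars.isScalarTower ℝ 𝕜 F
  have : FiniteDimensional ℝ F := Module.Finite.trans 𝕜 F
  obtain ⟨t, h1, h2, h3⟩ := net_exists (E := F)
  refine ⟨t.image Subtype.val, ?_, ?_, ?_⟩
  · intro y hy
    obtain ⟨z, hz, rfl⟩ := Finset.mem_image.1 hy
    exact ⟨z.2, h1 z hz⟩
  · refine Finset.card_image_le.trans (h2.trans ?_)
    rw [← Module.finrank_mul_finrank ℝ 𝕜 F]
    calc 5 ^ (Module.finrank ℝ 𝕜 * Module.finrank 𝕜 F) ≤ 5 ^ (2 * Module.finrank 𝕜 F) :=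
          Nat.pow_le_pow_right (by norm_num) (Nat.mul_le_mul_right _ net_finrank_le_two)
      _ = 25 ^ Module.finrank 𝕜 F := by rw [pow_mul]; norm_num
  · intro x hx hxn
    obtain ⟨y, hy, hxy⟩ := h3 ⟨x, hx⟩ hxn
    exact ⟨y.1, Finset.mem_image_of_mem _ hy, hxy⟩

end Pool.Agent.WH
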