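import Pool.Agent.WH.Base

/-!
Project WH, WH-03: a finite dimensional subspace on which a Hilbertian seminorm is equivalent to
the norm is Hilbertian and complemented.
-/

set_option autoImplicit false

open Filter Topology

namespace Pool.Agent.WH

variable {𝕜 : Type} [RCLike 𝕜]

theorem hilb_proj {X G : Type} [NormedAddCommGroup X] [NormedSpace 𝕜 X]
    [NormedAddCommGroup G] [InnerProductSpace 𝕜 G] (F : Submodule 𝕜 X)
    (hF : FiniteDimensional 𝕜 F) (Φ : X →ₗ[𝕜] G) (c : ℝ) (hc : 0 < c)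
    (h1 : ∀ x, ‖Φ x‖ ≤ ‖x‖) (h2 : ∀ x ∈ F, c * ‖x‖ ≤ ‖Φ x‖) :
    (∃ e : F ≃L[𝕜] EuclideanSpace 𝕜 (Fin (Module.finrank 𝕜 F)),
      ‖(e : F →L[𝕜] EuclideanSpace 𝕜 (Fin (Module.finrank 𝕜 F)))‖ *
        ‖(e.symm : EuclideanSpace 𝕜 (Fin (Module.finrank 𝕜 F)) →L[𝕜] F)‖ ≤ c⁻¹) ∧
    ∃ P : X →L[𝕜] X, (∀ x, P x ∈ F) ∧ (∀ x ∈ F, P x = x) ∧ ‖P‖ ≤ c⁻¹ := by
  have hci : 0 ≤ c⁻¹ := (inv_pos.2 hc).le
  set φ : F →ₗ[𝕜] G := Φ ∘ₗ F.subtype with hφ
  have hinj : Function.Injective φ := by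
    rw [injective_iff_map_eq_zero]
    intro x hx
    have h3 := h2 x x.2
    have h4 : Φ (x : X) = 0 := hx
    rw [h4, norm_zero] at h3
    have h5 : ‖(x : X)‖ ≤ 0 := by
      by_contra h6
      push Not at h6
      have := mul_pos hc h6
      linarith
    have h7 : (x : X) = 0 := norm_le_zero_iff.1 h5
    exact Subtype.ext h7
  set L : F ≃ₗ[𝕜] LinearMap.range φ := LinearEquiv.ofInjective φ hinj with hL
  have hLv : ∀ x : F, ((L x : LinearMap.range φ) : G) = Φ (x : X) := fun x => rfl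
  have hLn : ∀ x : F, ‖L x‖ = ‖Φ (x : X)‖ := fun x => rfl
  have hLs : ∀ y : LinearMap.range φ, ‖L.symm y‖ ≤ c⁻¹ * ‖y‖ := by
    intro y
    have h3 := h2 (L.symm y) (L.symm y).2
    rw [← hLn, L.apply_symm_apply] at h3
    rw [inv_mul_eq_div, le_div_iff₀ hc, mul_comm]
    exact h3
  have hfr : Module.finrank 𝕜 (LinearMap.range φ) = Module.finrank 𝕜 F :=
    L.finrank_eq.symm
  refine ⟨?_, ?_⟩
  · set b : OrthonormalBasis (Fin (Module.finrank 𝕜 F)) 𝕜 (LinearMap.range φ) :=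
      (stdOrthonormalBasis 𝕜 (LinearMap.range φ)).reindex (finCongr hfr) with hb
    refine ⟨(L.trans b.repr.toLinearEquiv).toContinuousLinearEquiv, ?_⟩
    have k1 : ‖((L.trans b.repr.toLinearEquiv).toContinuousLinearEquiv :
        F →L[𝕜] EuclideanSpace 𝕜 (Fin (Module.finrank 𝕜 F)))‖ ≤ 1 := by
      refine ContinuousLinearMap.opNorm_le_bound _ zero_le_one fun x => ?_
      have h3 : ‖b.repr (L x)‖ = ‖L x‖ := b.repr.norm_map (L x)
      have h4 : ‖L x‖ ≤ ‖x‖ := (hLn x).trans_le (h1 x)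
      rw [one_mul]
      exact (le_of_eq h3).trans h4
    have k2 : ‖((L.trans b.repr.toLinearEquiv).toContinuousLinearEquiv.symm :
        EuclideanSpace 𝕜 (Fin (Module.finrank 𝕜 F)) →L[𝕜] F)‖ ≤ c⁻¹ := by
      refine ContinuousLinearMap.opNorm_le_bound _ hci fun y => ?_
      have h3 : ‖b.repr.symm y‖ = ‖y‖ := b.repr.symm.norm_map y
      have h4 := hLs (b.repr.symm y)
      rw [h3] at h4
      exact h4
    calc _ ≤ 1 * c⁻¹ := mul_le_mul k1 k2 (norm_nonneg _) zero_le_one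
      _ = c⁻¹ := one_mul _
  · set P₀ : X →ₗ[𝕜] X := F.subtype ∘ₗ (L.symm : LinearMap.range φ →ₗ[𝕜] F) ∘ₗ
      ((LinearMap.range φ).orthogonalProjectionOnto : G →ₗ[𝕜] LinearMap.range φ) ∘ₗ Φ with hP₀
    have hP₀v : ∀ x, P₀ x = ((L.symm ((LinearMap.range φ).orthogonalProjectionOnto (Φ x)) : F) : X) :=
      fun x => rfl
    have hb : ∀ x, ‖P₀ x‖ ≤ c⁻¹ * ‖x‖ := by
      intro x
      rw [hP₀v]
      have h3 := hLs ((LinearMap.range φ).orthogonalProjectionOnto (Φ x))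
      have h4 : ‖(LinearMap.range φ).orthogonalProjectionOnto (Φ x)‖ ≤ ‖Φ x‖ :=
        Submodule.norm_orthogonalProjectionOnto_apply_le _ _
      calc _ ≤ c⁻¹ * ‖(LinearMap.range φ).orthogonalProjectionOnto (Φ x)‖ := h3
        _ ≤ c⁻¹ * ‖x‖ := mul_le_mul_of_nonneg_left (h4.trans (h1 x)) hci
    refine ⟨P₀.mkContinuous c⁻¹ hb, ?_, ?_, ?_⟩
    · intro x
      rw [LinearMap.mkContinuous_apply, hP₀v]
      exact Subtype.coe_prop _
    · intro x hx
      rw [LinearMap.mkContinuous_apply, hP₀v]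
      have h3 : (LinearMap.range φ).orthogonalProjectionOnto (Φ x) = L ⟨x, hx⟩ :=
        Submodule.orthogonalProjectionOnto_mem_subspace_eq_self (L ⟨x, hx⟩)
      rw [h3, L.symm_apply_apply]
    · exact P₀.mkContinuous_norm_le hci hb

end Pool.Agent.WH
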