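import Pool.Agent.WH.Phi
import Pool.Agent.WH.Proj
import Pool.Agent.WH.Net
import Pool.Agent.WH.Cut
import Pool.Agent.WH.Join

/-!
WH-12: the model is a weak Hilbert space.
-/

set_option autoImplicit false

open Filter Topology

namespace Pool.Agent.WH

variable {𝕜 : Type} [RCLike 𝕜]

private theorem weak_q_nonneg (D : TD 𝕜) (B : Finset ℕ) (SS : Finset (Finset D.Nd))
    (x : D.V) : 0 ≤ D.q B SS x := by
  unfold TD.q TD.qS
  refine add_nonneg (Finset.sum_nonneg fun k _ => by positivity)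
    (Finset.sum_nonneg fun S _ => ?_)
  exact div_nonneg (by positivity) (Finset.sum_nonneg fun t _ => by positivity)

private theorem weak_cls_empty {ι : Type} (p : ℕ → ℕ) (pos : ι → ℕ) (a : ℕ) :
    Cls p pos a ∅ := by
  cases a with
  | zero => simp [Cls]
  | succ a => exact ⟨0, fun _ => ∅, by simp, by simp, by simp⟩

private theorem weak_fam_empty (D : TD 𝕜) (a : ℕ) : D.IsFam a ∅ ∅ where
  seg := by simp
  disj := by simp
  good := by
    intro k A hA
    have : A = ∅ := by
      apply Finset.eq_empty_of_forall_notMem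
      intro t ht
      obtain ⟨_, S, hS, _⟩ := hA t ht
      simp at hS
    rw [this]
    simp
  clsB := weak_cls_empty _ _ _
  clsS := weak_cls_empty _ _ _

private theorem weak_join_form (D : TD 𝕜) (k₀ d : ℕ) (hd : 5 * d ^ 2 ≤ D.p k₀)
    (F : Fin d → D.Fm) :
    ∃ G : D.Fm, ∀ i x, (∀ j < k₀, x j = 0) → 3 / 10 * (F i).val x ≤ G.val x := by
  have h1 : ∀ (i : Fin d) (a : ℕ), ∃ (B' : Finset ℕ) (SS' : Finset (Finset D.Nd)),
      D.IsFam a B' SS' ∧ (∀ k ∈ B', k₀ ≤ k) ∧ (∀ S ∈ SS', ∀ t ∈ S, k₀ ≤ D.b t) ∧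
      (a < (F i).A → ∀ x : D.V, (∀ j < k₀, x j = 0) →
        D.q ((F i).B a) ((F i).SS a) x ≤ D.q B' SS' x) := by
    intro i a
    by_cases ha : a < (F i).A
    · obtain ⟨B', SS', h1, h2, h3, h4⟩ := fam_tail D ((F i).fam a ha) k₀
      exact ⟨B', SS', h1, h2, h3, fun _ => h4⟩
    · exact ⟨∅, ∅, weak_fam_empty D a, by simp, by simp, fun h => absurd h ha⟩
  choose B1 SS1 hfam hB hS hq using h1
  have h2 : ∀ a, ∃ (B' : Finset ℕ) (SS' : Finset (Finset D.Nd)), D.IsFam (a + 1) B' SS' ∧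
      ∀ i x, D.q (B1 i a) (SS1 i a) x ≤ 3 * D.q B' SS' x := fun a =>
    fam_join D a d k₀ hd (fun i => B1 i a) (fun i => SS1 i a) (fun i => hfam i a)
      (fun i => hB i a) (fun i => hS i a)
  choose B2 SS2 hfam2 hq2 using h2
  set A : ℕ := Finset.univ.sup (fun i => (F i).A) with hA
  let G : D.Fm :=
    { A := A + 1
      B := fun a => match a with
        | 0 => ∅
        | a + 1 => B2 a
      SS := fun a => match a with
        | 0 => ∅
        | a + 1 => SS2 a
      fam := fun a _ => by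
        cases a with
        | zero => exact weak_fam_empty D 0
        | succ a => exact hfam2 a }
  have hG : ∀ x, G.val x = ∑ a ∈ Finset.range A, (9 / 10 : ℝ) ^ (a + 1) *
      D.q (B2 a) (SS2 a) x + (9 / 10 : ℝ) ^ 0 * D.q ∅ ∅ x := fun x =>
    Finset.sum_range_succ' (fun a => (9 / 10 : ℝ) ^ a * D.q (G.B a) (G.SS a) x) A
  refine ⟨G, fun i x hx => ?_⟩
  have hle : (F i).A ≤ A := Finset.le_sup (f := fun i => (F i).A) (Finset.mem_univ i)
  have hnn : ∀ a, 0 ≤ (9 / 10 : ℝ) ^ (a + 1) * D.q (B2 a) (SS2 a) x := fun a =>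
    mul_nonneg (by positivity) (weak_q_nonneg D _ _ x)
  calc 3 / 10 * (F i).val x
      = ∑ a ∈ Finset.range (F i).A,
          3 / 10 * ((9 / 10 : ℝ) ^ a * D.q ((F i).B a) ((F i).SS a) x) := by
        unfold TD.Fm.val
        rw [Finset.mul_sum]
    _ ≤ ∑ a ∈ Finset.range (F i).A, (9 / 10 : ℝ) ^ (a + 1) * D.q (B2 a) (SS2 a) x := by
        refine Finset.sum_le_sum fun a ha => ?_
        have e1 := hq i a (Finset.mem_range.1 ha) x hx
        have e2 := hq2 a i x
        have e3 : (0 : ℝ) < (9 / 10) ^ a := by positivity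
        have e4 : D.q ((F i).B a) ((F i).SS a) x ≤ 3 * D.q (B2 a) (SS2 a) x := e1.trans e2
        calc 3 / 10 * ((9 / 10 : ℝ) ^ a * D.q ((F i).B a) ((F i).SS a) x)
            ≤ 3 / 10 * ((9 / 10 : ℝ) ^ a * (3 * D.q (B2 a) (SS2 a) x)) := by gcongr
          _ = (9 / 10 : ℝ) ^ (a + 1) * D.q (B2 a) (SS2 a) x := by ring
    _ ≤ ∑ a ∈ Finset.range A, (9 / 10 : ℝ) ^ (a + 1) * D.q (B2 a) (SS2 a) x :=
        Finset.sum_le_sum_of_subset_of_nonneg (Finset.range_mono hle) fun a _ _ => hnn a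
    _ ≤ G.val x := by
        rw [hG x]
        have := weak_q_nonneg D ∅ ∅ x
        simp only [pow_zero, one_mul]
        linarith

/-- the first `k` coordinates -/
private noncomputable def weakL (D : TD 𝕜) {X : Type} [NormedAddCommGroup X]
    [NormedSpace 𝕜 X] (c : X →ₗ[𝕜] D.V) (k : ℕ) :
    X →ₗ[𝕜] ((j : Fin k) → EuclideanSpace 𝕜 (Fin (D.n j))) :=
  LinearMap.pi fun j => (LinearMap.proj (j : ℕ)).comp c

private theorem weak_mem_ker (D : TD 𝕜) {X : Type} [NormedAddCommGroup X]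
    [NormedSpace 𝕜 X] (c : X →ₗ[𝕜] D.V) (k : ℕ) (x : X) :
    x ∈ LinearMap.ker (weakL D c k) ↔ ∀ j < k, c x j = 0 := by
  rw [LinearMap.mem_ker]
  constructor
  · intro h j hj
    exact congrFun h ⟨j, hj⟩
  · intro h
    funext j
    exact h j j.2

private theorem weak_dim (D : TD 𝕜) {X : Type} [NormedAddCommGroup X]
    [NormedSpace 𝕜 X] (c : X →ₗ[𝕜] D.V) (k : ℕ) (E : Submodule 𝕜 X)
    (hE : FiniteDimensional 𝕜 E) :
    Module.finrank 𝕜 E ≤ Module.finrank 𝕜 (E ⊓ LinearMap.ker (weakL D c k) : Submodule 𝕜 X) +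
      ∑ j ∈ Finset.range k, D.n j := by
  have h1 := LinearMap.finrank_range_add_finrank_ker ((weakL D c k).comp E.subtype)
  have h2 : Module.finrank 𝕜 (LinearMap.range ((weakL D c k).comp E.subtype)) ≤
      ∑ j ∈ Finset.range k, D.n j := by
    refine (Submodule.finrank_le _).trans ?_
    rw [Module.finrank_pi_fintype]
    simp only [finrank_euclideanSpace, Fintype.card_fin]
    rw [Fin.sum_univ_eq_sum_range]
  have h3 : Module.finrank 𝕜 (LinearMap.ker ((weakL D c k).comp E.subtype)) =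
      Module.finrank 𝕜 (E ⊓ LinearMap.ker (weakL D c k) : Submodule 𝕜 X) := by
    rw [LinearMap.ker_comp, ← Submodule.map_comap_subtype]
    exact (Submodule.finrank_map_subtype_eq E _).symm
  omega

private theorem weak_exists_bot (D : TD 𝕜) {X : Type} [NormedAddCommGroup X]
    [NormedSpace 𝕜 X] (c : X →ₗ[𝕜] D.V) (hc : Function.Injective c) (E : Submodule 𝕜 X)
    (hE : FiniteDimensional 𝕜 E) :
    ∃ k, (E ⊓ LinearMap.ker (weakL D c k) : Submodule 𝕜 X) = ⊥ := by
  have hanti : ∀ k l, k ≤ l → LinearMap.ker (weakL D c l) ≤ LinearMap.ker (weakL D c k) := by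
    intro k l hkl x hx
    rw [weak_mem_ker] at hx ⊢
    exact fun j hj => hx j (lt_of_lt_of_le hj hkl)
  let f : ℕ →o (Submodule 𝕜 E)ᵒᵈ :=
    { toFun := fun k => OrderDual.toDual ((LinearMap.ker (weakL D c k)).comap E.subtype)
      monotone' := fun k l hkl => Submodule.comap_mono (hanti k l hkl) }
  obtain ⟨n, hn⟩ := IsArtinian.monotone_stabilizes f
  refine ⟨n, ?_⟩
  rw [eq_bot_iff]
  rintro x ⟨hxE, hx⟩
  have key : ∀ m, n ≤ m → x ∈ LinearMap.ker (weakL D c m) := by
    intro m hm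
    have e : (LinearMap.ker (weakL D c n)).comap E.subtype =
        (LinearMap.ker (weakL D c m)).comap E.subtype := hn m hm
    have h1 : (⟨x, hxE⟩ : E) ∈ (LinearMap.ker (weakL D c n)).comap E.subtype := hx
    rw [e] at h1
    exact h1
  have h0 : c x = 0 := by
    funext j
    have := key (n + j + 1) (by omega)
    rw [weak_mem_ker] at this
    exact this j (by omega)
  rw [Submodule.mem_bot]
  exact hc (h0.trans (map_zero c).symm)

theorem weakHilbert (D : TD 𝕜) (X : Type) [NormedAddCommGroup X] [NormedSpace 𝕜 X]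
    (c : X →ₗ[𝕜] D.V) (hc : D.IsModel X c) : IsWeakHilbert 𝕜 X := by
  classical
  refine ⟨1 / 2, 60, by norm_num, by norm_num, by norm_num, fun E hE => ?_⟩
  by_cases hm : Module.finrank 𝕜 E = 0
  · refine ⟨E, le_rfl, by rw [hm]; simp, ?_⟩
    have hbot : E = ⊥ := Submodule.finrank_eq_zero.1 hm
    have := hilb_proj (G := EuclideanSpace 𝕜 (Fin 0)) E hE (0 : X →ₗ[𝕜] _) (1 / 60)
      (by norm_num) (by simp) (by
        intro x hx
        rw [hbot, Submodule.mem_bot] at hx
        simp [hx])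
    simpa only [one_div, inv_inv] using this
  · set m := Module.finrank 𝕜 E with hmdef
    set N : ℕ → ℕ := fun k => ∑ j ∈ Finset.range k, D.n j with hN
    have hex : ∃ k, m < 2 * N (k + 1) := by
      obtain ⟨k, hk⟩ := weak_exists_bot D c hc.inj E hE
      have h1 := weak_dim D c k E hE
      rw [hk, finrank_bot, zero_add] at h1
      refine ⟨k, ?_⟩
      have h2 : N (k + 1) = N k + D.n k := Finset.sum_range_succ _ _
      have h3 : m ≤ N k := h1
      omega
    set k₀ := Nat.find hex with hk₀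
    have hk1 : m < 2 * N (k₀ + 1) := Nat.find_spec hex
    have hk2 : 2 * N k₀ ≤ m := by
      rcases Nat.eq_zero_or_pos k₀ with h | h
      · rw [h]
        simp [hN]
      · have := Nat.find_min hex (m := k₀ - 1) (by omega)
        rw [show k₀ - 1 + 1 = k₀ by omega] at this
        omega
    set F : Submodule 𝕜 X := E ⊓ LinearMap.ker (weakL D c k₀) with hF
    have hFE : F ≤ E := inf_le_left
    have hFfin : FiniteDimensional 𝕜 F := Submodule.finiteDimensional_of_le hFE
    have hdim : m ≤ Module.finrank 𝕜 F + N k₀ := weak_dim D c k₀ E hE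
    have hFm : Module.finrank 𝕜 F ≤ m := Submodule.finrank_mono hFE
    refine ⟨F, hFE, ?_, ?_⟩
    · have h1 : m ≤ 2 * Module.finrank 𝕜 F := by omega
      have h2 : (m : ℝ) ≤ 2 * (Module.finrank 𝕜 F : ℝ) := by exact_mod_cast h1
      linarith
    · obtain ⟨s, hs1, hs2, hs3⟩ := half_net F hFfin
      have hd : 5 * s.card ^ 2 ≤ D.p k₀ := by
        refine le_trans ?_ (D.p_large k₀)
        refine Nat.mul_le_mul_left 5 ?_
        calc s.card ^ 2 ≤ (25 ^ Module.finrank 𝕜 F) ^ 2 := Nat.pow_le_pow_left hs2 2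
          _ = 25 ^ (Module.finrank 𝕜 F * 2) := (pow_mul _ _ _).symm
          _ ≤ 25 ^ (4 * ∑ j ∈ Finset.range (k₀ + 1), D.n j) := by
              apply Nat.pow_le_pow_right (by norm_num)
              have : N (k₀ + 1) = ∑ j ∈ Finset.range (k₀ + 1), D.n j := rfl
              omega
      have hform : ∀ i : Fin s.card, ∃ F : D.Fm, (9 / 10 : ℝ) <
          F.val (c ((s.equivFin.symm i : s) : X)) := by
        intro i
        refine hc.ge _ _ ?_
        rw [(hs1 _ (s.equivFin.symm i).2).2]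
        norm_num
      choose Fi hFi using hform
      obtain ⟨G, hG⟩ := weak_join_form D k₀ s.card hd Fi
      have hGs : ∀ y ∈ s, (27 / 100 : ℝ) ≤ G.val (c y) := by
        intro y hy
        have h1 := hG (s.equivFin ⟨y, hy⟩) (c y) (by
          have := (hs1 y hy).1.2
          exact (weak_mem_ker D c k₀ y).1 this)
        have h2 := hFi (s.equivFin ⟨y, hy⟩)
        rw [Equiv.symm_apply_apply] at h2
        have h3 : (9 / 10 : ℝ) < (Fi (s.equivFin ⟨y, hy⟩)).val (c y) := h2
        linarith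
      obtain ⟨n, Φ, hΦ⟩ := Fm_exists_map G
      have hle : ∀ x, ‖(Φ.comp c) x‖ ≤ ‖x‖ := by
        intro x
        have h1 : ‖Φ (c x)‖ ^ 2 ≤ ‖x‖ ^ 2 := by
          rw [hΦ]
          exact hc.le G x
        exact (abs_le_of_sq_le_sq' h1 (norm_nonneg _)).2
      have hbig : ∀ y ∈ s, (31 / 60 : ℝ) ≤ ‖(Φ.comp c) y‖ := by
        intro y hy
        have h1 : (27 / 100 : ℝ) ≤ ‖Φ (c y)‖ ^ 2 := by
          rw [hΦ]
          exact hGs y hy
        have h2 : (31 / 60 : ℝ) ^ 2 ≤ ‖Φ (c y)‖ ^ 2 := by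
          refine le_trans ?_ h1
          norm_num
        exact (abs_le_of_sq_le_sq' h2 (norm_nonneg _)).2
      have hunit : ∀ x ∈ F, ‖x‖ = 1 → (1 / 60 : ℝ) ≤ ‖(Φ.comp c) x‖ := by
        intro x hx hx1
        obtain ⟨y, hy, hxy⟩ := hs3 x hx hx1
        have h1 := hbig y hy
        have h2 := hle (x - y)
        have h3 : ‖(Φ.comp c) y‖ ≤ ‖(Φ.comp c) x‖ + ‖(Φ.comp c) (x - y)‖ := by
          have : (Φ.comp c) y = (Φ.comp c) x - (Φ.comp c) (x - y) := by
            rw [map_sub]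
            abel
          rw [this]
          exact norm_sub_le _ _
        linarith
      have := hilb_proj F hFfin (Φ.comp c) (1 / 60) (by norm_num) hle (by
        intro x hx
        rcases eq_or_ne x 0 with rfl | hx0
        · simp
        · have hn : 0 < ‖x‖ := norm_pos_iff.2 hx0
          have h1 := hunit (((‖x‖⁻¹ : ℝ) : 𝕜) • x) (F.smul_mem _ hx) (by
            rw [norm_smul, RCLike.norm_ofReal, abs_of_pos (inv_pos.2 hn),
              inv_mul_cancel₀ hn.ne'])
          rw [map_smul, norm_smul, RCLike.norm_ofReal, abs_of_pos (inv_pos.2 hn)] at h1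
          rw [← div_eq_inv_mul, le_div_iff₀ hn] at h1
          exact h1)
      simpa only [one_div, inv_inv] using this

end Pool.Agent.WH
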