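import Pool.Agent.WH.Model
import Pool.Agent.WH.Tools
import Pool.Agent.WH.Average
import Pool.Agent.WH.Alt
import Pool.Agent.WH.Small
import Pool.Agent.WH.NotGro
import Pool.Agent.WH.Weak
import Pool.Agent.WH.Data

/-!
Project WH (MP_a9f751_an): the normalised traces of the blocks converge for every operator, and
the main theorem.
-/

set_option autoImplicit false

open Filter Topology

namespace Pool.Agent.WH

variable {𝕜 : Type} [RCLike 𝕜]

theorem mn_even_sum (r : ℕ) (f : ℕ → 𝕜) :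
    ∑ i ∈ Finset.range (2 * r), f i = ∑ l ∈ Finset.range r, (f (2 * l) + f (2 * l + 1)) := by
  induction r with
  | zero => simp
  | succ r ih =>
    rw [show 2 * (r + 1) = 2 * r + 1 + 1 by ring, Finset.sum_range_succ, Finset.sum_range_succ,
      ih, Finset.sum_range_succ, add_assoc]

theorem mn_lower (r : ℕ) (w : ℕ → ℝ) (hw : ∀ i, 0 ≤ w i) (hww : ∀ l < r, w (2 * l) = w (2 * l + 1))
    (h1 : ∑ i ∈ Finset.range (2 * r), w i = 1) (a : ℕ → 𝕜) (z z' : 𝕜) (η : ℝ)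
    (h0 : ∀ l < r, ‖a (2 * l) - z‖ ≤ η) (h2 : ∀ l < r, ‖a (2 * l + 1) - z'‖ ≤ η) :
    ‖z - z'‖ / 2 - η ≤ ‖∑ i ∈ Finset.range (2 * r), (((-1) ^ i * w i : ℝ) : 𝕜) * a i‖ := by
  have hs : ∑ l ∈ Finset.range r, w (2 * l) = 1 / 2 := by
    have h3 : ∑ i ∈ Finset.range (2 * r), w i
        = ∑ l ∈ Finset.range r, (w (2 * l) + w (2 * l + 1)) := mn_even_sum (𝕜 := ℝ) r w
    have h4 : ∑ l ∈ Finset.range r, (w (2 * l) + w (2 * l + 1))
        = 2 * ∑ l ∈ Finset.range r, w (2 * l) := by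
      rw [Finset.mul_sum]
      refine Finset.sum_congr rfl fun l hl => ?_
      rw [← hww l (Finset.mem_range.1 hl)]
      ring
    linarith
  have hx : ∑ i ∈ Finset.range (2 * r), (((-1) ^ i * w i : ℝ) : 𝕜) * a i
      = ∑ l ∈ Finset.range r, (w (2 * l) : 𝕜) * (a (2 * l) - a (2 * l + 1)) := by
    rw [mn_even_sum]
    refine Finset.sum_congr rfl fun l hl => ?_
    rw [← hww l (Finset.mem_range.1 hl)]
    have e1 : ((-1 : ℝ)) ^ (2 * l) = 1 := by rw [pow_mul]; norm_num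
    have e2 : ((-1 : ℝ)) ^ (2 * l + 1) = -1 := by rw [pow_succ, e1]; norm_num
    rw [e1, e2]
    push_cast
    ring
  have hy : ∑ l ∈ Finset.range r, (w (2 * l) : 𝕜) * (a (2 * l) - a (2 * l + 1))
      = (z - z') / 2 + ∑ l ∈ Finset.range r,
        (w (2 * l) : 𝕜) * ((a (2 * l) - z) - (a (2 * l + 1) - z')) := by
    have h5 : ∀ l ∈ Finset.range r, (w (2 * l) : 𝕜) * (a (2 * l) - a (2 * l + 1))
        = (w (2 * l) : 𝕜) * (z - z')
          + (w (2 * l) : 𝕜) * ((a (2 * l) - z) - (a (2 * l + 1) - z')) := by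
      intro l _
      ring
    rw [Finset.sum_congr rfl h5, Finset.sum_add_distrib, ← Finset.sum_mul]
    congr 1
    have h6 : (∑ l ∈ Finset.range r, (w (2 * l) : 𝕜)) = ((1 / 2 : ℝ) : 𝕜) := by
      rw [← hs]
      push_cast
      rfl
    rw [h6]
    push_cast
    ring
  rw [hx, hy]
  have h7 : ‖∑ l ∈ Finset.range r,
      (w (2 * l) : 𝕜) * ((a (2 * l) - z) - (a (2 * l + 1) - z'))‖ ≤ η := by
    calc ‖∑ l ∈ Finset.range r, (w (2 * l) : 𝕜) * ((a (2 * l) - z) - (a (2 * l + 1) - z'))‖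
        ≤ ∑ l ∈ Finset.range r, w (2 * l) * (2 * η) := by
          refine norm_sum_le_of_le _ fun l hl => ?_
          rw [norm_mul, RCLike.norm_ofReal, abs_of_nonneg (hw _)]
          refine mul_le_mul_of_nonneg_left ?_ (hw _)
          have e3 := h0 l (Finset.mem_range.1 hl)
          have e4 := h2 l (Finset.mem_range.1 hl)
          have e5 := norm_sub_le (a (2 * l) - z) (a (2 * l + 1) - z')
          linarith
      _ = η := by
          rw [← Finset.sum_mul, hs]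
          ring
  have h8 : ‖(z - z') / 2‖ = ‖z - z'‖ / 2 := by
    rw [norm_div]
    norm_num
  have h9 := norm_sub_le_norm_add ((z - z') / 2) (∑ l ∈ Finset.range r,
      (w (2 * l) : 𝕜) * ((a (2 * l) - z) - (a (2 * l + 1) - z')))
  rw [h8] at h9
  linarith

/-- smallness of the right side -/
theorem mn_small (t δ : ℝ) (ht : 0 ≤ t) (hδ : 0 < δ) :
    ∃ (a j K : ℕ) (E : ℝ), 0 ≤ E ∧
      90 * (1 / 4 : ℝ) ^ j + 80 * (1 / 4) ^ K + 30 * (9 / 10) ^ (a + 1) ≤ E ^ 2 ∧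
      t * (E + 24 * (1 / 2) ^ K) < δ := by
  have hE : ∃ E : ℝ, 0 < E ∧ t * E < δ / 2 := by
    refine ⟨δ / (2 * (t + 1)) / 1, by positivity, ?_⟩
    rw [div_one, mul_div_assoc', div_lt_div_iff₀ (by positivity) (by norm_num)]
    nlinarith
  obtain ⟨E, hE0, hE1⟩ := hE
  have l1 : Tendsto (fun j : ℕ => 90 * (1 / 4 : ℝ) ^ j) atTop (𝓝 0) := by
    have := (tendsto_pow_atTop_nhds_zero_of_lt_one (r := (1 / 4 : ℝ)) (by norm_num)
      (by norm_num)).const_mul 90
    simpa using this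
  have l2 : Tendsto (fun j : ℕ => 80 * (1 / 4 : ℝ) ^ j) atTop (𝓝 0) := by
    have := (tendsto_pow_atTop_nhds_zero_of_lt_one (r := (1 / 4 : ℝ)) (by norm_num)
      (by norm_num)).const_mul 80
    simpa using this
  have l3 : Tendsto (fun j : ℕ => 30 * (9 / 10 : ℝ) ^ (j + 1)) atTop (𝓝 0) := by
    have := ((tendsto_pow_atTop_nhds_zero_of_lt_one (r := (9 / 10 : ℝ)) (by norm_num)
      (by norm_num)).comp (tendsto_add_atTop_nat 1)).const_mul 30
    simpa using this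
  have l4 : Tendsto (fun j : ℕ => t * (24 * (1 / 2 : ℝ) ^ j)) atTop (𝓝 0) := by
    have := ((tendsto_pow_atTop_nhds_zero_of_lt_one (r := (1 / 2 : ℝ)) (by norm_num)
      (by norm_num)).const_mul 24).const_mul t
    simpa using this
  have hp : (0 : ℝ) < E ^ 2 / 3 := by positivity
  obtain ⟨j, hj⟩ := (l1.eventually (gt_mem_nhds hp)).exists
  obtain ⟨a, ha⟩ := (l3.eventually (gt_mem_nhds hp)).exists
  obtain ⟨K, hK1, hK2⟩ := ((l2.eventually (gt_mem_nhds hp)).and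
    (l4.eventually (gt_mem_nhds (half_pos hδ)))).exists
  refine ⟨a, j, K, E, hE0.le, by linarith, ?_⟩
  rw [mul_add]
  linarith

theorem phi_tendsto {D : TD 𝕜} (h : HasChains D) {X : Type} [NormedAddCommGroup X]
    [NormedSpace 𝕜 X] (c : X →ₗ[𝕜] D.V) (hc : D.IsModel X c)
    (ι : (k : ℕ) → EuclideanSpace 𝕜 (Fin (D.n k)) →ₗ[𝕜] X)
    (hι : ∀ k v, c (ι k v) = Pi.single k v) (hι' : ∀ k v, ‖ι k v‖ ≤ 6 * ‖v‖)
    (T : X →L[𝕜] X) : ∃ z, Tendsto (fun k => phi D c ι k T) atTop (𝓝 z) := by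
  have hb : ∀ k, phi D c ι k T ∈ Metric.closedBall (0 : 𝕜) (6 * ‖T‖) := by
    intro k
    obtain ⟨φ, hφ, hφT⟩ := exists_phi c hc ι hι hι' k
    rw [mem_closedBall_zero_iff, ← hφT]
    exact (φ.le_opNorm T).trans (mul_le_mul_of_nonneg_right hφ (norm_nonneg _))
  have hK := isCompact_closedBall (0 : 𝕜) (6 * ‖T‖)
  obtain ⟨z, -, hz⟩ := hK.exists_mapClusterPt (f := atTop) (u := fun k => phi D c ι k T)
    (by rw [Filter.le_principal_iff]; exact Filter.mem_map.2 (Filter.univ_mem' hb))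
  refine ⟨z, hK.tendsto_nhds_of_unique_mapClusterPt (Eventually.of_forall hb) ?_⟩
  intro z' _ hz'
  by_contra hne
  have hd : 0 < ‖z - z'‖ := norm_pos_iff.2 (sub_ne_zero.2 (Ne.symm hne))
  obtain ⟨a, j, K, E, hE0, hE1, hE2⟩ := mn_small ‖T‖ (‖z - z'‖ / 4) (norm_nonneg _) (by positivity)
  have hinf : ∀ y, MapClusterPt y atTop (fun k => phi D c ι k T) →
      {k | ‖phi D c ι k T - y‖ ≤ ‖z - z'‖ / 8}.Infinite := by
    intro y hy
    have h1 := hy.frequently (Metric.closedBall_mem_nhds y (by positivity : 0 < ‖z - z'‖ / 8))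
    have h2 : ∃ᶠ k in atTop, ‖phi D c ι k T - y‖ ≤ ‖z - z'‖ / 8 := by
      refine h1.mono fun k hk => ?_
      rwa [← dist_eq_norm]
    exact Nat.frequently_atTop_iff_infinite.1 h2
  obtain ⟨r, k, e, hr, hk, hKk, hM, hee, hek, h1, hcls⟩ :=
    small_weights D.p D.p_mono a j 0 K _ _ (hinf z hz) (hinf z' hz')
  have hF : ∀ (u : ℕ) (F : D.Fm), F.val (altv h k e (2 * r) u) ≤ E ^ 2 := by
    intro u F
    have h2 := altv_le h a ((1 / 4) ^ j) (by positivity) r k e hk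
      (fun i hi => by simpa using hek i hi) hee h1 hcls u F
    have h3 : (1 / 4 : ℝ) ^ k 0 ≤ (1 / 4) ^ K :=
      pow_le_pow_of_le_one (by norm_num) (by norm_num) (hKk 0 (by omega))
    linarith
  have h4 := average h c hc ι hι hι' (2 * r) (by omega) k e hk
    (fun i hi => by simpa using hek i hi) h1 E hE0 hF T
  have h5 := mn_lower (𝕜 := 𝕜) r (fun i => (1 / 4 : ℝ) ^ e i) (fun i => by positivity)
    (fun l hl => by simp only [hee l hl]) h1 (fun i => phi D c ι (k i) T) z z'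
    (‖z - z'‖ / 8) (fun l hl => (hM l hl).1) (fun l hl => (hM l hl).2)
  have h6 : (1 / 2 : ℝ) ^ k 0 ≤ (1 / 2) ^ K :=
    pow_le_pow_of_le_one (by norm_num) (by norm_num) (hKk 0 (by omega))
  have h7 : ‖T‖ * (E + 24 * (1 / 2) ^ k 0) ≤ ‖T‖ * (E + 24 * (1 / 2) ^ K) :=
    mul_le_mul_of_nonneg_left (by linarith) (norm_nonneg _)
  linarith

theorem phi_trunc {D : TD 𝕜} (h : HasChains D) {X : Type} [NormedAddCommGroup X]
    [NormedSpace 𝕜 X] (c : X →ₗ[𝕜] D.V)
    (ι : (k : ℕ) → EuclideanSpace 𝕜 (Fin (D.n k)) →ₗ[𝕜] X)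
    (hι : ∀ k v, c (ι k v) = Pi.single k v) (m : ℕ) (P : X →L[𝕜] X)
    (hP : ∀ x, c (P x) = D.trunc m (c x)) (k : ℕ) :
    phi D c ι k P = if k < m then 1 else 0 := by
  unfold phi
  have h1 : ∀ i : Fin (D.n k), c (P (ι k (EuclideanSpace.single i 1))) k i
      = if k < m then (1 : 𝕜) else 0 := by
    intro i
    rw [hP, hι]
    unfold TD.trunc
    split_ifs
    · simp
    · simp
  rw [Finset.sum_congr rfl fun i _ => h1 i, Finset.sum_const, Finset.card_univ, Fintype.card_fin,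
    nsmul_eq_mul]
  have h2 : (D.n k : 𝕜) ≠ 0 := Nat.cast_ne_zero.2 (h.n_pos k).ne'
  split_ifs
  · rw [mul_one, inv_mul_cancel₀ h2]
  · simp

theorem not_gro {D : TD 𝕜} (h : HasChains D) {X : Type} [NormedAddCommGroup X]
    [NormedSpace 𝕜 X] [CompleteSpace X] (c : X →ₗ[𝕜] D.V) (hc : D.IsModel X c) :
    ¬ IsGrothendieck 𝕜 (X →L[𝕜] X) := by
  obtain ⟨ι, hι, hι'⟩ := exists_iota c hc
  choose φ hφ hφT using exists_phi c hc ι hι hι'
  choose P hP hPc using exists_trunc c hc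
  choose ψ hψ using phi_tendsto h c hc ι hι hι'
  have hlim : Tendsto (fun k T => φ k T) atTop (𝓝 ψ) := by
    rw [tendsto_pi_nhds]
    intro T
    simpa only [hφT] using hψ T
  refine not_grothendieck φ (continuousLinearMapOfTendsto φ hlim) ?_ P hP ?_ ?_
  · intro T
    have h1 := hψ T
    simp only [← hφT] at h1
    exact h1
  · intro k n hkn
    rw [hφT, phi_trunc h c ι hι n (P n) (hPc n), if_pos hkn]
  · intro n
    have h1 := hψ (P n)
    have h2 : Tendsto (fun k => phi D c ι k (P n)) atTop (𝓝 0) := by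
      refine tendsto_const_nhds.congr' ?_
      filter_upwards [Filter.eventually_ge_atTop n] with k hk
      rw [phi_trunc h c ι hι n (P n) (hPc n), if_neg (by omega)]
    exact tendsto_nhds_unique h1 h2

theorem main_exists (𝕜 : Type) [RCLike 𝕜] :
    ∃ (X : Type) (_ : NormedAddCommGroup X) (_ : NormedSpace 𝕜 X), CompleteSpace X ∧
      IsWeakHilbert 𝕜 X ∧ ¬ IsGrothendieck 𝕜 (X →L[𝕜] X) := by
  obtain ⟨D, ⟨h⟩⟩ := exists_data 𝕜
  obtain ⟨X, i1, i2, c, i3, hc⟩ := exists_model D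
  exact ⟨X, i1, i2, i3, weakHilbert D X c hc, not_gro h c hc⟩

end Pool.Agent.WH
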