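import Pool.Agent.WH.Phi

/-!
Project WH (MP_a9f751_an): the Banach space of all sequences `y` with `sup F.val y` finite.
-/

set_option autoImplicit false

open Filter Topology

namespace Pool.Agent.WH

variable {𝕜 : Type} [RCLike 𝕜]

namespace Model

variable {D : TD 𝕜}

private theorem exists_block (D : TD 𝕜) (k : ℕ) : ∃ F : D.Fm, ∀ x, F.val x = ‖x k‖ ^ 2 := by
  refine ⟨⟨1, fun _ => {k}, fun _ => ∅, ?_⟩, ?_⟩
  · intro a ha
    have ha0 : a = 0 := by omega
    subst ha0
    refine ⟨?_, ?_, ?_, ?_, ?_⟩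
    · intro S hS
      exact absurd hS (Finset.notMem_empty S)
    · intro S hS
      exact absurd hS (Finset.notMem_empty S)
    · intro j A hA
      have hA0 : A = ∅ := by
        refine Finset.eq_empty_of_forall_notMem fun t ht => ?_
        obtain ⟨-, S, hS, -⟩ := hA t ht
        exact Finset.notMem_empty S hS
      rw [hA0, Finset.card_empty]
      exact Nat.zero_le _
    · change Finset.card {k} ≤ 1
      rw [Finset.card_singleton]
    · change Finset.card ∅ ≤ 1
      rw [Finset.card_empty]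
      exact Nat.zero_le _
  · intro x
    unfold TD.Fm.val TD.q
    simp

private theorem val_nonneg (F : D.Fm) (x : D.V) : 0 ≤ F.val x := by
  obtain ⟨N, Φ, hΦ⟩ := Fm_exists_map F
  rw [← hΦ]
  positivity

private theorem val_zero (F : D.Fm) : F.val (0 : D.V) = 0 := by
  obtain ⟨N, Φ, hΦ⟩ := Fm_exists_map F
  rw [← hΦ, map_zero, norm_zero]
  norm_num

private theorem val_smul (F : D.Fm) (r : 𝕜) (x : D.V) : F.val (r • x) = ‖r‖ ^ 2 * F.val x := by
  obtain ⟨N, Φ, hΦ⟩ := Fm_exists_map F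
  rw [← hΦ, ← hΦ, map_smul, norm_smul, mul_pow]

private theorem val_add (F : D.Fm) (x y : D.V) {r s : ℝ} (hr : 0 ≤ r) (hs : 0 ≤ s)
    (hx : F.val x ≤ r ^ 2) (hy : F.val y ≤ s ^ 2) : F.val (x + y) ≤ (r + s) ^ 2 := by
  obtain ⟨N, Φ, hΦ⟩ := Fm_exists_map F
  rw [← hΦ] at hx hy ⊢
  have h1 : ‖Φ x‖ ≤ r := abs_le_of_sq_le_sq' hx hr |>.2
  have h2 : ‖Φ y‖ ≤ s := abs_le_of_sq_le_sq' hy hs |>.2
  rw [map_add]
  have h3 : ‖Φ x + Φ y‖ ≤ r + s := (norm_add_le _ _).trans (add_le_add h1 h2)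
  exact pow_le_pow_left₀ (norm_nonneg _) h3 2

private theorem val_continuous (F : D.Fm) : Continuous fun x : D.V => F.val x := by
  unfold TD.Fm.val TD.q TD.qS TD.coef
  refine continuous_finsetSum _ fun a _ => continuous_const.mul ?_
  refine (continuous_finsetSum _ fun k _ => ?_).add (continuous_finsetSum _ fun S _ => ?_)
  · exact ((continuous_apply k).norm).pow 2
  · refine Continuous.div_const (Continuous.pow (Continuous.norm ?_) 2) _
    refine continuous_finsetSum _ fun t _ => continuous_const.mul ?_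
    exact Continuous.inner continuous_const (continuous_apply (D.b t))

/-- all sequences on which the forms are bounded -/
private def W (D : TD 𝕜) : Submodule 𝕜 D.V where
  carrier := {y | ∃ r : ℝ, 0 ≤ r ∧ ∀ F : D.Fm, F.val y ≤ r ^ 2}
  add_mem' := by
    rintro x y ⟨r, hr, hx⟩ ⟨s, hs, hy⟩
    exact ⟨r + s, add_nonneg hr hs, fun F => val_add F x y hr hs (hx F) (hy F)⟩
  zero_mem' := ⟨0, le_refl 0, fun F => by rw [val_zero]; norm_num⟩
  smul_mem' := by
    rintro c x ⟨r, hr, hx⟩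
    refine ⟨‖c‖ * r, mul_nonneg (norm_nonneg c) hr, fun F => ?_⟩
    rw [val_smul, mul_pow]
    exact mul_le_mul_of_nonneg_left (hx F) (sq_nonneg _)

/-- the space, as a type without a topology -/
private def Sp (D : TD 𝕜) : Type := W D

private instance (D : TD 𝕜) : AddCommGroup (Sp D) := inferInstanceAs (AddCommGroup (W D))

private instance (D : TD 𝕜) : Module 𝕜 (Sp D) := inferInstanceAs (Module 𝕜 (W D))

/-- the coordinate map -/
private def co (D : TD 𝕜) : Sp D →ₗ[𝕜] D.V := (W D).subtype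

private theorem co_inj : Function.Injective (co D) := (W D).injective_subtype

private theorem co_bdd (x : Sp D) : ∃ r : ℝ, 0 ≤ r ∧ ∀ F : D.Fm, F.val (co D x) ≤ r ^ 2 := x.2

private theorem co_surj (y : D.V) (r : ℝ) (hr : 0 ≤ r) (h : ∀ F : D.Fm, F.val y ≤ r ^ 2) :
    ∃ x : Sp D, co D x = y := ⟨⟨y, r, hr, h⟩, rfl⟩

/-- the square of the norm -/
private noncomputable def nsq (x : Sp D) : ℝ := ⨆ F : D.Fm, F.val (co D x)

private instance : Nonempty D.Fm := ⟨(exists_block D 0).choose⟩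

private theorem le_nsq (F : D.Fm) (x : Sp D) : F.val (co D x) ≤ nsq x := by
  refine le_ciSup (f := fun F : D.Fm => F.val (co D x)) ?_ F
  obtain ⟨r, -, hr⟩ := co_bdd x
  refine ⟨r ^ 2, ?_⟩
  rintro _ ⟨F, rfl⟩
  exact hr F

private theorem nsq_nonneg (x : Sp D) : 0 ≤ nsq x := Real.iSup_nonneg fun F => val_nonneg F _

private theorem sqrt_nsq_le (x : Sp D) {r : ℝ} (hr : 0 ≤ r)
    (h : ∀ F : D.Fm, F.val (co D x) ≤ r ^ 2) : √(nsq x) ≤ r := by
  rw [Real.sqrt_le_left hr]
  exact ciSup_le h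

/-- the norm -/
private noncomputable instance (D : TD 𝕜) : Norm (Sp D) := ⟨fun x => √(nsq x)⟩

private theorem core (D : TD 𝕜) : NormedSpace.Core 𝕜 (Sp D) where
  norm_nonneg x := Real.sqrt_nonneg _
  norm_smul c x := by
    change √(nsq (c • x)) = ‖c‖ * √(nsq x)
    have h : nsq (c • x) = ‖c‖ ^ 2 * nsq x := by
      unfold nsq
      rw [Real.mul_iSup_of_nonneg (sq_nonneg _)]
      refine congrArg iSup (funext fun F => ?_)
      rw [map_smul]
      exact val_smul F c _
    rw [h, Real.sqrt_mul (sq_nonneg _), Real.sqrt_sq (norm_nonneg _)]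
  norm_triangle x y := by
    change √(nsq (x + y)) ≤ √(nsq x) + √(nsq y)
    refine sqrt_nsq_le _ (add_nonneg (Real.sqrt_nonneg _) (Real.sqrt_nonneg _)) fun F => ?_
    rw [map_add]
    refine val_add F _ _ (Real.sqrt_nonneg _) (Real.sqrt_nonneg _) ?_ ?_
    · rw [Real.sq_sqrt (nsq_nonneg x)]
      exact le_nsq F x
    · rw [Real.sq_sqrt (nsq_nonneg y)]
      exact le_nsq F y
  norm_eq_zero_iff x := by
    change √(nsq x) = 0 ↔ x = 0
    constructor
    · intro h
      rw [Real.sqrt_eq_zero (nsq_nonneg x)] at h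
      refine co_inj (funext fun k => ?_)
      obtain ⟨F, hF⟩ := exists_block D k
      have h1 := le_nsq F x
      rw [h, hF] at h1
      have h2 : ‖co D x k‖ = 0 :=
        (pow_eq_zero_iff (two_ne_zero)).mp (le_antisymm h1 (sq_nonneg _))
      rw [map_zero]
      exact norm_eq_zero.mp h2
    · rintro rfl
      have h : nsq (0 : Sp D) = 0 := by
        unfold nsq
        have : (fun F : D.Fm => F.val (co D (0 : Sp D))) = fun _ => (0 : ℝ) :=
          funext fun F => by rw [map_zero]; exact val_zero F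
        rw [this, ciSup_const]
      rw [h, Real.sqrt_zero]

private noncomputable instance (D : TD 𝕜) : NormedAddCommGroup (Sp D) :=
  NormedAddCommGroup.ofCore (core D)

private noncomputable instance (D : TD 𝕜) : NormedSpace 𝕜 (Sp D) :=
  NormedSpace.ofCore (core D)

private theorem norm_sp (x : Sp D) : ‖x‖ = √(nsq x) := rfl

private theorem norm_sq (x : Sp D) : ‖x‖ ^ 2 = nsq x := by
  rw [norm_sp, Real.sq_sqrt (nsq_nonneg x)]

private theorem val_le_norm (F : D.Fm) (x : Sp D) : F.val (co D x) ≤ ‖x‖ ^ 2 := by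
  rw [norm_sq]; exact le_nsq F x

private theorem complete_sp : CompleteSpace (Sp D) := by
  refine Metric.complete_of_cauchySeq_tendsto fun u hu => ?_
  have hk : ∀ k : ℕ, ∃ z : EuclideanSpace 𝕜 (Fin (D.n k)),
      Tendsto (fun m => co D (u m) k) atTop (𝓝 z) := by
    intro k
    refine cauchySeq_tendsto_of_complete ?_
    rw [Metric.cauchySeq_iff] at hu ⊢
    intro ε hε
    obtain ⟨N, hN⟩ := hu ε hε
    refine ⟨N, fun m hm m' hm' => ?_⟩
    have h1 := hN m hm m' hm'
    rw [dist_eq_norm] at h1 ⊢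
    obtain ⟨F, hF⟩ := exists_block D k
    have h2 := val_le_norm F (u m - u m')
    rw [hF, map_sub] at h2
    have h3 : ‖co D (u m) k - co D (u m') k‖ ≤ ‖u m - u m'‖ :=
      (abs_le_of_sq_le_sq' h2 (norm_nonneg _)).2
    exact lt_of_le_of_lt h3 h1
  choose y hy using hk
  have hlim : Tendsto (fun m => co D (u m)) atTop (𝓝 y) := tendsto_pi_nhds.mpr hy
  have hF : ∀ (F : D.Fm) (m : ℕ), Tendsto (fun m' => F.val (co D (u m) - co D (u m'))) atTop
      (𝓝 (F.val (co D (u m) - y))) := fun F m =>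
    ((val_continuous F).tendsto _).comp (tendsto_const_nhds.sub hlim)
  have hN : ∀ ε : ℝ, 0 < ε → ∃ N, ∀ m ≥ N, ∀ F : D.Fm, F.val (co D (u m) - y) ≤ ε ^ 2 := by
    intro ε hε
    obtain ⟨N, hN⟩ := (Metric.cauchySeq_iff.mp hu) ε hε
    refine ⟨N, fun m hm F => le_of_tendsto (hF F m) ?_⟩
    filter_upwards [eventually_ge_atTop N] with m' hm'
    have h1 := hN m hm m' hm'
    rw [dist_eq_norm] at h1
    have h2 := val_le_norm F (u m - u m')
    rw [map_sub] at h2
    exact h2.trans (pow_le_pow_left₀ (norm_nonneg _) h1.le 2)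
  obtain ⟨N₁, hN1⟩ := hN 1 one_pos
  obtain ⟨z, hz⟩ := co_surj (co D (u N₁) - y) 1 zero_le_one (hN1 N₁ le_rfl)
  refine ⟨u N₁ - z, ?_⟩
  have hy' : co D (u N₁ - z) = y := by rw [map_sub, hz, sub_sub_cancel]
  rw [Metric.tendsto_atTop]
  intro ε hε
  obtain ⟨N, hN1⟩ := hN (ε / 2) (half_pos hε)
  refine ⟨N, fun m hm => ?_⟩
  rw [dist_eq_norm, norm_sp]
  refine lt_of_le_of_lt (sqrt_nsq_le _ (half_pos hε).le fun F => ?_) (half_lt_self hε)
  rw [map_sub, hy']
  exact hN1 m hm F

end Model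

open Model in
theorem exists_model (D : TD 𝕜) :
    ∃ (X : Type) (_ : NormedAddCommGroup X) (_ : NormedSpace 𝕜 X) (c : X →ₗ[𝕜] D.V),
      CompleteSpace X ∧ D.IsModel X c := by
  refine ⟨Sp D, inferInstance, inferInstance, co D, complete_sp, co_inj, val_le_norm, ?_, ?_⟩
  · intro x r hr
    rw [norm_sq] at hr
    exact exists_lt_of_lt_ciSup hr
  · intro y C hC
    refine co_surj y (√(max C 0)) (Real.sqrt_nonneg _) fun F => ?_
    rw [Real.sq_sqrt (le_max_right _ _)]
    exact (hC F).trans (le_max_left _ _)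

end Pool.Agent.WH
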