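import Pool.Agent.WH.Base

/-!
Project WH (MP_a9f751_an), row WH-02: a form is the square of the norm of a linear map into a
Euclidean space.
-/

set_option autoImplicit false

open Filter Topology

namespace Pool.Agent.WH

variable {𝕜 : Type} [RCLike 𝕜]

/-- `f` is a finite sum of squares of absolute values of linear functionals. -/
private def IsSqSum {V : Type} [AddCommGroup V] [Module 𝕜 V] (f : V → ℝ) : Prop :=
  ∃ L : List (V →ₗ[𝕜] 𝕜), ∀ x, (L.map (fun φ => ‖φ x‖ ^ 2)).sum = f x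

private theorem isSqSum_zero {V : Type} [AddCommGroup V] [Module 𝕜 V] :
    IsSqSum (𝕜 := 𝕜) (fun _ : V => (0 : ℝ)) :=
  ⟨[], fun x => by simp⟩

private theorem isSqSum_single {V : Type} [AddCommGroup V] [Module 𝕜 V] (φ : V →ₗ[𝕜] 𝕜) :
    IsSqSum (𝕜 := 𝕜) (fun x : V => ‖φ x‖ ^ 2) :=
  ⟨[φ], fun x => by simp⟩

private theorem isSqSum_add {V : Type} [AddCommGroup V] [Module 𝕜 V] {f g : V → ℝ}
    (hf : IsSqSum (𝕜 := 𝕜) f) (hg : IsSqSum (𝕜 := 𝕜) g) :
    IsSqSum (𝕜 := 𝕜) (fun x => f x + g x) := by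
  obtain ⟨L, hL⟩ := hf
  obtain ⟨M, hM⟩ := hg
  exact ⟨L ++ M, fun x => by rw [List.map_append, List.sum_append, hL, hM]⟩

private theorem isSqSum_sum {V ι : Type} [AddCommGroup V] [Module 𝕜 V] (s : Finset ι)
    {f : ι → V → ℝ} (hf : ∀ i ∈ s, IsSqSum (𝕜 := 𝕜) (f i)) :
    IsSqSum (𝕜 := 𝕜) (fun x => ∑ i ∈ s, f i x) := by
  classical
  induction s using Finset.induction_on with
  | empty => simpa using isSqSum_zero (𝕜 := 𝕜) (V := V)
  | insert i s hi ih =>
    have h1 := isSqSum_add (hf i (Finset.mem_insert_self i s))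
      (ih fun j hj => hf j (Finset.mem_insert_of_mem hj))
    refine Eq.mp ?_ h1
    congr 1
    funext x
    rw [Finset.sum_insert hi]

private theorem isSqSum_smul {V : Type} [AddCommGroup V] [Module 𝕜 V] {c : ℝ} (hc : 0 ≤ c)
    {f : V → ℝ} (hf : IsSqSum (𝕜 := 𝕜) f) : IsSqSum (𝕜 := 𝕜) (fun x => c * f x) := by
  obtain ⟨L, hL⟩ := hf
  refine ⟨L.map (fun φ => ((Real.sqrt c : ℝ) : 𝕜) • φ), fun x => ?_⟩
  beta_reduce
  rw [← hL x, List.map_map, ← List.sum_map_mul_left]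
  congr 1
  refine List.map_congr_left fun φ _ => ?_
  rw [Function.comp_apply, LinearMap.smul_apply, norm_smul, mul_pow, RCLike.norm_ofReal,
    sq_abs, Real.sq_sqrt hc]

/-- coordinate of a block -/
private noncomputable def coordF (D : TD 𝕜) (k : ℕ) (i : Fin (D.n k)) : D.V →ₗ[𝕜] 𝕜 where
  toFun x := x k i
  map_add' _ _ := rfl
  map_smul' _ _ := rfl

/-- coefficient at a node as a linear functional -/
private noncomputable def coefF (D : TD 𝕜) (t : D.Nd) : D.V →ₗ[𝕜] 𝕜 where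
  toFun x := D.coef t x
  map_add' x y := by
    unfold TD.coef
    rw [Pi.add_apply, inner_add_right]
  map_smul' c x := by
    unfold TD.coef
    rw [Pi.smul_apply, inner_smul_right, RingHom.id_apply, smul_eq_mul]

private theorem isSqSum_block (D : TD 𝕜) (k : ℕ) :
    IsSqSum (𝕜 := 𝕜) (fun x : D.V => ‖x k‖ ^ 2) := by
  have h := isSqSum_sum (𝕜 := 𝕜) (V := D.V) (Finset.univ : Finset (Fin (D.n k)))
    (f := fun i x => ‖coordF D k i x‖ ^ 2) fun i _ => isSqSum_single _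
  refine Eq.mp ?_ h
  congr 1
  funext x
  rw [EuclideanSpace.norm_sq_eq]
  rfl

private theorem isSqSum_seg (D : TD 𝕜) (S : Finset D.Nd) :
    IsSqSum (𝕜 := 𝕜) (fun x : D.V => D.qS S x) := by
  have h := isSqSum_smul (𝕜 := 𝕜) (V := D.V)
    (c := (∑ t ∈ S, D.al t ^ 2)⁻¹) (inv_nonneg.2 (Finset.sum_nonneg fun t _ => sq_nonneg _))
    (isSqSum_single (𝕜 := 𝕜) (∑ t ∈ S, (D.al t : 𝕜) • coefF D t))
  refine Eq.mp ?_ h
  congr 1
  funext x
  unfold TD.qS
  rw [LinearMap.sum_apply, mul_comm, div_eq_mul_inv]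
  rfl

theorem Fm_exists_map {D : TD 𝕜} (F : D.Fm) :
    ∃ (N : ℕ) (Φ : D.V →ₗ[𝕜] EuclideanSpace 𝕜 (Fin N)), ∀ x, ‖Φ x‖ ^ 2 = F.val x := by
  have h : IsSqSum (𝕜 := 𝕜) (fun x : D.V => F.val x) := by
    unfold TD.Fm.val
    refine isSqSum_sum _ fun a _ => isSqSum_smul (by positivity) ?_
    unfold TD.q
    exact isSqSum_add (isSqSum_sum _ fun k _ => isSqSum_block D k)
      (isSqSum_sum _ fun S _ => isSqSum_seg D S)
  obtain ⟨L, hL⟩ := h
  refine ⟨L.length, (WithLp.linearEquiv 2 𝕜 (Fin L.length → 𝕜)).symm.toLinearMap ∘ₗ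
    LinearMap.pi (fun i => L.get i), fun x => ?_⟩
  have h1 := hL x
  beta_reduce at h1
  rw [← h1, EuclideanSpace.norm_sq_eq]
  rw [← List.sum_ofFn]
  congr 1
  refine List.ext_get (by simp) fun n h1 h2 => ?_
  simp

end Pool.Agent.WH
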